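import Pool.Agent.PD4.Top.Model
import Pool.Agent.PD4.Alg.Defs

/-!
# Transfer from `X` to the finite model: definitions

`M : FinModel κ`, `z` the 4-cycle.  `M.hc k i` is the cochain `s ↦ h(s)_i`, `M.pb k a` the
pull-back of the vector `a` (a cochain of the finite model).  `SM M z` is the duality matrix
`S_{l k} = ± ⟨h_l, z ∩ h_k⟩`, signs `- + + - -` for `deg k = 0, 1, 2, 3, 4`.
-/

namespace Pool.Agent.PD4.Top

open Matrix

variable {X : DeltaCx} {n : ℕ} {κ : Kap X (Fin n → ℤ)} (M : FinModel κ)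

namespace FinModel

/-- degrees as integers -/
def dg (i : M.I) : ℤ := (M.deg i : ℤ)

/-- the coordinate cochains -/
noncomputable def hc (k : ℕ) (i : M.I) (s : X.S k) : Lam n := M.h k (Finsupp.single s 1) i

/-- pull-back of a cochain of the finite model -/
noncomputable def pb (k : ℕ) (a : M.I → Lam n) (s : X.S k) : Lam n := ∑ i, a i * M.hc k i s

/-- push forward of a cochain of `X` along `g` -/
noncomputable def pf [DecidableEq M.I] (k : ℕ) (c : X.S k → Lam n) (i : M.I) : Lam n :=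
  pair c (M.g k (Pi.single i 1))

theorem h_eq (k : ℕ) (x : X.S k →₀ Lam n) (i : M.I) : M.h k x i = pair (M.hc k i) x := by
  induction x using Finsupp.induction_linear with
  | zero => simp
  | add f g hf hg => rw [map_add, Pi.add_apply, hf, hg, map_add]
  | single s r =>
    have h1 : (Finsupp.single s r : X.S k →₀ Lam n) = r • Finsupp.single s 1 := by
      rw [Finsupp.smul_single, smul_eq_mul, mul_one]
    rw [pair_single, h1, map_smul, Pi.smul_apply, smul_eq_mul]
    rfl

theorem pair_pb (k : ℕ) (a : M.I → Lam n) (x : X.S k →₀ Lam n) :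
    pair (M.pb k a) x = a ⬝ᵥ M.h k x := by
  have h1 : M.pb k a = ∑ i, a i • M.hc k i := by
    funext s
    simp [pb]
  rw [h1, pair_sum_left]
  simp only [pair_smul_left, dotProduct, h_eq]

theorem hd_zero {i j : M.I} (h : M.deg j ≠ M.deg i + 1) : M.d i j = 0 := by
  by_contra hne
  exact h (M.hd i j hne)

theorem hc_zero {k : ℕ} {i : M.I} (h : M.deg i ≠ k) (s : X.S k) : M.hc k i s = 0 := by
  by_contra hne
  exact h (M.h_supp k _ i hne)

/-- coboundary of the coordinate cochains -/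
theorem del_hc (k : ℕ) (i : M.I) :
    del κ tau (M.hc k i) = fun s => ∑ j, M.d i j * M.hc (k + 1) j s := by
  funext s
  have h1 : pair (del κ tau (M.hc k i)) (Finsupp.single s 1) = del κ tau (M.hc k i) s := by
    rw [pair_single, one_mul]
  rw [← h1, ← pair_bd, ← h_eq, M.h_bd]
  rfl

theorem del_pb (k : ℕ) (a : M.I → Lam n) :
    del κ tau (M.pb k a) = M.pb (k + 1) (M.dᵀ *ᵥ a) := by
  funext s
  have h1 : pair (del κ tau (M.pb k a)) (Finsupp.single s 1) = del κ tau (M.pb k a) s := by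
    rw [pair_single, one_mul]
  have h2 : pair (M.pb (k + 1) (M.dᵀ *ᵥ a)) (Finsupp.single s 1) = M.pb (k + 1) (M.dᵀ *ᵥ a) s := by
    rw [pair_single, one_mul]
  rw [← h1, ← h2, ← pair_bd, pair_pb, pair_pb, M.h_bd, Matrix.dotProduct_mulVec,
    Matrix.mulVec_transpose]

/-- `h` kills boundaries in degree `-1` -/
theorem d_h_zero (x : X.S 0 →₀ Lam n) : M.d *ᵥ M.h 0 x = 0 := by
  funext i
  rw [Matrix.mulVec, dotProduct, Pi.zero_apply]
  refine Finset.sum_eq_zero fun j _ => ?_
  by_cases h : M.h 0 x j = 0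
  · rw [h, mul_zero]
  · have h1 := M.h_supp 0 x j h
    rw [M.hd_zero (by omega), zero_mul]

end FinModel

/-- the duality matrix of the finite model -/
noncomputable def SM (z : X.S 4 →₀ ℤ) : Matrix M.I M.I (Lam n) := fun l k =>
  - pair (M.hc 4 l) (cap κ tau z (rfl : 0 + 4 = 4) (M.hc 0 k))
  + pair (M.hc 3 l) (cap κ tau z (rfl : 1 + 3 = 4) (M.hc 1 k))
  + pair (M.hc 2 l) (cap κ tau z (rfl : 2 + 2 = 4) (M.hc 2 k))
  - pair (M.hc 1 l) (cap κ tau z (rfl : 3 + 1 = 4) (M.hc 3 k))
  - pair (M.hc 0 l) (cap κ tau z (rfl : 4 + 0 = 4) (M.hc 4 k))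

theorem cap_sum (z : X.S 4 →₀ ℤ) {p q : ℕ} (h : p + q = 4) {ι : Type*} (T : Finset ι)
    (c : ι → X.S p → Lam n) :
    cap κ tau z h (∑ i ∈ T, c i) = ∑ i ∈ T, cap κ tau z h (c i) := by
  classical
  induction T using Finset.induction_on with
  | empty =>
    rw [Finset.sum_empty, Finset.sum_empty]
    have h1 := cap_smul κ tau z h (0 : Lam n) (0 : X.S p → Lam n)
    rwa [star_zero, zero_smul, zero_smul] at h1
  | insert a T ha ih => rw [Finset.sum_insert ha, Finset.sum_insert ha, cap_add, ih]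

/-- the cap product with a pulled back cochain -/
theorem cap_pb (z : X.S 4 →₀ ℤ) {p q : ℕ} (h : p + q = 4) (a : M.I → Lam n) :
    cap κ tau z h (M.pb p a) = ∑ i, star (a i) • cap κ tau z h (M.hc p i) := by
  have h1 : M.pb p a = ∑ i, a i • M.hc p i := by
    funext s
    simp [FinModel.pb]
  rw [h1, cap_sum]
  simp only [cap_smul]

/-- the duality matrix applied to a vector (`c` is the conjugate of the cochain `star c`) -/
theorem SM_mulVec (z : X.S 4 →₀ ℤ) (c : M.I → Lam n) :
    SM M z *ᵥ c =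
      - M.h 4 (cap κ tau z (rfl : 0 + 4 = 4) (M.pb 0 (star c)))
      + M.h 3 (cap κ tau z (rfl : 1 + 3 = 4) (M.pb 1 (star c)))
      + M.h 2 (cap κ tau z (rfl : 2 + 2 = 4) (M.pb 2 (star c)))
      - M.h 1 (cap κ tau z (rfl : 3 + 1 = 4) (M.pb 3 (star c)))
      - M.h 0 (cap κ tau z (rfl : 4 + 0 = 4) (M.pb 4 (star c))) := by
  have key : ∀ (p q : ℕ) (h : p + q = 4) (l : M.I),
      M.h q (cap κ tau z h (M.pb p (star c))) l
        = ∑ k, pair (M.hc q l) (cap κ tau z h (M.hc p k)) * c k := by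
    intro p q h l
    rw [M.h_eq, cap_pb, map_sum]
    refine Finset.sum_congr rfl fun k _ => ?_
    rw [map_smul, Pi.star_apply, star_star, smul_eq_mul, mul_comm]
  funext l
  simp only [Pi.add_apply, Pi.sub_apply, Pi.neg_apply, key, Matrix.mulVec, dotProduct, SM]
  simp only [← Finset.sum_neg_distrib, ← Finset.sum_add_distrib, ← Finset.sum_sub_distrib]
  exact Finset.sum_congr rfl fun k _ => by ring

end Pool.Agent.PD4.Top
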