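import Pool.Agent.PD4.Top.TrForm
import Pool.Agent.PD4.Top.Tr0

/-!
# Transfer to the finite model: the intersection form of the model is the cup product form
-/

namespace Pool.Agent.PD4.Top

open Matrix Finset

namespace FinModel

variable {X : DeltaCx} {n : ℕ} {κ : Kap X (Fin n → ℤ)} (F : FinModel κ)

/-- the duality matrix in degree `2` -/
theorem SM_two (z : X.S 4 →₀ ℤ) {a b : F.I} (ha : F.deg a = 2) :
    SM F z a b = F.h 2 (cap κ tau z (rfl : 2 + 2 = 4) (F.hc 2 b)) a := by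
  have h0 : ∀ q, q ≠ 2 → ∀ x : X.S q →₀ Lam n, pair (F.hc q a) x = 0 := by
    intro q hq x
    rw [← F.h_eq]
    by_contra h
    have := F.h_supp q x a h
    omega
  rw [SM, h0 4 (by decide), h0 3 (by decide), h0 1 (by decide), h0 0 (by decide), F.h_eq]
  ring

/-- the form of the model at `1` is the cup product form -/
theorem form_cup22 (z : X.S 4 →₀ ℤ) (y y' : F.I → ℤ) (hy : ∀ i, y i ≠ 0 → F.deg i = 2)
    (hy' : ∀ i, y' i ≠ 0 → F.deg i = 2) :
    y' ⬝ᵥ ((SM F z).map laug *ᵥ y) = cup22 z (F.pbZ y) (F.pbZ y') := by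
  have h1 : ∀ a b, y' a * (laug (SM F z a b) * y b)
      = y b * (y' a * laug (F.h 2 (cap κ tau z (rfl : 2 + 2 = 4) (F.hc 2 b)) a)) := by
    intro a b
    by_cases ha : y' a = 0
    · rw [ha]
      ring
    by_cases hb : y b = 0
    · rw [hb]
      ring
    rw [F.SM_two z (hy' a ha)]
    ring
  have h2 : y' ⬝ᵥ ((SM F z).map laug *ᵥ y)
      = ∑ b, y b * F.evZ y' (cap κ tau z (rfl : 2 + 2 = 4) (F.hc 2 b)) := by
    simp only [evZ, dotProduct, Matrix.mulVec, Matrix.map_apply, Finset.mul_sum]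
    rw [Finset.sum_comm]
    exact Finset.sum_congr rfl fun b _ => Finset.sum_congr rfl fun a _ => h1 a b
  have h3 : ∀ b, F.evZ y' (cap κ tau z (rfl : 2 + 2 = 4) (F.hc 2 b))
      = ∑ s ∈ z.support, z s * (laug (F.h 2 (Finsupp.single
        (X.map (front (rfl : 2 + 2 = 4)) s) 1) b) *
          F.pbZ y' (X.map (back (rfl : 2 + 2 = 4)) s)) := by
    intro b
    have h4 := map_sum (AddMonoidHom.mk' (fun x : X.S 2 →₀ Lam n => F.evZ y' x) (F.evZ_add y'))
      (fun s => Finsupp.single (X.map (back (rfl : 2 + 2 = 4)) s)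
        (((z s : ℤ) : Lam n) * (star (F.hc 2 b (X.map (front (rfl : 2 + 2 = 4)) s))
          * cv tau (κ.kk s 0 (back (rfl : 2 + 2 = 4) 0))))) z.support
    refine Eq.trans h4 (Finset.sum_congr rfl fun s _ => ?_)
    change F.evZ y' (Finsupp.single _ _) = _
    rw [F.evZ_single, map_mul, map_mul, laug_star, cv_tau, laug_single, mul_one,
      map_intCast, Int.cast_id, mul_assoc]
    rfl
  rw [h2]
  have h5 : ∀ b, y b * F.evZ y' (cap κ tau z (rfl : 2 + 2 = 4) (F.hc 2 b))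
      = ∑ s ∈ z.support, z s * ((y b * laug (F.h 2 (Finsupp.single
        (X.map (front (rfl : 2 + 2 = 4)) s) 1) b)) *
          F.pbZ y' (X.map (back (rfl : 2 + 2 = 4)) s)) := by
    intro b
    rw [h3 b, Finset.mul_sum]
    exact Finset.sum_congr rfl fun s _ => by ring
  rw [Finset.sum_congr rfl fun b _ => h5 b, Finset.sum_comm]
  refine Finset.sum_congr rfl fun s _ => ?_
  rw [← Finset.mul_sum, ← Finset.sum_mul]
  rfl

section classes

variable (D : Alg.PDData ℤ n F.I) (hdeg : ∀ i, D.deg i = F.deg i) (hd : D.D.d = F.d)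
  (v0 : X.S 0) (hg : ∀ a, D.g a (Sum.inl ()) = F.h 0 (Finsupp.single v0 1) a)
  (hL : LowExact κ)

include hd hg hL

/-- the pull-back of the augmentation cocycle -/
theorem pbZ_eta (v : X.S 0) : F.pbZ D.η v = 1 := by
  have h1 : F.pbZ D.η v0 = 1 := by
    have h2 := D.hη1
    rw [F.pbZ_def]
    simp only [hg] at h2
    exact h2
  have h3 : aug (Finsupp.single v 1 - Finsupp.single v0 1 : X.S 0 →₀ Lam n) = 0 := by
    have h4 : ∀ w : X.S 0 →₀ Lam n, aug w = cval (fun _ => (1 : ℤ)) w := by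
      intro w
      unfold aug cval
      refine Finset.sum_congr rfl fun s _ => ?_
      change epsL (w s) = laug (w s) * 1
      rw [mul_one]
      rfl
    rw [h4, sub_eq_add_neg, ← Finsupp.single_neg, cval_add, cval_single, cval_single, map_one,
      map_neg, map_one]
    norm_num
  obtain ⟨y, hy⟩ := hL.ex0 _ h3
  have h5 : F.evZ D.η (Finsupp.single v 1 - Finsupp.single v0 1) = 0 := by
    rw [← hy, F.evZ_bd]
    have h6 := D.hη
    rw [hd] at h6
    have h7 : (F.d.map laug)ᵀ *ᵥ D.η = 0 := h6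
    rw [h7, evZ, zero_dotProduct]
  rw [sub_eq_add_neg, ← Finsupp.single_neg, F.evZ_add, F.evZ_single, F.evZ_single, map_one,
    map_neg, map_one, h1] at h5
  linarith

/-- the pull-back of `y_v` is cohomologous to `κ_v` -/
theorem pbZ_y (v : Fin n) (s : X.S 1) :
    F.pbZ (D.y v) s = kcoc κ v s + dZ X 0 (F.pbD v D.η) s := by
  have h1 := F.dZ_pbD v D.η s
  have h2 : (F.d.map laug)ᵀ *ᵥ D.η = 0 := by
    have h6 := D.hη
    rw [hd] at h6
    exact h6
  have h3 : D.y v = (F.d.map (lder v))ᵀ *ᵥ D.η := by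
    rw [← hd]
    rfl
  have h4 : F.pbD v (0 : F.I → ℤ) s = 0 := zero_dotProduct _
  have h5 : κ.kk s 0 1 v = kcoc κ v s := by
    have h6 := kcoc_map κ v s (RelEmbedding.refl _ : Emb 1 1)
    rw [X.map_id] at h6
    exact h6.symm
  rw [h2, h4, add_zero, F.pbZ_eta D hd v0 hg hL, mul_one, ← h3, h5] at h1
  exact h1.symm

/-- the pull-back of `c_uv` is cohomologous to `κ_u ∪ κ_v` -/
theorem pbZ_c (u v : Fin n) : ∃ θ : X.S 1 → ℤ, F.pbZ (D.c u v) = kcup κ u v + dZ X 1 θ := by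
  refine ⟨F.pbD u (D.y v) - cupZ (rfl : 1 + 0 = 1) (kcoc κ u) (F.pbD v D.η), ?_⟩
  funext s
  have h1 := F.dZ_pbD u (D.y v) s
  have h2 : (F.d.map laug)ᵀ *ᵥ D.y v = 0 := by
    have h6 := D.y_cocycle v
    rw [hd] at h6
    exact h6
  have h3 : D.c u v = (F.d.map (lder u))ᵀ *ᵥ D.y v := by
    rw [← hd]
    rfl
  have h4 : F.pbD u (0 : F.I → ℤ) s = 0 := zero_dotProduct _
  have h5 : dZ X 1 (cupZ (rfl : 1 + 0 = 1) (kcoc κ u) (F.pbD v D.η)) s
      = - (κ.kk s 0 1 u * dZ X 0 (F.pbD v D.η) (X.map (fc 0) s)) := by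
    have h8 : (back (show 1 + (0 + 1) = 1 + 1 by omega) : Emb 1 2) = fc 0 := by
      ext x
      fin_cases x <;> rfl
    rw [dZ_cupZ (rfl : 1 + 0 = 1), dZ_kcoc]
    simp only [cupZ, kcoc_map, Pi.zero_apply, zero_mul, zero_add, pow_one, neg_mul, one_mul]
    rw [h8]
    rfl
  have h7 : kcup κ u v s = κ.kk s 0 1 u * kcoc κ v (X.map (fc 0) s) := by
    rw [kcup_apply, kcoc_map]
    rfl
  rw [h2, h4, add_zero, ← h3, F.pbZ_y D hd v0 hg hL] at h1
  rw [Pi.add_apply, map_sub, Pi.sub_apply, h5, h7]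
  linear_combination -h1

include hdeg

/-- **the intersection form of the model is the cup product form of `X`** -/
theorem form_eq (z : X.S 4 →₀ ℤ) (hz : bdZ 3 z = 0) (hS : D.D.S = SM F z) (i j k l : Fin n) :
    D.form i j k l = cup4 κ z i j k l := by
  have hc : ∀ u v a, D.c u v a ≠ 0 → F.deg a = 2 := by
    intro u v a h
    have h1 := D.c_deg u v a h
    rw [hdeg] at h1
    exact_mod_cast h1
  have h1 : D.form i j k l = cup22 z (F.pbZ (D.c k l)) (F.pbZ (D.c i j)) := by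
    rw [← F.form_cup22 z (D.c k l) (D.c i j) (hc k l) (hc i j), ← hS]
    rfl
  obtain ⟨θ, hθ⟩ := F.pbZ_c D hd v0 hg hL k l
  obtain ⟨θ', hθ'⟩ := F.pbZ_c D hd v0 hg hL i j
  rw [h1, hθ, hθ', cup22_class z hz _ _ θ θ' (dZ_kcup κ k l) (dZ_kcup κ i j), cup22_kcup,
    cup4_symm κ z hz]

end classes

end FinModel

end Pool.Agent.PD4.Top
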