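import Pool.Agent.PD4.Top.TrD

/-!
# The duality part of the algebraic input (owner: helper5)

The statement of `dual_SM` is literally `DualPart M (SM M z)` (file `TrAsm`).
-/

namespace Pool.Agent.PD4.Top

open Matrix Pool.Agent.PD4.Alg

variable {X : DeltaCx} {n : ℕ} {κ : Kap X (Fin n → ℤ)} (M : FinModel κ)

theorem dual_SM (z : X.S 4 →₀ ℤ) (hz : PDual κ z) :
    ∃ (D : Dual (Lam n) M.I) (U : Matrix M.I M.I (Lam n)), D.d = M.d ∧ D.S = SM M z ∧
      D.Graded M.dg ∧ Hg M.dg (fun i => 5 - M.dg i) 0 U ∧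
      D.S - D.Sᴴ = D.d * U + U * D.dᴴ := by
  obtain ⟨D, h1, h2, h3⟩ := exists_dual M.dg M.d (SM M z) (hg_d M) (hg_SM M z) M.dd
    (SM_comm M z hz.cyc) (fun y hy => SM_surj M z hz y hy)
    (fun c x hc h => SM_inj M z hz c x hc h)
  obtain ⟨U, hU1, hU2⟩ := SM_symm M z hz.cyc
  refine ⟨D, U, h1, h2, h3, hU1, ?_⟩
  rw [h1, h2]
  exact hU2

end Pool.Agent.PD4.Top
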