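import Pool.Agent.PD4.Top.TrSpan
import Pool.Agent.PD4.Alg.RankDep
import Pool.Agent.PD4.Alg.AtOne

/-!
# The classes `c_uv` span `H²` rationally (owner: helper87)

From `RankLe X m`, `m = n(n-1)/2`, and the nondegeneracy of the form on the `c_uv`, `u < v`.
-/

namespace Pool.Agent.PD4.Top

open Matrix Pool.Agent.PD4.Alg LauR

variable {X : DeltaCx} {n : ℕ} {κ : Kap X (Fin n → ℤ)}

/-- hypothesis `hsp` of `pd_false` -/
theorem FinModel.spans_int (F : FinModel κ) {m : ℕ}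
    (hm : m = Fintype.card {p : Fin n × Fin n // p.1 < p.2}) (hr : RankLe X m)
    (D : PDData ℤ n F.I) (hdeg : ∀ i, D.deg i = F.deg i) (hd : D.D.d = F.d)
    (hG : (Matrix.of fun k l : {p : Fin n × Fin n // p.1 < p.2} =>
      D.form k.1.1 k.1.2 l.1.1 l.1.2).det ≠ 0)
    (z : F.I → ℤ) (hz2 : ∀ i, z i ≠ 0 → D.deg i = 2) (hz : (D.D.d.map eps)ᵀ *ᵥ z = 0) :
    ∃ (N : ℤ) (α : Fin n → Fin n → ℤ) (x : F.I → ℤ), N ≠ 0 ∧
      N • z = ∑ u, ∑ v, α u v • D.c u v + (D.D.d.map eps)ᵀ *ᵥ x := by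
  obtain ⟨q, hq⟩ := hr
  let Z := Flat.Zk (D.D.d.map eps)ᵀ (fun i => D.deg i = 2)
  let ψ : Z →ₗ[ℤ] LinearMap.ker (dZ X 2) :=
    { toFun := fun w => ⟨F.hp (w : F.I → ℤ), by
        rw [LinearMap.mem_ker, FinModel.dZ_hp, ← hd, w.2.2, FinModel.hp_zero]⟩
      map_add' := fun a b => Subtype.ext (F.hp_add _ _)
      map_smul' := fun r a => Subtype.ext (F.hp_smul _ _) }
  have hcc : ∀ u v, (D.D.d.map eps)ᵀ *ᵥ D.c u v = 0 := fun u v => D.c_cocycle u v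
  obtain ⟨N, β, x, hN, hx⟩ := Flat.dep_span (K := Flat.Pr n) hm ((D.D.d.map eps)ᵀ)
    (D.D.S.map eps) (fun i => D.deg i = 2) (fun k => D.c k.1.1 k.1.2)
    (fun k i hi => D.c_deg _ _ i hi) (fun k => hcc _ _)
    (fun k x => Flat.c_orth D hcc _ _ x) hG (q ∘ₗ ψ) (by
      intro w hw
      obtain ⟨r, hr, b, hb⟩ := hq (ψ w) hw
      have hb' : r • F.hp (w : F.I → ℤ) (p := 2) = dZ X 1 b := hb.symm
      have hw2 : ∀ i, (w : F.I → ℤ) i ≠ 0 → F.deg i = 2 := by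
        intro i hi
        have h : D.deg i = 2 := w.2.1 i hi
        rw [hdeg] at h
        exact_mod_cast h
      have hwd : (F.d.map eps)ᵀ *ᵥ (w : F.I → ℤ) = 0 := by
        rw [← hd]
        exact w.2.2
      have h1 := congrArg F.gp hb'
      rw [FinModel.gp_smul, FinModel.gp_dZ, F.gp_hp _ hw2 hwd] at h1
      have h2 : r • (w : F.I → ℤ) = (F.d.map eps)ᵀ *ᵥ
          (F.gp b - r • ((F.Q.map eps)ᵀ *ᵥ (w : F.I → ℤ))) := by
        rw [Matrix.mulVec_sub, ← h1, Matrix.mulVec_smul, smul_add]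
        abel
      refine ⟨r, F.gp b - r • ((F.Q.map eps)ᵀ *ᵥ (w : F.I → ℤ)), hr, h2.trans ?_⟩
      exact congrArg (fun A : Matrix F.I F.I (Lam n) => (A.map eps)ᵀ *ᵥ
        (F.gp b - r • ((F.Q.map eps)ᵀ *ᵥ (w : F.I → ℤ)))) hd.symm) z hz2 hz
  refine ⟨N, fun u v => if h : u < v then β ⟨(u, v), h⟩ else 0, x, hN, ?_⟩
  rw [hx, Flat.sum_pr β D.c]

end Pool.Agent.PD4.Top
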