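import Pool.Agent.PD4.Top.TrAsm
import Pool.Agent.PD4.Top.TrDual
import Pool.Agent.PD4.Top.TrCup
import Pool.Agent.PD4.Top.TrSp
import Pool.Agent.PD4.Alg.GramDet
import Pool.Agent.PD4.Alg.Main

/-!
# From a Poincare complex to the interface data
-/

namespace Pool.Agent.PD4.Top

open Matrix Pool.Agent.PD4.Alg LauR

variable {X : DeltaCx} {κ : Kap X (Fin 8 → ℤ)} (M : FinModel κ)

theorem iface_of_model (z : X.S 4 →₀ ℤ) (hL : LowExact κ) (hz : PDual κ z)
    (hform : ∀ i j k l, cup4 κ z i j k l = omC i j k l) (hr : RankLe X 28) :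
    Nonempty (IfaceData (PDData.J 8 M.I ⊕ Fin 1)) := by
  obtain ⟨v0⟩ := hL.ne
  obtain ⟨E, hd, hS, hdeg, hg, -⟩ := exists_pdData M hL v0 (SM M z) (dual_SM M z hz)
  have hdeg' : ∀ i, E.deg i = M.deg i := fun i => by rw [hdeg]; rfl
  have hf : ∀ i j k l, E.form i j k l = omC i j k l := fun i j k l => by
    rw [M.form_eq E hdeg' hd v0 hg hL z hz.cyc hS, hform]
  refine exists_iface_int E hf (M.spans_int card_pairs.symm hr E hdeg' hd ?_)
  simp only [hf]
  exact omC_gram_det
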