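import Pool.Agent.PD4.Top.Low
import Pool.Agent.PD4.Alg.LauR

/-!
# Poincare duality and finite models

`FinModel κ`: the complex of `ℤ[ℤⁿ]`-chains of `X` is chain homotopy equivalent to a bounded
complex of finitely generated free `ℤ[ℤⁿ]`-modules (given by a finite set `I` of basis elements
with degrees and a matrix `d`).

`PDual κ z`: `z` is an integral 4-cycle and the cap product with `z` is an isomorphism
`H^p(X; ℤ[ℤⁿ]) → H_{4-p}(X; ℤ[ℤⁿ])` for all `p` (both sides are `0` for `p > 4` and `p < 0`).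
-/

namespace Pool.Agent.PD4.Top

open Matrix

section defs

variable {X : DeltaCx} {A : Type} [AddCommGroup A] (κ : Kap X A) {L : Type} [CommRing L]
  (χ : Chr A L)

/-- `c` is a coboundary -/
def IsCobd : (p : ℕ) → (X.S p → L) → Prop
  | 0, c => c = 0
  | _ + 1, c => ∃ b, del κ χ b = c

/-- `x` is a cycle -/
def IsCyc : (q : ℕ) → (X.S q →₀ L) → Prop
  | 0, _ => True
  | q + 1, x => bd κ χ q x = 0

end defs

/-- Poincare duality of dimension 4 with coefficients in `ℤ[ℤⁿ]` -/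
structure PDual {X : DeltaCx} {n : ℕ} (κ : Kap X (Fin n → ℤ)) (z : X.S 4 →₀ ℤ) : Prop where
  cyc : bdZ 3 z = 0
  inj : ∀ (p q : ℕ) (h : p + q = 4) (c : X.S p → Lam n), del κ tau c = 0 →
    (∃ x, bd κ tau q x = cap κ tau z h c) → IsCobd κ tau p c
  surj : ∀ (p q : ℕ) (h : p + q = 4) (y : X.S q →₀ Lam n), IsCyc κ tau q y →
    ∃ (c : X.S p → Lam n) (x : X.S (q + 1) →₀ Lam n), del κ tau c = 0 ∧
      y = cap κ tau z h c + bd κ tau q x
  coh_hi : ∀ p, 4 < p → ∀ c : X.S p → Lam n, del κ tau c = 0 → IsCobd κ tau p c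
  hom_hi : ∀ q, 4 < q → ∀ y : X.S q →₀ Lam n, IsCyc κ tau q y → ∃ x, bd κ tau q x = y

/-- a chain homotopy equivalence of the `ℤ[ℤⁿ]`-chains of `X` with a bounded complex of finitely
generated free modules: basis `I`, degrees `deg`, differential `e_j ↦ ∑ d i j • e_i`;
chain maps `h : C → D`, `g : D → C`, homotopies `P : g h ≃ 1`, `Q : h g ≃ 1` -/
structure FinModel {X : DeltaCx} {n : ℕ} (κ : Kap X (Fin n → ℤ)) where
  I : Type
  fI : Fintype I
  dI : DecidableEq I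
  deg : I → ℕ
  d : Matrix I I (Lam n)
  hd : ∀ i j, d i j ≠ 0 → deg j = deg i + 1
  dd : d * d = 0
  h : ∀ k, (X.S k →₀ Lam n) →ₗ[Lam n] (I → Lam n)
  h_supp : ∀ k x i, h k x i ≠ 0 → deg i = k
  h_bd : ∀ k x, h k (bd κ tau k x) = d *ᵥ h (k + 1) x
  g : ∀ k, (I → Lam n) →ₗ[Lam n] (X.S k →₀ Lam n)
  g_supp : ∀ k y, (∀ i, deg i = k → y i = 0) → g k y = 0
  g_bd : ∀ k y, bd κ tau k (g (k + 1) y) = g k (d *ᵥ y)
  P : ∀ k, (X.S k →₀ Lam n) →ₗ[Lam n] (X.S (k + 1) →₀ Lam n)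
  P_zero : ∀ x, g 0 (h 0 x) - x = bd κ tau 0 (P 0 x)
  P_succ : ∀ k x, g (k + 1) (h (k + 1) x) - x
    = bd κ tau (k + 1) (P (k + 1) x) + P k (bd κ tau k x)
  Q : Matrix I I (Lam n)
  hQ : ∀ i j, Q i j ≠ 0 → deg i = deg j + 1
  Q_eq : ∀ k y, (∀ i, y i ≠ 0 → deg i = k) →
    h k (g k y) - y = d *ᵥ (Q *ᵥ y) + Q *ᵥ (d *ᵥ y)

attribute [instance] FinModel.fI FinModel.dI

/-- the value of the cup product `κ_i ∪ κ_j ∪ κ_k ∪ κ_l` on the chain `z` -/
noncomputable def cup4 {X : DeltaCx} {n : ℕ} (κ : Kap X (Fin n → ℤ)) (z : X.S 4 →₀ ℤ)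
    (i j k l : Fin n) : ℤ :=
  z.sum fun s m => m * (κ.kk s 0 1 i * κ.kk s 1 2 j * κ.kk s 2 3 k * κ.kk s 3 4 l)

/-- the cup product of two 2-cochains evaluated on `z` -/
noncomputable def cup22 {X : DeltaCx} (z : X.S 4 →₀ ℤ) (a b : X.S 2 → ℤ) : ℤ :=
  z.sum fun s m => m * (a (X.map (front (rfl : 2 + 2 = 4)) s)
    * b (X.map (back (rfl : 2 + 2 = 4)) s))

/-- the untwisted coboundary of integral cochains -/
def dZ (X : DeltaCx) (p : ℕ) : (X.S p → ℤ) →ₗ[ℤ] (X.S (p + 1) → ℤ) where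
  toFun a s := ∑ i : Fin (p + 2), (-1) ^ (i : ℕ) * a (X.map (fc i) s)
  map_add' a b := by
    funext s
    simp only [Pi.add_apply, mul_add, Finset.sum_add_distrib]
  map_smul' r a := by
    funext s
    simp only [Pi.smul_apply, smul_eq_mul, RingHom.id_apply, Finset.mul_sum]
    exact Finset.sum_congr rfl fun i _ => by ring

/-- `H²(X; ℤ)` modulo torsion embeds into `ℤ^m` -/
def RankLe (X : DeltaCx) (m : ℕ) : Prop :=
  ∃ q : LinearMap.ker (dZ X 2) →ₗ[ℤ] (Fin m → ℤ), ∀ a, q a = 0 →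
    ∃ r : ℤ, r ≠ 0 ∧ r • (a : X.S 2 → ℤ) ∈ LinearMap.range (dZ X 1)

end Pool.Agent.PD4.Top
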