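import Pool.Agent.PD4.Top.Delta

/-!
# Project PD4: triangles and path homotopies

`fill`: a homotopy `p q ≃ r` relative to the end points gives a singular `2`-simplex with the
faces `d₀ = q`, `d₁ = r`, `d₂ = p`.  `unfill`: the converse.
-/

namespace Pool.Agent.PD4.Top.Fill

open Finset

/-- the standard simplex of dimension `n` -/
abbrev Smp (n : ℕ) := stdSimplex ℝ (Fin (n + 1))

/-- the affine map of standard simplices induced by a map of the vertices -/
noncomputable def smap {m n : ℕ} (f : Fin (m + 1) → Fin (n + 1)) : C(Smp m, Smp n) :=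
  ⟨stdSimplex.map f, stdSimplex.continuous_map f⟩

theorem smap_apply {m n : ℕ} (f : Fin (m + 1) → Fin (n + 1)) (x : Smp m) :
    smap f x = stdSimplex.map f x := rfl

/-- the singular `0`-simplex at the point `y` -/
def pt {E : Type} [TopologicalSpace E] (y : E) : C(Smp 0, E) := ContinuousMap.const _ y

/-- the vertex `i` of a singular simplex -/
noncomputable def vtx {E : Type} [TopologicalSpace E] {n : ℕ} (s : C(Smp n, E))
    (i : Fin (n + 1)) : E := s (stdSimplex.vertex i)

theorem smp0 (x : Smp 0) : x = stdSimplex.vertex 0 := by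
  ext i
  fin_cases i
  have := stdSimplex.sum_eq_one x
  simp only [Nat.reduceAdd, univ_unique, Fin.default_eq_zero, Fin.isValue, sum_singleton] at this
  simpa using this

theorem comp_smap_zero {E : Type} [TopologicalSpace E] {n : ℕ} (f : Emb 0 n)
    (s : C(Smp n, E)) : s.comp (smap f) = pt (vtx s (f 0)) := by
  ext x
  rw [ContinuousMap.comp_apply, smp0 x, smap_apply, stdSimplex.map_vertex]
  rfl

/-! ### the collapse of the square to the triangle -/

section square

open unitInterval

/-- coordinate `0` of the collapse -/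
noncomputable def sq0 (s t : ℝ) : ℝ := s * (1 - t) + (1 - s) * max 0 (1 - 2 * t)

/-- coordinate `1` of the collapse -/
noncomputable def sq1 (s t : ℝ) : ℝ := (1 - s) * min (2 * t) (2 - 2 * t)

/-- coordinate `2` of the collapse -/
noncomputable def sq2 (s t : ℝ) : ℝ := s * t + (1 - s) * max 0 (2 * t - 1)

theorem sq_low {s t : ℝ} (h : 2 * t ≤ 1) :
    sq0 s t = s * (1 - t) + (1 - s) * (1 - 2 * t) ∧ sq1 s t = (1 - s) * (2 * t) ∧
      sq2 s t = s * t := by
  refine ⟨?_, ?_, ?_⟩
  · rw [sq0, max_eq_right (by linarith)]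
  · rw [sq1, min_eq_left (by linarith)]
  · rw [sq2, max_eq_left (by linarith)]
    ring

theorem sq_high {s t : ℝ} (h : 1 ≤ 2 * t) :
    sq0 s t = s * (1 - t) ∧ sq1 s t = (1 - s) * (2 - 2 * t) ∧
      sq2 s t = s * t + (1 - s) * (2 * t - 1) := by
  refine ⟨?_, ?_, ?_⟩
  · rw [sq0, max_eq_left (by linarith)]
    ring
  · rw [sq1, min_eq_right (by linarith)]
  · rw [sq2, max_eq_right (by linarith)]

theorem sq_mem (p : I × I) :
    ![sq0 p.1 p.2, sq1 p.1 p.2, sq2 p.1 p.2] ∈ stdSimplex ℝ (Fin 3) := by
  obtain ⟨⟨s, hs0, hs1⟩, ⟨t, ht0, ht1⟩⟩ := p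
  have h1 : 0 ≤ 1 - s := by linarith
  have h2 : 0 ≤ 1 - t := by linarith
  have e0 : 0 ≤ sq0 s t := add_nonneg (mul_nonneg hs0 h2) (mul_nonneg h1 (le_max_left _ _))
  have e1 : 0 ≤ sq1 s t := mul_nonneg h1 (le_min (by linarith) (by linarith))
  have e2 : 0 ≤ sq2 s t := add_nonneg (mul_nonneg hs0 ht0) (mul_nonneg h1 (le_max_left _ _))
  refine ⟨fun i => ?_, ?_⟩
  · fin_cases i
    · exact e0
    · exact e1
    · exact e2
  · rw [Fin.sum_univ_three]
    change sq0 s t + sq1 s t + sq2 s t = 1
    rcases le_total (2 * t) 1 with h | h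
    · obtain ⟨a0, a1, a2⟩ := sq_low (s := s) h
      rw [a0, a1, a2]
      ring
    · obtain ⟨a0, a1, a2⟩ := sq_high (s := s) h
      rw [a0, a1, a2]
      ring

/-- the collapse of the square to the triangle: the sides `t = 0`, `t = 1` go to the vertices
`0`, `2`, the side `s = 0` to the path `0 1 2`, the side `s = 1` to the edge `0 2` -/
noncomputable def sq : C(I × I, Smp 2) where
  toFun p := ⟨![sq0 p.1 p.2, sq1 p.1 p.2, sq2 p.1 p.2], sq_mem p⟩
  continuous_toFun := by
    refine Continuous.subtype_mk (continuous_pi fun i => ?_) _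
    fin_cases i
    · change Continuous fun p : I × I => sq0 p.1 p.2
      unfold sq0
      fun_prop
    · change Continuous fun p : I × I => sq1 p.1 p.2
      unfold sq1
      fun_prop
    · change Continuous fun p : I × I => sq2 p.1 p.2
      unfold sq2
      fun_prop

theorem sq_zero (p : I × I) : (sq p) 0 = sq0 p.1 p.2 := rfl

theorem sq_one (p : I × I) : (sq p) 1 = sq1 p.1 p.2 := rfl

theorem sq_two (p : I × I) : (sq p) 2 = sq2 p.1 p.2 := rfl

theorem smp2_ext {x y : Smp 2} (h1 : x 1 = y 1) (h2 : x 2 = y 2) : x = y := by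
  have hx := stdSimplex.sum_eq_one x
  have hy := stdSimplex.sum_eq_one y
  rw [Fin.sum_univ_three] at hx hy
  ext i
  fin_cases i
  · change x 0 = y 0
    linarith
  · exact h1
  · exact h2

theorem sq_surj : Function.Surjective sq := by
  intro x
  have hs := stdSimplex.sum_eq_one x
  rw [Fin.sum_univ_three] at hs
  have h0 := stdSimplex.zero_le x 0
  have h1 := stdSimplex.zero_le x 1
  have h2 := stdSimplex.zero_le x 2
  obtain ⟨t, ht⟩ : ∃ t, t = x 1 / 2 + x 2 := ⟨_, rfl⟩
  have ht0 : 0 ≤ t := by linarith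
  have ht1 : t ≤ 1 := by linarith
  rcases le_total (2 * t) 1 with h | h
  · rcases ht0.eq_or_lt with h3 | h3
    · have h4 : x 1 = 0 := by linarith
      have h5 : x 2 = 0 := by linarith
      obtain ⟨a0, a1, a2⟩ := sq_low (s := 0) h
      rw [← h3] at a1 a2
      refine ⟨(0, 0), smp2_ext ?_ ?_⟩
      · rw [sq_one, h4]
        simpa using a1
      · rw [sq_two, h5]
        simpa using a2
    · have hs1 : x 2 / t ≤ 1 := by
        rw [div_le_one h3]
        linarith
      obtain ⟨a0, a1, a2⟩ := sq_low (s := x 2 / t) h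
      have h6 : x 2 / t * t = x 2 := div_mul_cancel₀ _ h3.ne'
      refine ⟨(⟨x 2 / t, div_nonneg h2 ht0, hs1⟩, ⟨t, ht0, ht1⟩), smp2_ext ?_ ?_⟩
      · rw [sq_one]
        simp only
        rw [a1]
        linear_combination (-2) * h6 + 2 * ht
      · rw [sq_two]
        simp only
        rw [a2, h6]
  · rcases ht1.eq_or_lt with h3 | h3
    · have h4 : x 1 = 0 := by linarith
      have h5 : x 2 = 1 := by linarith
      obtain ⟨a0, a1, a2⟩ := sq_high (s := 0) h
      rw [h3] at a1 a2
      refine ⟨(0, 1), smp2_ext ?_ ?_⟩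
      · rw [sq_one, h4]
        simpa using a1
      · rw [sq_two, h5]
        norm_num at a2
        simpa using a2
    · have h6 : 0 < 1 - t := by linarith
      have hs1 : x 0 / (1 - t) ≤ 1 := by
        rw [div_le_one h6]
        linarith
      obtain ⟨a0, a1, a2⟩ := sq_high (s := x 0 / (1 - t)) h
      have h7 : x 0 / (1 - t) * (1 - t) = x 0 := div_mul_cancel₀ _ h6.ne'
      refine ⟨(⟨x 0 / (1 - t), div_nonneg h0 h6.le, hs1⟩, ⟨t, ht0, ht1⟩), smp2_ext ?_ ?_⟩
      · rw [sq_one]
        simp only
        rw [a1]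
        linear_combination (-2) * h7 - 2 * ht - 2 * hs
      · rw [sq_two]
        simp only
        rw [a2]
        linear_combination h7 + 2 * ht + hs

theorem sq_quot : Topology.IsQuotientMap sq :=
  (sq.continuous.isClosedMap).isQuotientMap sq.continuous sq_surj

/-- the fibres of the collapse -/
theorem sq_fib {p q : I × I} (h : sq p = sq q) :
    p.2 = q.2 ∧ (p.1 = q.1 ∨ p.2 = 0 ∨ p.2 = 1) := by
  obtain ⟨⟨s, hs0, hs1⟩, ⟨t, ht0, ht1⟩⟩ := p
  obtain ⟨⟨s', hs0', hs1'⟩, ⟨t', ht0', ht1'⟩⟩ := q
  have h0 : sq0 s t = sq0 s' t' := congrArg (fun z : Smp 2 => z 0) h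
  have h1 : sq1 s t = sq1 s' t' := congrArg (fun z : Smp 2 => z 1) h
  have h2 : sq2 s t = sq2 s' t' := congrArg (fun z : Smp 2 => z 2) h
  have key : ∀ s t : ℝ, t = sq1 s t / 2 + sq2 s t := by
    intro s t
    rcases le_total (2 * t) 1 with h | h
    · obtain ⟨a0, a1, a2⟩ := sq_low (s := s) h
      rw [a1, a2]
      ring
    · obtain ⟨a0, a1, a2⟩ := sq_high (s := s) h
      rw [a1, a2]
      ring
  have htt : t = t' := by
    rw [key s t, key s' t', h1, h2]
  subst htt
  refine ⟨rfl, ?_⟩
  rcases ht0.eq_or_lt with h3 | h3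
  · right; left
    exact Subtype.ext h3.symm
  rcases ht1.eq_or_lt with h4 | h4
  · right; right
    exact Subtype.ext h4
  left
  apply Subtype.ext
  simp only
  rcases le_total (2 * t) 1 with h | h
  · rw [(sq_low h).2.2, (sq_low h).2.2] at h2
    exact mul_right_cancel₀ h3.ne' h2
  · rw [(sq_high h).1, (sq_high h).1] at h0
    exact mul_right_cancel₀ (by linarith : (1 : ℝ) - t ≠ 0) h0

end square

/-! ### cones -/

section cones

open unitInterval

variable {E : Type} [TopologicalSpace E]

/-- the coordinate `Δ¹ → I` -/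
def crd : C(Smp 1, I) :=
  ⟨stdSimplexHomeomorphUnitInterval, stdSimplexHomeomorphUnitInterval.continuous⟩

theorem crd_coe (x : Smp 1) : (crd x : ℝ) = x 1 := rfl

/-- a path as a singular `1`-simplex -/
def ofPath {x y : E} (p : Path x y) : C(Smp 1, E) := p.toContinuousMap.comp crd

theorem ofPath_apply {x y : E} (p : Path x y) (z : Smp 1) : ofPath p z = p (crd z) := rfl

/-- the point `(1 - t, t)` of the `1`-simplex -/
noncomputable def crdInv : C(I, Smp 1) :=
  ⟨stdSimplexHomeomorphUnitInterval.symm, stdSimplexHomeomorphUnitInterval.symm.continuous⟩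

theorem crdInv_crd (x : Smp 1) : crdInv (crd x) = x :=
  stdSimplexHomeomorphUnitInterval.symm_apply_apply x

theorem crdInv_zero : crdInv 0 = stdSimplex.vertex 0 := by
  rw [← stdSimplexHomeomorphUnitInterval_zero]
  exact stdSimplexHomeomorphUnitInterval.symm_apply_apply _

theorem crdInv_one : crdInv 1 = stdSimplex.vertex 1 := by
  rw [← stdSimplexHomeomorphUnitInterval_one]
  exact stdSimplexHomeomorphUnitInterval.symm_apply_apply _

theorem crd_vertex_zero : crd (stdSimplex.vertex 0) = 0 :=
  stdSimplexHomeomorphUnitInterval_zero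

theorem crd_vertex_one : crd (stdSimplex.vertex 1) = 1 :=
  stdSimplexHomeomorphUnitInterval_one

/-- a singular `1`-simplex as a path -/
noncomputable def toPath (u : C(Smp 1, E)) : Path (vtx u 0) (vtx u 1) where
  toContinuousMap := u.comp crdInv
  source' := by
    change u (crdInv 0) = _
    rw [crdInv_zero]; rfl
  target' := by
    change u (crdInv 1) = _
    rw [crdInv_one]; rfl

theorem toPath_apply (u : C(Smp 1, E)) (t : I) : toPath u t = u (crdInv t) := rfl

theorem ofPath_toPath (u : C(Smp 1, E)) : ofPath (toPath u) = u := by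
  ext x
  rw [ofPath_apply, toPath_apply, crdInv_crd]

theorem smap_fc_one (i : Fin 3) (x : Smp 1) (j : Fin 3) :
    smap (fc i) x j = ∑ a : Fin 2, if fc i a = j then x a else 0 := by
  rw [smap_apply, stdSimplex.map_coe, FunOnFinite.linearMap_apply_apply, Finset.sum_filter]

theorem mem0 (x : Smp 1) : (1 + x 1) / 2 ∈ I := by
  have h1 := stdSimplex.zero_le x 1
  have h2 := stdSimplex.le_one x 1
  exact ⟨by linarith, by linarith⟩

theorem mem2 (x : Smp 1) : x 1 / 2 ∈ I := by
  have h1 := stdSimplex.zero_le x 1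
  have h2 := stdSimplex.le_one x 1
  exact ⟨by linarith, by linarith⟩

theorem smap0 (x : Smp 1) : smap (fc (0 : Fin 3)) x = sq (0, ⟨(1 + x 1) / 2, mem0 x⟩) := by
  have hx := stdSimplex.add_eq_one x
  have h1 := stdSimplex.zero_le x 1
  obtain ⟨a0, a1, a2⟩ := sq_high (s := 0) (t := (1 + x 1) / 2) (by linarith)
  refine smp2_ext ?_ ?_
  · rw [sq_one, smap_fc_one, Fin.sum_univ_two]
    simp only [Set.Icc.coe_zero]
    rw [a1, if_pos (by decide), if_neg (by decide)]
    linarith
  · rw [sq_two, smap_fc_one, Fin.sum_univ_two]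
    simp only [Set.Icc.coe_zero]
    rw [a2, if_neg (by decide), if_pos (by decide)]
    linarith

theorem smap1 (x : Smp 1) : smap (fc (1 : Fin 3)) x = sq (1, crd x) := by
  refine smp2_ext ?_ ?_
  · rw [sq_one, smap_fc_one, Fin.sum_univ_two]
    simp only [Set.Icc.coe_one]
    rw [sq1, if_neg (by decide), if_neg (by decide)]
    ring
  · rw [sq_two, smap_fc_one, Fin.sum_univ_two]
    simp only [Set.Icc.coe_one]
    rw [sq2, if_neg (by decide), if_pos (by decide), crd_coe]
    ring

theorem smap2 (x : Smp 1) : smap (fc (2 : Fin 3)) x = sq (0, ⟨x 1 / 2, mem2 x⟩) := by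
  have h1 := stdSimplex.le_one x 1
  obtain ⟨a0, a1, a2⟩ := sq_low (s := 0) (t := x 1 / 2) (by linarith)
  refine smp2_ext ?_ ?_
  · rw [sq_one, smap_fc_one, Fin.sum_univ_two]
    simp only [Set.Icc.coe_zero]
    rw [a1, if_neg (by decide), if_pos (by decide)]
    ring
  · rw [sq_two, smap_fc_one, Fin.sum_univ_two]
    simp only [Set.Icc.coe_zero]
    rw [a2, if_neg (by decide), if_neg (by decide)]
    ring

/-- filling a triangle: `p q ≃ r` relative to the end points gives a singular `2`-simplex with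
the faces `q`, `r`, `p` -/
theorem fill {x y z : E} (p : Path x y) (q : Path y z) (r : Path x z)
    (h : Path.Homotopic (p.trans q) r) :
    ∃ s : C(Smp 2, E), s.comp (smap (fc 0)) = ofPath q ∧
      s.comp (smap (fc 1)) = ofPath r ∧ s.comp (smap (fc 2)) = ofPath p := by
  obtain ⟨F⟩ := h
  have hfac : Function.FactorsThrough F.toContinuousMap sq := by
    rintro ⟨s, t⟩ ⟨s', t'⟩ hab
    obtain ⟨h2, h1⟩ := sq_fib hab
    simp only at h1 h2
    subst h2
    rcases h1 with rfl | rfl | rfl
    · rfl
    · exact (F.source s).trans (F.source s').symm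
    · exact (F.target s).trans (F.target s').symm
  have hl : ∀ a : I × I, sq_quot.lift F.toContinuousMap hfac (sq a) = F a := fun a =>
    congrArg (fun g : C(I × I, E) => g a) (sq_quot.lift_comp F.toContinuousMap hfac)
  refine ⟨sq_quot.lift F.toContinuousMap hfac, ?_, ?_, ?_⟩
  · ext x
    rw [ContinuousMap.comp_apply, smap0, hl, F.apply_zero, Path.coe_toContinuousMap,
      Path.trans_apply, ofPath_apply]
    have h1 := stdSimplex.zero_le x 1
    split_ifs with h2
    · have h3 : x 1 = 0 := by
        simp only at h2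
        linarith
      have e1 : crd x = 0 := Subtype.ext (by rw [crd_coe, h3]; rfl)
      rw [e1, q.source]
      have e2 : ∀ h : 2 * ((1 + x 1) / 2) ∈ I, (⟨2 * ((1 + x 1) / 2), h⟩ : I) = 1 := fun h =>
        Subtype.ext (by simp only [h3]; norm_num)
      exact (congrArg p (e2 _)).trans p.target
    · congr 1
      apply Subtype.ext
      simp only
      rw [crd_coe]
      ring
  · ext x
    rw [ContinuousMap.comp_apply, smap1, hl, F.apply_one, ofPath_apply,
      Path.coe_toContinuousMap]
  · ext x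
    rw [ContinuousMap.comp_apply, smap2, hl, F.apply_zero, Path.coe_toContinuousMap,
      Path.trans_apply, ofPath_apply]
    have h1 := stdSimplex.le_one x 1
    rw [dif_pos (by simp only; linarith)]
    congr 1
    apply Subtype.ext
    simp only
    rw [crd_coe]
    ring

theorem sq_bot (t : I) : sq (0, t) = if h : (t : ℝ) ≤ 1 / 2
    then smap (fc (2 : Fin 3)) (crdInv ⟨2 * t, (unitInterval.mul_pos_mem_iff zero_lt_two).2
      ⟨t.2.1, h⟩⟩)
    else smap (fc (0 : Fin 3)) (crdInv ⟨2 * t - 1, unitInterval.two_mul_sub_one_mem_iff.2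
      ⟨(not_le.1 h).le, t.2.2⟩⟩) := by
  have hc : ∀ a : I, (crdInv a) 1 = (a : ℝ) := fun a => by
    rw [← crd_coe]
    exact congrArg Subtype.val (stdSimplexHomeomorphUnitInterval.apply_symm_apply a)
  split_ifs with h
  · rw [smap2]
    congr 1
    refine Prod.ext rfl (Subtype.ext ?_)
    simp only
    rw [hc]
    ring
  · rw [smap0]
    congr 1
    refine Prod.ext rfl (Subtype.ext ?_)
    simp only
    rw [hc]
    ring

/-- the converse of `fill`: a singular `2`-simplex gives a homotopy of paths -/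
theorem unfill {x y z : E} (p : Path x y) (q : Path y z) (r : Path x z) (s : C(Smp 2, E))
    (h0 : s.comp (smap (fc 0)) = ofPath q) (h1 : s.comp (smap (fc 1)) = ofPath r)
    (h2 : s.comp (smap (fc 2)) = ofPath p) : Path.Homotopic (p.trans q) r := by
  have hcc : ∀ a : I, crd (crdInv a) = a := stdSimplexHomeomorphUnitInterval.apply_symm_apply
  have e0 : ∀ a, s (smap (fc 0) (crdInv a)) = q a := fun a => by
    have := congrArg (fun g : C(Smp 1, E) => g (crdInv a)) h0
    simpa [ofPath_apply, hcc] using this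
  have e1 : ∀ a, s (smap (fc 1) (crdInv a)) = r a := fun a => by
    have := congrArg (fun g : C(Smp 1, E) => g (crdInv a)) h1
    simpa [ofPath_apply, hcc] using this
  have e2 : ∀ a, s (smap (fc 2) (crdInv a)) = p a := fun a => by
    have := congrArg (fun g : C(Smp 1, E) => g (crdInv a)) h2
    simpa [ofPath_apply, hcc] using this
  have b0 : ∀ t : I, s (sq (0, t)) = (p.trans q) t := by
    intro t
    rw [sq_bot, Path.trans_apply]
    split_ifs with h
    · exact e2 _
    · exact e0 _
  have b1 : ∀ t : I, s (sq (1, t)) = r t := by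
    intro t
    rw [← e1 t, smap1, hcc]
  have c0 : ∀ a : I, sq (a, 0) = sq (0, 0) := fun a => smp2_ext
    (by rw [sq_one, sq_one]; simp [sq1]) (by rw [sq_two, sq_two]; simp [sq2])
  have c1 : ∀ a : I, sq (a, 1) = sq (0, 1) := fun a => smp2_ext
    (by rw [sq_one, sq_one]; simp [sq1]) (by
      rw [sq_two, sq_two]
      simp only [sq2, Set.Icc.coe_zero, Set.Icc.coe_one]
      norm_num)
  exact ⟨{ toFun := fun a => s (sq a)
           continuous_toFun := s.continuous.comp sq.continuous
           map_zero_left := fun t => b0 t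
           map_one_left := fun t => b1 t
           prop' := by
            intro a t ht
            rcases ht with rfl | ht
            · change s (sq (a, 0)) = (p.trans q) 0
              rw [c0, b0]
            · rw [Set.mem_singleton_iff] at ht
              subst ht
              change s (sq (a, 1)) = (p.trans q) 1
              rw [c1, b0] }⟩

/-- **cones in a simply connected space** -/
theorem exists_cones [SimplyConnectedSpace E] (x₀ : E) :
    ∃ (K0 : E → C(Smp 1, E)) (K1 : C(Smp 1, E) → C(Smp 2, E)),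
      (∀ y, vtx (K0 y) 0 = x₀ ∧ vtx (K0 y) 1 = y) ∧
      ∀ u, (K1 u).comp (smap (fc 0)) = u ∧ (K1 u).comp (smap (fc 1)) = K0 (vtx u 1) ∧
        (K1 u).comp (smap (fc 2)) = K0 (vtx u 0) := by
  have h : ∀ u : C(Smp 1, E), ∃ s : C(Smp 2, E), s.comp (smap (fc 0)) = u ∧
      s.comp (smap (fc 1)) = ofPath (PathConnectedSpace.somePath x₀ (vtx u 1)) ∧
      s.comp (smap (fc 2)) = ofPath (PathConnectedSpace.somePath x₀ (vtx u 0)) := by
    intro u
    obtain ⟨s, h1, h2, h3⟩ := fill (PathConnectedSpace.somePath x₀ (vtx u 0)) (toPath u)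
      (PathConnectedSpace.somePath x₀ (vtx u 1)) (SimplyConnectedSpace.paths_homotopic _ _)
    exact ⟨s, h1.trans (ofPath_toPath u), h2, h3⟩
  choose K1 hK1 using h
  refine ⟨fun y => ofPath (PathConnectedSpace.somePath x₀ y), K1, fun y => ⟨?_, ?_⟩, hK1⟩
  · change (PathConnectedSpace.somePath x₀ y) (crd (stdSimplex.vertex 0)) = x₀
    rw [crd_vertex_zero, Path.source]
  · change (PathConnectedSpace.somePath x₀ y) (crd (stdSimplex.vertex 1)) = y
    rw [crd_vertex_one, Path.target]

end cones

end Pool.Agent.PD4.Top.Fill
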