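import Pool.Agent.PD4.Top.Sing

/-!
# The cocycle of a homomorphism from the fundamental group

For a homomorphism `f : FundamentalGroup X x0 →* Multiplicative A` and base paths `τ x` from `x0`
to `x` the class `kq τ f p` of a path `p` from `x` to `y` is `f (τ x * p * (τ y)⁻¹)`, written
additively, and `kapOf τ f : Kap (singCx X) A` is the cocycle `e ↦ kq τ f e`.
-/

namespace Pool.Agent.PD4.Top

open scoped unitInterval
open Path.Homotopic.Quotient (mk)

variable {X : Type} [TopologicalSpace X] {x0 : X} (τ : ∀ x, Path x0 x)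
  {A : Type} [AddCommGroup A] (f : FundamentalGroup X x0 →* Multiplicative A)

/-- a class of paths written as an element of the fundamental group -/
noncomputable def lp {x y : X} (p : Path.Homotopic.Quotient x y) : FundamentalGroup X x0 :=
  FundamentalGroup.fromPath (((mk (τ x)).trans p).trans (mk (τ y)).symm)

theorem lp_trans {x y z : X} (p : Path.Homotopic.Quotient x y)
    (q : Path.Homotopic.Quotient y z) : lp τ (p.trans q) = lp τ q * lp τ p := by
  change ((mk (τ x)).trans (p.trans q)).trans (mk (τ z)).symm
    = (((mk (τ x)).trans p).trans (mk (τ y)).symm).trans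
      (((mk (τ y)).trans q).trans (mk (τ z)).symm)
  simp only [Path.Homotopic.Quotient.trans_assoc]
  congr 2
  rw [← Path.Homotopic.Quotient.trans_assoc (mk (τ y)).symm, Path.Homotopic.Quotient.symm_trans,
    Path.Homotopic.Quotient.refl_trans]

theorem lp_refl (x : X) : lp τ (Path.Homotopic.Quotient.refl x) = 1 := by
  change ((mk (τ x)).trans (Path.Homotopic.Quotient.refl x)).trans (mk (τ x)).symm
    = Path.Homotopic.Quotient.refl x0
  rw [Path.Homotopic.Quotient.trans_refl, Path.Homotopic.Quotient.trans_symm]

theorem lp_inj {x y : X} {p q : Path.Homotopic.Quotient x y} (h : lp τ p = lp τ q) : p = q := by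
  have h1 : ∀ r : Path.Homotopic.Quotient x y, r = ((mk (τ x)).symm.trans (lp τ r)).trans
      (mk (τ y)) := by
    intro r
    change r = ((mk (τ x)).symm.trans (((mk (τ x)).trans r).trans (mk (τ y)).symm)).trans
      (mk (τ y))
    simp only [Path.Homotopic.Quotient.trans_assoc]
    rw [Path.Homotopic.Quotient.symm_trans, Path.Homotopic.Quotient.trans_refl,
      ← Path.Homotopic.Quotient.trans_assoc, Path.Homotopic.Quotient.symm_trans,
      Path.Homotopic.Quotient.refl_trans]
  rw [h1 p, h1 q, h]

theorem lp_surj (x y : X) (g : FundamentalGroup X x0) :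
    ∃ p : Path.Homotopic.Quotient x y, lp τ p = g := by
  refine ⟨((mk (τ x)).symm.trans g).trans (mk (τ y)), ?_⟩
  change ((mk (τ x)).trans (((mk (τ x)).symm.trans g).trans (mk (τ y)))).trans (mk (τ y)).symm = g
  simp only [Path.Homotopic.Quotient.trans_assoc]
  rw [Path.Homotopic.Quotient.trans_symm, Path.Homotopic.Quotient.trans_refl,
    ← Path.Homotopic.Quotient.trans_assoc, Path.Homotopic.Quotient.trans_symm,
    Path.Homotopic.Quotient.refl_trans]

/-- the value of `f` on a class of paths -/
noncomputable def kq {x y : X} (p : Path.Homotopic.Quotient x y) : A :=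
  Multiplicative.toAdd (f (lp τ p))

theorem kq_trans {x y z : X} (p : Path.Homotopic.Quotient x y)
    (q : Path.Homotopic.Quotient y z) : kq τ f (p.trans q) = kq τ f p + kq τ f q := by
  rw [kq, lp_trans, map_mul, toAdd_mul, add_comm]
  rfl

theorem kq_refl (x : X) : kq τ f (Path.Homotopic.Quotient.refl x) = 0 := by
  rw [kq, lp_refl, map_one, toAdd_one]

theorem kq_symm {x y : X} (p : Path.Homotopic.Quotient x y) : kq τ f p.symm = - kq τ f p := by
  have h := kq_trans τ f p p.symm
  rw [Path.Homotopic.Quotient.trans_symm, kq_refl] at h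
  exact (neg_eq_of_add_eq_zero_right h.symm).symm

theorem kq_inj (hf : Function.Injective f) {x y : X} {p q : Path.Homotopic.Quotient x y}
    (h : kq τ f p = kq τ f q) : p = q :=
  lp_inj τ (hf (Multiplicative.toAdd.injective h))

theorem kq_surj (hf : Function.Surjective f) (x y : X) (a : A) :
    ∃ p : Path x y, kq τ f (mk p) = a := by
  obtain ⟨g, hg⟩ := hf (Multiplicative.ofAdd a)
  obtain ⟨p, hp⟩ := lp_surj τ x y g
  obtain ⟨p', rfl⟩ := Path.Homotopic.Quotient.mk_surjective p
  exact ⟨p', by rw [kq, hp, hg, toAdd_ofAdd]⟩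

/-- on loops at the base point `kq` is `f` -/
theorem kq_loop (g : FundamentalGroup X x0) :
    kq τ f (FundamentalGroup.toPath g) = Multiplicative.toAdd (f g) := by
  have h : lp τ (FundamentalGroup.toPath g)
      = (FundamentalGroup.fromPath (mk (τ x0)))⁻¹ * g * FundamentalGroup.fromPath (mk (τ x0)) := by
    change ((mk (τ x0)).trans g).trans (mk (τ x0)).symm
      = (mk (τ x0)).trans (Path.Homotopic.Quotient.trans g (mk (τ x0)).symm)
    rw [Path.Homotopic.Quotient.trans_assoc]
  have h2 : ∀ a : FundamentalGroup X x0, f (a⁻¹ * g * a) = f g := by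
    intro a
    rw [map_mul f, map_mul f, map_inv f, mul_comm, mul_inv_cancel_left]
  rw [kq, h, h2]

/-! ### edges and paths -/

/-- the path of a singular edge -/
noncomputable def ep (e : C(Sx 1, X)) : Path (e (vx 0)) (e (vx 1)) where
  toFun t := e (ofI t)
  continuous_toFun := e.continuous.comp ofI.continuous
  source' := by rw [ofI_zero]
  target' := by rw [ofI_one]

/-- the singular edge of a path -/
noncomputable def pe {x y : X} (p : Path x y) : (singCx X).S 1 :=
  sg (p.toContinuousMap.comp toI)

theorem pe_apply {x y : X} (p : Path x y) (t : Sx 1) : fn (pe p) t = p (toI t) := rfl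

/-- every singular edge comes from a path -/
theorem pe_ep (e : (singCx X).S 1) : pe (ep (fn e)) = e := by
  refine sing_ext fun t => ?_
  change fn e (ofI (toI t)) = fn e t
  rw [ofI_toI]

/-- the value of the cocycle on a singular edge -/
noncomputable def ke (e : (singCx X).S 1) : A := kq τ f (mk (ep (fn e)))

theorem ke_eq {x y : X} (p : Path x y) (e : (singCx X).S 1) (h : ∀ t, fn e (ofI t) = p t) :
    ke τ f e = kq τ f (mk p) := by
  have hx : fn e (vx 0) = x := by rw [← ofI_zero, h, p.source]
  have hy : fn e (vx 1) = y := by rw [← ofI_one, h, p.target]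
  subst hx
  subst hy
  have : ep (fn e) = p := by
    ext t
    exact h t
  rw [ke, this]

theorem ke_pe {x y : X} (p : Path x y) : ke τ f (pe p) = kq τ f (mk p) :=
  ke_eq τ f p (pe p) fun t => by rw [pe_apply, toI_ofI]

/-! ### the cocycle -/

instance (n : ℕ) : ContractibleSpace (Sx n) :=
  (convex_stdSimplex ℝ (Fin (n + 1))).contractibleSpace ⟨_, (vx (n := n) 0).2⟩

/-- the standard path of the edge from `i` to `j` of the standard simplex -/
noncomputable def sxEdge {n : ℕ} (g : Emb 1 n) : Path (vx (n := n) (g 0)) (vx (g 1)) where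
  toFun t := sxMap g (ofI t)
  continuous_toFun := (sxMap g).continuous.comp ofI.continuous
  source' := by rw [ofI_zero, sxMap_vx]
  target' := by rw [ofI_one, sxMap_vx]

theorem ke_map {n : ℕ} (s : (singCx X).S n) (g : Emb 1 n) :
    ke τ f ((singCx X).map g s) = kq τ f (mk ((sxEdge g).map (fn s).continuous)) :=
  ke_eq τ f _ _ fun _ => rfl

theorem ke_coc (s : (singCx X).S 2) :
    ke τ f ((singCx X).map (ed 0 2 (by decide)) s)
      = ke τ f ((singCx X).map (ed 0 1 (by decide)) s)
        + ke τ f ((singCx X).map (ed 1 2 (by decide)) s) := by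
  have h1 : ∀ (i j : Fin 3) (h : i < j), ∃ q : Path (vx (n := 2) i) (vx j),
      ke τ f ((singCx X).map (ed i j h) s) = kq τ f (mk (q.map (fn s).continuous)) := by
    intro i j h
    refine ⟨(sxEdge (ed i j h)).cast (by rw [ed_zero]) (by rw [ed_one]), ?_⟩
    exact ke_eq τ f _ _ fun _ => rfl
  obtain ⟨q02, h02⟩ := h1 0 2 (by decide)
  obtain ⟨q01, h01⟩ := h1 0 1 (by decide)
  obtain ⟨q12, h12⟩ := h1 1 2 (by decide)
  rw [h02, h01, h12, ← kq_trans, ← Path.Homotopic.Quotient.mk_trans, ← Path.map_trans]
  have h3 : q02.Homotopic (q01.trans q12) := SimplyConnectedSpace.paths_homotopic _ _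
  congr 1
  exact Path.Homotopic.Quotient.eq.2 (h3.map (fn s))

/-- the cocycle of a homomorphism from the fundamental group -/
noncomputable def kapOf : Kap (singCx X) A where
  k := ke τ f
  coc := ke_coc τ f

theorem kapOf_pe {x y : X} (p : Path x y) : (kapOf τ f).k (pe p) = kq τ f (mk p) := ke_pe τ f p

end Pool.Agent.PD4.Top
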