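import Pool.Agent.PD4.Top.LowOf
import Pool.Agent.PD4.Top.Pi1a
import Pool.Agent.PD4.Top.Fill

/-!
# Low exactness of the twisted singular complex

For a path connected space `X` with an isomorphism `f : π₁(X, x0) ≃ ℤⁿ` the singular complex
twisted by the cocycle `kapOf τ f` (the singular complex of the universal covering) has
`H₀ = ℤ` and `H₁ = 0`.
-/

namespace Pool.Agent.PD4.Top

open scoped unitInterval
open Path.Homotopic.Quotient (mk)

variable {X : Type} [TopologicalSpace X] {x0 : X} (τ : ∀ x, Path x0 x)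

/-- a singular `0`-simplex is determined by its point -/
theorem sing0_ext {v w : (singCx X).S 0} (h : fn v (vx 0) = fn w (vx 0)) : v = w := by
  refine sing_ext fun x => ?_
  rw [Fill.smp0 x]
  exact h

theorem fc1_vx (i : Fin 2) (e : (singCx X).S 1) :
    fn ((singCx X).map (fc i) e) (vx 0) = fn e (vx (fc i 0)) := by
  rw [singCx_map_apply, sxMap_vx]

theorem crd_eq_toI (t : Sx 1) : Fill.crd t = toI t := Subtype.ext rfl

theorem ofPath_eq_pe {x y : X} (p : Path x y) : Fill.ofPath p = fn (pe p) := by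
  ext t
  rw [Fill.ofPath_apply, crd_eq_toI, pe_apply]

/-- a path that agrees with an edge gives this edge -/
theorem ofPath_eq_of {x y : X} (p : Path x y) (e : (singCx X).S 1)
    (h : ∀ t, fn e (ofI t) = p t) : Fill.ofPath p = fn e := by
  ext t
  rw [Fill.ofPath_apply, crd_eq_toI, ← h, ofI_toI]

theorem lowExact_sing {n : ℕ} (f : FundamentalGroup X x0 ≃* Multiplicative (Fin n → ℤ)) :
    LowExact (kapOf τ f.toMonoidHom) := by
  refine lowExact_of _ ⟨sg (X := X) (ContinuousMap.const _ x0)⟩ ?_ ?_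
  · intro v w a
    obtain ⟨p, hp⟩ := kq_surj τ f.toMonoidHom f.surjective (fn v (vx 0)) (fn w (vx 0)) a
    refine ⟨pe p, ?_, ?_, ?_⟩
    · refine sing0_ext ?_
      rw [fc1_vx, pe_apply]
      have : fc (1 : Fin 2) (0 : Fin 1) = 0 := by simp
      rw [this, toI_vx_zero, p.source]
    · refine sing0_ext ?_
      rw [fc1_vx, pe_apply]
      have : fc (0 : Fin 2) (0 : Fin 1) = 1 := by simp
      rw [this, toI_vx_one, p.target]
    · rw [kapOf_pe, hp]
  · intro p q r h1 h2 h3 hk
    have e1 : fn r (vx 0) = fn p (vx 0) := by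
      have h := congrArg (fun v : (singCx X).S 0 => fn v (vx 0)) h1
      exact (fc1_vx 1 r).symm.trans (h.symm.trans (fc1_vx 1 p))
    have e2 : fn p (vx 1) = fn q (vx 0) := by
      have h := congrArg (fun v : (singCx X).S 0 => fn v (vx 0)) h2
      exact (fc1_vx 0 p).symm.trans (h.trans (fc1_vx 1 q))
    have e3 : fn q (vx 1) = fn r (vx 1) := by
      have h := congrArg (fun v : (singCx X).S 0 => fn v (vx 0)) h3
      exact (fc1_vx 0 q).symm.trans (h.trans (fc1_vx 0 r))
    set P : Path (fn p (vx 0)) (fn p (vx 1)) := ep (fn p) with hP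
    set Q : Path (fn p (vx 1)) (fn q (vx 1)) := (ep (fn q)).cast e2 rfl with hQ
    set R : Path (fn p (vx 0)) (fn q (vx 1)) := (ep (fn r)).cast e1.symm e3 with hR
    have kp : (kapOf τ f.toMonoidHom).k p = kq τ f.toMonoidHom (mk P) :=
      ke_eq τ _ P p fun _ => rfl
    have kq' : (kapOf τ f.toMonoidHom).k q = kq τ f.toMonoidHom (mk Q) :=
      ke_eq τ _ Q q fun _ => rfl
    have kr : (kapOf τ f.toMonoidHom).k r = kq τ f.toMonoidHom (mk R) :=
      ke_eq τ _ R r fun _ => rfl
    rw [kp, kq', kr, ← kq_trans, ← Path.Homotopic.Quotient.mk_trans] at hk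
    have hh : (P.trans Q).Homotopic R :=
      Path.Homotopic.Quotient.eq.1 (kq_inj τ f.toMonoidHom f.injective hk).symm
    obtain ⟨s, s0, s1, s2⟩ := Fill.fill P Q R hh
    refine ⟨sg s, ?_, ?_, ?_⟩
    · exact s0.trans (ofPath_eq_of Q q fun _ => rfl)
    · exact s1.trans (ofPath_eq_of R r fun _ => rfl)
    · exact s2.trans (ofPath_eq_of P p fun _ => rfl)

end Pool.Agent.PD4.Top
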