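import Pool.Agent.PD4.Top.Statement
import Pool.Agent.PD4.Top.Model
import Pool.Agent.PD4.Top.Pi1b

/-!
# The definitions of `Statement.lean` in terms of the general Delta-complex definitions
-/

namespace Pool.Agent.PD4.Stmt

variable {n : ℕ} (M : Spc n)

/-- the cocycle of `M` -/
noncomputable abbrev kap : Top.Kap (Top.singCx M.X) (Fin n → ℤ) :=
  Top.kapOf M.τ M.f.toMonoidHom

theorem hol1_eq (e : Simp M.X 1) : M.hol1 e = (kap M).k e := by
  have h0 : Top.ofI 0 = Top.vx 0 := Top.ofI_zero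
  have h1 : Top.ofI 1 = Top.vx 1 := Top.ofI_one
  have key : ∀ (p : Path (e (seg 0)) (e (seg 1))) , (∀ t, e (Top.ofI t) = p t) →
      Top.ke M.τ M.f.toMonoidHom e = Top.kq M.τ M.f.toMonoidHom (Path.Homotopic.Quotient.mk p) :=
    fun p hp => Top.ke_eq M.τ M.f.toMonoidHom p e hp
  exact (key (epath e) fun _ => rfl).symm

theorem hol_eq {k : ℕ} (s : Simp M.X k) (i j : Fin (k + 1)) :
    M.hol s i j = (kap M).kk s i j := by
  unfold Spc.hol Top.Kap.kk
  split_ifs with h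
  · exact hol1_eq M _
  · rfl

theorem bd_eq (k : ℕ) : M.bd k = Top.bd (kap M) Top.tau k := by
  unfold Spc.bd Top.bd
  congr 1
  funext s
  refine Finset.sum_congr rfl fun i _ => ?_
  rw [hol_eq]
  rfl

theorem cobd_eq {k : ℕ} (c : Simp M.X k → Lam n) : M.cobd c = Top.del (kap M) Top.tau c := by
  funext s
  unfold Spc.cobd Top.del
  refine Finset.sum_congr rfl fun i _ => ?_
  rw [hol_eq]
  rfl

theorem isCobd_eq (k : ℕ) (c : Simp M.X k → Lam n) :
    M.IsCobd k c ↔ Top.IsCobd (kap M) Top.tau k c := by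
  cases k with
  | zero => exact Iff.rfl
  | succ k =>
    change (∃ b, M.cobd b = c) ↔ ∃ b, Top.del (kap M) Top.tau b = c
    simp only [cobd_eq]
    rfl

theorem isCyc_eq (k : ℕ) (x : Simp M.X k →₀ Lam n) :
    M.IsCyc k x ↔ Top.IsCyc (kap M) Top.tau k x := by
  cases k with
  | zero => exact Iff.rfl
  | succ k =>
    change M.bd k x = 0 ↔ Top.bd (kap M) Top.tau k x = 0
    rw [bd_eq]
    rfl

theorem cap_eq (z : Simp M.X 4 →₀ ℤ) {p q : ℕ} (h : p + q = 4) (c : Simp M.X p → Lam n) :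
    M.cap z h c = Top.cap (kap M) Top.tau z h c := by
  unfold Spc.cap Top.cap
  refine Finsupp.sum_congr fun s _ => ?_
  rw [hol_eq]
  rfl

/-- the finite model -/
noncomputable def finModel (F : M.FinType) : Top.FinModel (kap M) where
  I := F.I
  fI := F.fI
  dI := F.dI
  deg := F.deg
  d := F.d
  hd := F.hd
  dd := @F.dd
  h := F.h
  h_supp := F.h_supp
  h_bd k x := by
    rw [← bd_eq]
    exact F.h_bd k x
  g := F.g
  g_supp := F.g_supp
  g_bd k y := by
    rw [← bd_eq]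
    exact F.g_bd k y
  P := F.P
  P_zero x := by
    rw [← bd_eq]
    exact F.P_zero x
  P_succ k x := by
    rw [← bd_eq, ← bd_eq]
    exact F.P_succ k x
  Q := F.Q
  hQ := F.hQ
  Q_eq := F.Q_eq

theorem pDual {z : Simp M.X 4 →₀ ℤ} (D : M.Duality z) : Top.PDual (kap M) z where
  cyc := D.cyc
  inj p q h c hc hx := by
    rw [← isCobd_eq]
    refine D.inj p q h c ?_ ?_
    · rw [cobd_eq]
      exact hc
    · obtain ⟨x, hx⟩ := hx
      refine ⟨x, ?_⟩
      rw [bd_eq, cap_eq]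
      exact hx
  surj p q h y hy := by
    obtain ⟨c, x, h1, h2⟩ := D.surj p q h y ((isCyc_eq M q y).2 hy)
    refine ⟨c, x, ?_, ?_⟩
    · exact (cobd_eq M c).symm.trans h1
    · rw [bd_eq, cap_eq] at h2
      exact h2
  coh_hi p hp c hc := by
    rw [← isCobd_eq]
    refine D.coh_hi p hp c ?_
    rw [cobd_eq]
    exact hc
  hom_hi q hq y hy := by
    obtain ⟨x, hx⟩ := D.hom_hi q hq y ((isCyc_eq M q y).2 hy)
    rw [bd_eq] at hx
    exact ⟨x, hx⟩

theorem lowExact : Top.LowExact (kap M) := Top.lowExact_sing M.τ M.f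

theorem cobdZ_eq (k : ℕ) : M.cobdZ k = Top.dZ (Top.singCx M.X) k := rfl

theorem cup22_eq (z : Simp M.X 4 →₀ ℤ) (a b : Simp M.X 2 → ℤ) :
    M.cup22 z a b = Top.cup22 (X := Top.singCx M.X) z a b := rfl

theorem cup4_eq (z : Simp M.X 4 →₀ ℤ) (i j k l : Fin n) :
    M.cup4 z ![xx n i, xx n j, xx n k, xx n l] = Top.cup4 (kap M) z i j k l := by
  unfold Spc.cup4 Top.cup4
  refine Finsupp.sum_congr fun s _ => ?_
  rw [hol_eq, hol_eq, hol_eq, hol_eq]
  rfl

end Pool.Agent.PD4.Stmt
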