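import Pool.Agent.PD4.Top.CupOne

/-!
# Twisted chains, evaluation of cochains on chains, the cap product with a 4-cycle

`L` is a commutative ring with involution, `χ : A → L` a unitary character
(`star (χ a) * χ a = 1`).  Chains of degree `n`: `X.S n →₀ L`, cochains: `X.S n → L`.
-/

namespace Pool.Agent.PD4.Top

open Finset

section chains

variable {X : DeltaCx} {A : Type} [AddCommGroup A] (κ : Kap X A) {L : Type} [CommRing L]

/-- the twisted boundary of chains -/
noncomputable def bd (χ : Chr A L) (n : ℕ) : (X.S (n + 1) →₀ L) →ₗ[L] (X.S n →₀ L) :=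
  Finsupp.linearCombination L fun s => ∑ i : Fin (n + 2),
    Finsupp.single (X.map (fc i) s) ((-1) ^ (i : ℕ) * cv χ (κ.kk s 0 (fc i 0)))

/-- evaluation of a cochain on a chain -/
noncomputable def pair {n : ℕ} (b : X.S n → L) : (X.S n →₀ L) →ₗ[L] L :=
  Finsupp.linearCombination L b

theorem pair_single {n : ℕ} (b : X.S n → L) (s : X.S n) (r : L) :
    pair b (Finsupp.single s r) = r * b s := by
  simp [pair]

theorem bd_single (χ : Chr A L) (n : ℕ) (s : X.S (n + 1)) (r : L) :
    bd κ χ n (Finsupp.single s r) = ∑ i : Fin (n + 2),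
      Finsupp.single (X.map (fc i) s) (r * ((-1) ^ (i : ℕ) * cv χ (κ.kk s 0 (fc i 0)))) := by
  rw [bd, Finsupp.linearCombination_single, Finset.smul_sum]
  refine Finset.sum_congr rfl fun i _ => ?_
  rw [Finsupp.smul_single, smul_eq_mul]

theorem pair_bd (χ : Chr A L) {n : ℕ} (b : X.S n → L) (x : X.S (n + 1) →₀ L) :
    pair b (bd κ χ n x) = pair (del κ χ b) x := by
  induction x using Finsupp.induction_linear with
  | zero => simp
  | add f g hf hg => rw [map_add, map_add, hf, hg, map_add]
  | single s r =>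
    rw [bd_single, map_sum, pair_single, del, Finset.mul_sum]
    refine Finset.sum_congr rfl fun i _ => ?_
    rw [pair_single]
    ring

theorem pair_ext {n : ℕ} {x y : X.S n →₀ L} (h : ∀ b : X.S n → L, pair b x = pair b y) :
    x = y := by
  classical
  ext s
  have h1 : ∀ w : X.S n →₀ L, pair (Pi.single s (1 : L)) w = w s := by
    intro w
    induction w using Finsupp.induction_linear with
    | zero => simp
    | add f g hf hg => rw [map_add, hf, hg, Finsupp.add_apply]
    | single t r =>
      rw [pair_single, Finsupp.single_apply, Pi.single_apply]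
      by_cases hst : t = s
      · rw [if_pos hst, if_pos hst, mul_one]
      · rw [if_neg hst, if_neg hst, mul_zero]
  rw [← h1 x, ← h1 y, h]

theorem pair_add_left {n : ℕ} (b b' : X.S n → L) (x : X.S n →₀ L) :
    pair (b + b') x = pair b x + pair b' x := by
  induction x using Finsupp.induction_linear with
  | zero => simp
  | add f g hf hg => rw [map_add, map_add, map_add, hf, hg]; ring
  | single t r => rw [pair_single, pair_single, pair_single, Pi.add_apply]; ring

theorem pair_smul_left {n : ℕ} (c : L) (b : X.S n → L) (x : X.S n →₀ L) :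
    pair (c • b) x = c * pair b x := by
  induction x using Finsupp.induction_linear with
  | zero => simp
  | add f g hf hg => rw [map_add, map_add, hf, hg]; ring
  | single t r => rw [pair_single, pair_single, Pi.smul_apply, smul_eq_mul]; ring

theorem pair_sum_left {n : ℕ} {ι : Type*} (T : Finset ι) (b : ι → X.S n → L)
    (x : X.S n →₀ L) : pair (∑ i ∈ T, b i) x = ∑ i ∈ T, pair (b i) x := by
  classical
  induction T using Finset.induction_on with
  | empty =>
    rw [Finset.sum_empty, Finset.sum_empty]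
    induction x using Finsupp.induction_linear with
    | zero => simp
    | add f g hf hg => rw [map_add, hf, hg, add_zero]
    | single t r => rw [pair_single, Pi.zero_apply, mul_zero]
  | insert a T ha ih => rw [Finset.sum_insert ha, Finset.sum_insert ha, pair_add_left, ih]

end chains

section ev

variable {X : DeltaCx} {A : Type} [AddCommGroup A] (κ : Kap X A) {L : Type} [CommRing L]

/-- evaluation of an untwisted cochain on an integral chain -/
noncomputable def ev {n : ℕ} (z : X.S n →₀ ℤ) (c : X.S n → L) : L :=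
  z.sum fun s m => (m : L) * c s

theorem ev_eq {n : ℕ} (z : X.S n →₀ ℤ) (c : X.S n → L) :
    ev z c = ∑ s ∈ z.support, (z s : L) * c s := rfl

theorem ev_add {n : ℕ} (z : X.S n →₀ ℤ) (c c' : X.S n → L) :
    ev z (fun s => c s + c' s) = ev z c + ev z c' := by
  rw [ev_eq, ev_eq, ev_eq, ← Finset.sum_add_distrib]
  exact Finset.sum_congr rfl fun s _ => by ring

theorem ev_sub {n : ℕ} (z : X.S n →₀ ℤ) (c c' : X.S n → L) :
    ev z (fun s => c s - c' s) = ev z c - ev z c' := by
  rw [ev_eq, ev_eq, ev_eq, ← Finset.sum_sub_distrib]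
  exact Finset.sum_congr rfl fun s _ => by ring

theorem ev_smul {n : ℕ} (z : X.S n →₀ ℤ) (r : L) (c : X.S n → L) :
    ev z (fun s => r * c s) = r * ev z c := by
  rw [ev_eq, ev_eq, Finset.mul_sum]
  exact Finset.sum_congr rfl fun s _ => by ring

theorem ev_sum {n : ℕ} (z : X.S n →₀ ℤ) {ι : Type*} (T : Finset ι) (c : ι → X.S n → L) :
    ev z (fun s => ∑ i ∈ T, c i s) = ∑ i ∈ T, ev z (c i) := by
  simp only [ev_eq]
  rw [Finset.sum_comm]
  exact Finset.sum_congr rfl fun s _ => by rw [Finset.mul_sum]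

theorem ev_zero {n : ℕ} (z : X.S n →₀ ℤ) : ev z (fun _ => (0 : L)) = 0 := by
  simp [ev_eq]

theorem ev_map {n : ℕ} (z : X.S n →₀ ℤ) {L' : Type} [CommRing L'] (φ : L →+* L')
    (c : X.S n → L) : ev z (fun s => φ (c s)) = φ (ev z c) := by
  rw [ev_eq, ev_eq, map_sum]
  exact Finset.sum_congr rfl fun s _ => by rw [map_mul, map_intCast]

/-- the untwisted boundary of an integral chain -/
noncomputable def bdZ (n : ℕ) : (X.S (n + 1) →₀ ℤ) →ₗ[ℤ] (X.S n →₀ ℤ) :=
  Finsupp.linearCombination ℤ fun s => ∑ i : Fin (n + 2),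
    Finsupp.single (X.map (fc i) s) ((-1) ^ (i : ℕ))

/-- evaluation on a single chain as an additive map -/
noncomputable def evHom {n : ℕ} (c : X.S n → L) : (X.S n →₀ ℤ) →+ L where
  toFun z := ev z c
  map_zero' := by simp [ev]
  map_add' z z' := by
    unfold ev
    exact Finsupp.sum_add_index' (fun _ => by simp) (fun _ _ _ => by push_cast; ring)

theorem ev_single {n : ℕ} (s : X.S n) (m : ℤ) (c : X.S n → L) :
    ev (Finsupp.single s m) c = (m : L) * c s := by
  unfold ev
  rw [Finsupp.sum_single_index]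
  simp

theorem ev_bdZ {n : ℕ} (z : X.S (n + 1) →₀ ℤ) (c : X.S n → L) :
    ev (bdZ n z) c = ev z (del κ 1 c) := by
  induction z using Finsupp.induction_linear with
  | zero => simp [ev]
  | add f g hf hg =>
    rw [map_add]
    have h1 := (evHom c).map_add (bdZ n f) (bdZ n g)
    have h2 := (evHom (del κ 1 c)).map_add f g
    change ev (bdZ n f + bdZ n g) c = ev (f + g) (del κ 1 c)
    change ev (bdZ n f + bdZ n g) c = ev (bdZ n f) c + ev (bdZ n g) c at h1
    change ev (f + g) (del κ 1 c) = ev f (del κ 1 c) + ev g (del κ 1 c) at h2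
    rw [h1, h2, hf, hg]
  | single s m =>
    rw [ev_single, bdZ, Finsupp.linearCombination_single, Finset.smul_sum]
    have h1 := map_sum (evHom c) (fun i : Fin (n + 2) =>
      m • Finsupp.single (X.map (fc i) s) ((-1 : ℤ) ^ (i : ℕ))) Finset.univ
    change ev (∑ i : Fin (n + 2), m • Finsupp.single (X.map (fc i) s) ((-1 : ℤ) ^ (i : ℕ))) c
      = ∑ i : Fin (n + 2), ev (m • Finsupp.single (X.map (fc i) s) ((-1 : ℤ) ^ (i : ℕ))) c at h1
    rw [h1, del, Finset.mul_sum]
    refine Finset.sum_congr rfl fun i _ => ?_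
    rw [Finsupp.smul_single, ev_single, cv_one, smul_eq_mul]
    push_cast
    ring

theorem ev_del {n : ℕ} (z : X.S (n + 1) →₀ ℤ) (hz : bdZ n z = 0) (c : X.S n → L) :
    ev z (del κ 1 c) = 0 := by
  rw [← ev_bdZ, hz]
  simp [ev]

end ev

section cap

variable {X : DeltaCx} {A : Type} [AddCommGroup A] (κ : Kap X A) {L : Type} [CommRing L]
  [StarRing L]

/-- the conjugate character -/
def chb (χ : Chr A L) : Chr A L := ((starRingEnd L : L →+* L) : L →* L).comp χ

theorem cv_chb (χ : Chr A L) (a : A) : cv (chb χ) a = star (cv χ a) := rfl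

/-- unitary characters -/
def Unitary (χ : Chr A L) : Prop := ∀ a, star (cv χ a) * cv χ a = 1

theorem Unitary.mul {χ : Chr A L} (h : Unitary χ) : chb χ * χ = 1 := by
  ext a
  exact h (Multiplicative.toAdd a)

theorem Unitary.mul' {χ : Chr A L} (h : Unitary χ) : χ * chb χ = 1 := by
  rw [mul_comm, h.mul]

/-- conjugation of cochains -/
def cj {n : ℕ} (c : X.S n → L) (s : X.S n) : L := star (c s)

theorem del_cj (χ : Chr A L) {n : ℕ} (c : X.S n → L) :
    del κ (chb χ) (cj c) = cj (del κ χ c) := by
  funext s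
  unfold del cj
  rw [star_sum]
  refine Finset.sum_congr rfl fun i _ => ?_
  rw [cv_chb, star_mul', star_mul', star_pow, star_neg, star_one]

/-- the cap product of a cochain with an integral 4-chain -/
noncomputable def cap (χ : Chr A L) (z : X.S 4 →₀ ℤ) {p q : ℕ} (h : p + q = 4)
    (c : X.S p → L) : X.S q →₀ L :=
  z.sum fun s m => Finsupp.single (X.map (back h) s)
    ((m : L) * (star (c (X.map (front h) s)) * cv χ (κ.kk s 0 (back h 0))))

theorem pair_cap (χ : Chr A L) (z : X.S 4 →₀ ℤ) {p q : ℕ} (h : p + q = 4)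
    (c : X.S p → L) (b : X.S q → L) :
    pair b (cap κ χ z h c) = ev z (cup κ (chb χ) χ h (cj c) b) := by
  rw [cap, Finsupp.sum, map_sum, ev_eq]
  refine Finset.sum_congr rfl fun s _ => ?_
  rw [pair_single, cup, hat, hat]
  have h0 : κ.kk s 0 (front h 0) = 0 := by
    have : front h 0 = (0 : Fin 5) := Fin.ext rfl
    rw [this, κ.kk_self]
  rw [h0, cv_zero, one_mul, cj]
  ring

theorem cap_add (χ : Chr A L) (z : X.S 4 →₀ ℤ) {p q : ℕ} (h : p + q = 4)
    (c c' : X.S p → L) : cap κ χ z h (c + c') = cap κ χ z h c + cap κ χ z h c' := by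
  apply pair_ext
  intro b
  rw [map_add, pair_cap, pair_cap, pair_cap, ← ev_add]
  congr 1
  funext s
  simp only [cup, hat, cj, Pi.add_apply, star_add]
  ring

theorem cap_smul (χ : Chr A L) (z : X.S 4 →₀ ℤ) {p q : ℕ} (h : p + q = 4) (r : L)
    (c : X.S p → L) : cap κ χ z h (r • c) = star r • cap κ χ z h c := by
  apply pair_ext
  intro b
  rw [map_smul, pair_cap, pair_cap, smul_eq_mul, ← ev_smul]
  congr 1
  funext s
  simp only [cup, hat, cj, Pi.smul_apply, smul_eq_mul, star_mul']
  ring

/-- the cap product is a chain map (up to sign) -/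
theorem bd_cap (χ : Chr A L) (hχ : Unitary χ) (z : X.S 4 →₀ ℤ) (hz : bdZ 3 z = 0) {p q : ℕ}
    (h : p + q = 3) (c : X.S p → L) :
    bd κ χ q (cap κ χ z (show p + (q + 1) = 4 by omega) c)
      = ((-1 : L) ^ (p + 1)) • cap κ χ z (show (p + 1) + q = 4 by omega) (del κ χ c) := by
  apply pair_ext
  intro b
  rw [pair_bd, pair_cap, map_smul, pair_cap, ← del_cj, smul_eq_mul]
  have h1 := ev_del κ z hz (cup κ (chb χ) χ h (cj c) b)
  have h2 : del κ 1 (cup κ (chb χ) χ h (cj c) b) = fun s =>
      cup κ (chb χ) χ (show (p + 1) + q = 4 by omega) (del κ (chb χ) (cj c)) b s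
        + (-1) ^ p * cup κ (chb χ) χ (show p + (q + 1) = 4 by omega) (cj c) (del κ χ b) s := by
    funext s
    rw [← hχ.mul]
    exact del_cup κ (chb χ) χ h (cj c) b s
  rw [h2, ev_add, ev_smul] at h1
  have h3 : ((-1 : L) ^ p) * (-1) ^ p = 1 := by
    rw [← mul_pow]; simp
  rw [pow_succ]
  linear_combination (-1 : L) ^ p * h1 - ev z (cup κ (chb χ) χ (show p + (q + 1) = 4 by omega) (cj c) (del κ χ b)) * h3

end cap

end Pool.Agent.PD4.Top
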