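import Pool.Agent.PD4.Top.Delta

/-!
# The cup product of twisted cochains and the Leibniz rule
-/

namespace Pool.Agent.PD4.Top

open Finset

/-- the front face -/
def front {p q n : ℕ} (h : p + q = n) : Emb p n :=
  OrderEmbedding.ofStrictMono (fun x : Fin (p + 1) => (⟨x, by omega⟩ : Fin (n + 1)))
    (fun _ _ hxy => hxy)

/-- the back face -/
def back {p q n : ℕ} (h : p + q = n) : Emb q n :=
  OrderEmbedding.ofStrictMono (fun x : Fin (q + 1) => (⟨p + x, by omega⟩ : Fin (n + 1)))
    (fun _ _ hxy => Nat.add_lt_add_left hxy p)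

@[simp] theorem front_val {p q n : ℕ} (h : p + q = n) (x : Fin (p + 1)) :
    ((front h x : Fin (n + 1)) : ℕ) = x := rfl

@[simp] theorem back_val {p q n : ℕ} (h : p + q = n) (x : Fin (q + 1)) :
    ((back h x : Fin (n + 1)) : ℕ) = p + x := rfl

theorem emb_ext {m n : ℕ} {f g : Emb m n} (h : ∀ x, ((f x : Fin (n + 1)) : ℕ) = g x) : f = g :=
  DFunLike.ext _ _ fun x => Fin.ext (h x)

theorem fc_val {n : ℕ} (i : Fin (n + 2)) (x : Fin (n + 1)) :
    ((fc i x : Fin (n + 2)) : ℕ) = if (x : ℕ) < i then (x : ℕ) else x + 1 := by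
  simp only [fc_apply, Fin.succAbove, Fin.lt_def, Fin.val_castSucc]
  split_ifs <;> simp

@[simp] theorem trans_val {l m n : ℕ} (f : Emb l m) (g : Emb m n) (x : Fin (l + 1)) :
    ((f.trans g : Emb l n) x) = g (f x) := rfl

theorem trans_assoc {k l m n : ℕ} (f : Emb k l) (g : Emb l m) (e : Emb m n) :
    (f.trans g).trans e = f.trans (g.trans e) := rfl

section simplex

variable {R : Type} [CommRing R] {p q n m : ℕ} (A : Emb p m → R) (B : Emb q m → R)

/-- the cup product on the standard simplex -/
def cupS (h : p + q = n) (f : Emb n m) : R := A ((front h).trans f) * B ((back h).trans f)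

theorem leibS (h : p + q = n) (f : Emb (n + 1) m) :
    sdel (cupS A B h) f
      = cupS (sdel A) B (show (p + 1) + q = n + 1 by omega) f
        + (-1) ^ p * cupS A (sdel B) (show p + (q + 1) = n + 1 by omega) f := by
  subst h
  have key1 : ∀ i : Fin (p + 1), (-1 : R) ^ (i : ℕ) *
      cupS A B rfl ((fc ⟨i, by omega⟩ : Emb (p + q) (p + q + 1)).trans f)
      = (-1) ^ (i : ℕ) * A ((fc i.castSucc).trans ((front (show (p + 1) + q = p + q + 1 by omega)).trans f))
        * B ((back (show (p + 1) + q = p + q + 1 by omega)).trans f) := by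
    intro i
    have e1 : (front (show p + q = p + q from rfl)).trans (fc ⟨i, by omega⟩ : Emb (p + q) (p + q + 1))
        = (fc i.castSucc).trans (front (show (p + 1) + q = p + q + 1 by omega)) := by
      apply emb_ext
      intro x
      simp only [trans_val, fc_val, front_val, Fin.val_castSucc]
    have e2 : (back (show p + q = p + q from rfl)).trans (fc ⟨i, by omega⟩ : Emb (p + q) (p + q + 1))
        = back (show (p + 1) + q = p + q + 1 by omega) := by
      apply emb_ext
      intro x
      simp only [trans_val, fc_val, back_val]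
      have := i.isLt
      split_ifs <;> omega
    unfold cupS
    rw [← trans_assoc, e1, ← trans_assoc, e2, trans_assoc, mul_assoc]
  have key2 : ∀ j : Fin (q + 1), (-1 : R) ^ (p + 1 + j : ℕ) *
      cupS A B rfl ((fc ⟨p + 1 + j, by omega⟩ : Emb (p + q) (p + q + 1)).trans f)
      = (-1) ^ (p + 1 + j : ℕ) * (A ((front (show p + (q + 1) = p + q + 1 by omega)).trans f)
        * B ((fc j.succ).trans ((back (show p + (q + 1) = p + q + 1 by omega)).trans f))) := by
    intro j
    have e1 : (front (show p + q = p + q from rfl)).trans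
        (fc ⟨p + 1 + j, by omega⟩ : Emb (p + q) (p + q + 1))
        = front (show p + (q + 1) = p + q + 1 by omega) := by
      apply emb_ext
      intro x
      simp only [trans_val, fc_val, front_val]
      have := x.isLt
      split_ifs <;> omega
    have e2 : (back (show p + q = p + q from rfl)).trans
        (fc ⟨p + 1 + j, by omega⟩ : Emb (p + q) (p + q + 1))
        = (fc j.succ).trans (back (show p + (q + 1) = p + q + 1 by omega)) := by
      apply emb_ext
      intro x
      simp only [trans_val, fc_val, back_val, Fin.val_succ]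
      split_ifs <;> omega
    unfold cupS
    rw [← trans_assoc, e1, ← trans_assoc, e2, trans_assoc]
  have hsum : sdel (cupS A B (rfl : p + q = p + q)) f
      = (∑ i : Fin (p + 1), (-1 : R) ^ (i : ℕ) *
          cupS A B rfl ((fc ⟨i, by omega⟩ : Emb (p + q) (p + q + 1)).trans f))
        + ∑ j : Fin (q + 1), (-1 : R) ^ (p + 1 + j : ℕ) *
          cupS A B rfl ((fc ⟨p + 1 + j, by omega⟩ : Emb (p + q) (p + q + 1)).trans f) := by
    unfold sdel
    rw [← Fin.sum_congr' _ (show (p + 1) + (q + 1) = p + q + 2 by omega), Fin.sum_univ_add]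
    rfl
  rw [hsum, Finset.sum_congr rfl fun i _ => key1 i, Finset.sum_congr rfl fun j _ => key2 j]
  have e3 : (fc (Fin.last (p + 1))).trans ((front (show (p + 1) + q = p + q + 1 by omega)).trans f)
      = (front (show p + (q + 1) = p + q + 1 by omega)).trans f := by
    rw [← trans_assoc]
    congr 1
    apply emb_ext
    intro x
    simp only [trans_val, fc_val, front_val, Fin.val_last]
    have := x.isLt
    split_ifs; omega
  have e4 : (fc 0).trans ((back (show p + (q + 1) = p + q + 1 by omega)).trans f)
      = (back (show (p + 1) + q = p + q + 1 by omega)).trans f := by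
    rw [← trans_assoc]
    congr 1
    apply emb_ext
    intro x
    simp only [trans_val, fc_val, back_val, Fin.val_zero, Nat.not_lt_zero, if_false]
    omega
  have r1 : cupS (sdel A) B (show (p + 1) + q = p + q + 1 by omega) f
      = (∑ i : Fin (p + 1), (-1 : R) ^ (i : ℕ) * A ((fc i.castSucc).trans ((front (show (p + 1) + q = p + q + 1 by omega)).trans f))
        * B ((back (show (p + 1) + q = p + q + 1 by omega)).trans f))
        + (-1) ^ (p + 1) * (A ((front (show p + (q + 1) = p + q + 1 by omega)).trans f)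
          * B ((back (show (p + 1) + q = p + q + 1 by omega)).trans f)) := by
    unfold cupS
    rw [sdel, Fin.sum_univ_castSucc, e3, add_mul, Finset.sum_mul]
    simp only [Fin.val_castSucc, Fin.val_last]
    rw [mul_assoc]
  have r2 : cupS A (sdel B) (show p + (q + 1) = p + q + 1 by omega) f
      = A ((front (show p + (q + 1) = p + q + 1 by omega)).trans f)
          * B ((back (show (p + 1) + q = p + q + 1 by omega)).trans f)
        + ∑ j : Fin (q + 1), (-1 : R) ^ (j + 1 : ℕ) *
          (A ((front (show p + (q + 1) = p + q + 1 by omega)).trans f)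
        * B ((fc j.succ).trans ((back (show p + (q + 1) = p + q + 1 by omega)).trans f))) := by
    unfold cupS
    rw [sdel, Fin.sum_univ_succ, e4, mul_add, Finset.mul_sum]
    simp only [Fin.val_zero, pow_zero, one_mul, Fin.val_succ]
    congr 1
    exact Finset.sum_congr rfl fun j _ => by ring
  rw [r1, r2, mul_add, Finset.mul_sum]
  have r3 : ∀ j : Fin (q + 1), (-1 : R) ^ p * ((-1 : R) ^ (j + 1 : ℕ) *
          (A ((front (show p + (q + 1) = p + q + 1 by omega)).trans f)
        * B ((fc j.succ).trans ((back (show p + (q + 1) = p + q + 1 by omega)).trans f))))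
      = (-1) ^ (p + 1 + j : ℕ) * (A ((front (show p + (q + 1) = p + q + 1 by omega)).trans f)
        * B ((fc j.succ).trans ((back (show p + (q + 1) = p + q + 1 by omega)).trans f))) := by
    intro j
    ring
  rw [Finset.sum_congr rfl fun j _ => r3 j]
  ring

end simplex

section cup

variable {X : DeltaCx} {A : Type} [AddCommGroup A] (κ : Kap X A) {R : Type} [CommRing R]

/-- restriction of a cochain on the simplex -/
theorem hat_trans (χ : Chr A R) {l m n : ℕ} (s : X.S n) (a : X.S l → R) (g : Emb l m)
    (f : Emb m n) :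
    cv χ (κ.kk s 0 (f 0)) * hat κ χ (X.map f s) a g = hat κ χ s a (g.trans f) := by
  unfold hat
  have h1 : κ.kk s 0 ((g.trans f) 0) = κ.kk s 0 (f 0) + κ.kk (X.map f s) 0 (g 0) := by
    rw [κ.kk_map]
    exact κ.kk_add s (Fin.zero_le _) (f.monotone (Fin.zero_le _))
  rw [h1, cv_add, X.map_comp]
  ring

/-- the cup product of twisted cochains -/
def cup (χ χ' : Chr A R) {p q n : ℕ} (h : p + q = n) (a : X.S p → R) (b : X.S q → R)
    (s : X.S n) : R :=
  hat κ χ s a (front h) * hat κ χ' s b (back h)

theorem hat_cup (χ χ' : Chr A R) {p q n m : ℕ} (h : p + q = n) (a : X.S p → R)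
    (b : X.S q → R) (s : X.S m) (f : Emb n m) :
    hat κ (χ * χ') s (cup κ χ χ' h a b) f = cupS (hat κ χ s a) (hat κ χ' s b) h f := by
  rw [hat, cup, cv_mul, cupS, ← hat_trans, ← hat_trans]
  ring

/-- Leibniz rule -/
theorem del_cup (χ χ' : Chr A R) {p q n : ℕ} (h : p + q = n) (a : X.S p → R)
    (b : X.S q → R) (s : X.S (n + 1)) :
    del κ (χ * χ') (cup κ χ χ' h a b) s
      = cup κ χ χ' (show (p + 1) + q = n + 1 by omega) (del κ χ a) b s
        + (-1) ^ p * cup κ χ χ' (show p + (q + 1) = n + 1 by omega) a (del κ χ' b) s := by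
  have h1 : ∀ f, hat κ (χ * χ') s (cup κ χ χ' h a b) f
      = cupS (hat κ χ s a) (hat κ χ' s b) h f := fun f => hat_cup κ χ χ' h a b s f
  have h2 : ∀ f, hat κ χ s (del κ χ a) f = sdel (hat κ χ s a) f := fun f => hat_del κ χ s a f
  have h3 : ∀ f, hat κ χ' s (del κ χ' b) f = sdel (hat κ χ' s b) f := fun f => hat_del κ χ' s b f
  rw [del_eq, funext h1, leibS]
  unfold cupS cup
  rw [h2, h3]
  rfl

end cup

end Pool.Agent.PD4.Top
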