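import Pool.Agent.PD4.Top.Cup

/-!
# The cup-one product and the symmetry of the cup product in total degree 4
-/

namespace Pool.Agent.PD4.Top

open Finset

/-- the first face in the cup-one product -/
def c1a {p q n : ℕ} (h : p + q = n + 1) (hq : 0 < q) (i : Fin p) : Emb p n :=
  OrderEmbedding.ofStrictMono
    (fun x : Fin (p + 1) => (⟨if (x : ℕ) ≤ i then (x : ℕ) else x + (q - 1), by
      have := x.isLt; have := i.isLt; split_ifs <;> omega⟩ : Fin (n + 1)))
    (fun x y hxy => by
      have h1 : (x : ℕ) < y := hxy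
      simp only [Fin.mk_lt_mk]
      split_ifs <;> omega)

/-- the second face in the cup-one product -/
def c1b {p q n : ℕ} (h : p + q = n + 1) (i : Fin p) : Emb q n :=
  OrderEmbedding.ofStrictMono
    (fun x : Fin (q + 1) => (⟨i + x, by
      have := x.isLt; have := i.isLt; omega⟩ : Fin (n + 1)))
    (fun x y hxy => by
      have h1 : (x : ℕ) < y := hxy
      simp only [Fin.mk_lt_mk]
      omega)

theorem c1a_val {p q n : ℕ} (h : p + q = n + 1) (hq : 0 < q) (i : Fin p) (x : Fin (p + 1)) :
    ((c1a h hq i x : Fin (n + 1)) : ℕ) = if (x : ℕ) ≤ i then (x : ℕ) else x + (q - 1) := rfl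

theorem c1b_val {p q n : ℕ} (h : p + q = n + 1) (i : Fin p) (x : Fin (q + 1)) :
    ((c1b h i x : Fin (n + 1)) : ℕ) = i + x := rfl

/-- the code of a face -/
def code {m n : ℕ} (f : Emb m n) : ℕ := ∑ x, 2 ^ ((f x : Fin (n + 1)) : ℕ)

theorem code_inj {m n : ℕ} : Function.Injective (code : Emb m n → ℕ) := by
  intro f g h
  have e1 : ∀ f : Emb m n, code f = ∑ k ∈ (Finset.univ.map f.toEmbedding).map Fin.valEmbedding, 2 ^ k := by
    intro f
    rw [Finset.sum_map, Finset.sum_map]
    rfl
  rw [e1, e1] at h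
  have h2 := Finset.geomSum_injective (n := 2) le_rfl h
  have h3 : Finset.univ.map f.toEmbedding = Finset.univ.map g.toEmbedding :=
    Finset.map_injective _ h2
  have h4 : Set.range f = Set.range g := by
    have := congrArg (fun s : Finset (Fin (n + 1)) => (s : Set (Fin (n + 1)))) h3
    simpa using this
  exact OrderEmbedding.range_inj.1 h4

section unc

variable {R : Type} [CommRing R] {m n : ℕ}

open Classical in
/-- a function of faces as a function of codes -/
noncomputable def unc (F : Emb m n → R) (c : ℕ) : R :=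
  if h : ∃ f, code f = c then F h.choose else 0

theorem unc_code (F : Emb m n → R) (f : Emb m n) : F f = unc F (code f) := by
  have h : ∃ g : Emb m n, code g = code f := ⟨f, rfl⟩
  rw [unc, dif_pos h]
  exact congrArg F (code_inj h.choose_spec).symm

end unc

section simplex

variable {R : Type} [CommRing R] {p q n m : ℕ} (A : Emb p m → R) (B : Emb q m → R)

/-- cup-one product on the standard simplex -/
def cup1S (h : p + q = n + 1) (f : Emb n m) : R :=
  if hq : 0 < q then
    ∑ i : Fin p, (-1) ^ ((p - i) * (q + 1)) * (A ((c1a h hq i).trans f) * B ((c1b h i).trans f))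
  else 0

end simplex

theorem steen04 {R : Type} [CommRing R] (A : Emb 0 4 → R) (B : Emb 4 4 → R) :
    cupS A B (rfl : 0 + 4 = 4) (RelEmbedding.refl _)
        - (-1) ^ (0 * 4) * cupS B A (rfl : 4 + 0 = 4) (RelEmbedding.refl _)
      = cup1S (sdel A) B (rfl : 1 + 4 = 4 + 1) (RelEmbedding.refl _)
        + (-1) ^ 0 * cup1S A (sdel B) (rfl : 0 + 5 = 4 + 1) (RelEmbedding.refl _)
        - sdel (cup1S A B (rfl : 0 + 4 = 3 + 1)) (RelEmbedding.refl _ : Emb 4 4) := by
  have hA := unc_code A
  have hB := unc_code B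
  simp only [cupS, cup1S, sdel, hA, hB]
  generalize unc A = A'
  generalize unc B = B'
  simp [-fc_apply, code, Fin.sum_univ_succ, fc_val, c1a_val, c1b_val]
  ring

theorem steen13 {R : Type} [CommRing R] (A : Emb 1 4 → R) (B : Emb 3 4 → R) :
    cupS A B (rfl : 1 + 3 = 4) (RelEmbedding.refl _)
        - (-1) ^ (1 * 3) * cupS B A (rfl : 3 + 1 = 4) (RelEmbedding.refl _)
      = cup1S (sdel A) B (rfl : 2 + 3 = 4 + 1) (RelEmbedding.refl _)
        + (-1) ^ 1 * cup1S A (sdel B) (rfl : 1 + 4 = 4 + 1) (RelEmbedding.refl _)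
        - sdel (cup1S A B (rfl : 1 + 3 = 3 + 1)) (RelEmbedding.refl _ : Emb 4 4) := by
  have hA := unc_code A
  have hB := unc_code B
  simp only [cupS, cup1S, sdel, hA, hB]
  generalize unc A = A'
  generalize unc B = B'
  simp [-fc_apply, code, Fin.sum_univ_succ, fc_val, c1a_val, c1b_val]
  ring

theorem steen22 {R : Type} [CommRing R] (A : Emb 2 4 → R) (B : Emb 2 4 → R) :
    cupS A B (rfl : 2 + 2 = 4) (RelEmbedding.refl _)
        - (-1) ^ (2 * 2) * cupS B A (rfl : 2 + 2 = 4) (RelEmbedding.refl _)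
      = cup1S (sdel A) B (rfl : 3 + 2 = 4 + 1) (RelEmbedding.refl _)
        + (-1) ^ 2 * cup1S A (sdel B) (rfl : 2 + 3 = 4 + 1) (RelEmbedding.refl _)
        - sdel (cup1S A B (rfl : 2 + 2 = 3 + 1)) (RelEmbedding.refl _ : Emb 4 4) := by
  have hA := unc_code A
  have hB := unc_code B
  simp only [cupS, cup1S, sdel, hA, hB]
  generalize unc A = A'
  generalize unc B = B'
  simp [-fc_apply, code, Fin.sum_univ_succ, fc_val, c1a_val, c1b_val]
  ring

theorem steen31 {R : Type} [CommRing R] (A : Emb 3 4 → R) (B : Emb 1 4 → R) :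
    cupS A B (rfl : 3 + 1 = 4) (RelEmbedding.refl _)
        - (-1) ^ (3 * 1) * cupS B A (rfl : 1 + 3 = 4) (RelEmbedding.refl _)
      = cup1S (sdel A) B (rfl : 4 + 1 = 4 + 1) (RelEmbedding.refl _)
        + (-1) ^ 3 * cup1S A (sdel B) (rfl : 3 + 2 = 4 + 1) (RelEmbedding.refl _)
        - sdel (cup1S A B (rfl : 3 + 1 = 3 + 1)) (RelEmbedding.refl _ : Emb 4 4) := by
  have hA := unc_code A
  have hB := unc_code B
  simp only [cupS, cup1S, sdel, hA, hB]
  generalize unc A = A'
  generalize unc B = B'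
  simp [-fc_apply, code, Fin.sum_univ_succ, fc_val, c1a_val, c1b_val]
  ring

theorem steen40 {R : Type} [CommRing R] (A : Emb 4 4 → R) (B : Emb 0 4 → R) :
    cupS A B (rfl : 4 + 0 = 4) (RelEmbedding.refl _)
        - (-1) ^ (4 * 0) * cupS B A (rfl : 0 + 4 = 4) (RelEmbedding.refl _)
      = cup1S (sdel A) B (rfl : 5 + 0 = 4 + 1) (RelEmbedding.refl _)
        + (-1) ^ 4 * cup1S A (sdel B) (rfl : 4 + 1 = 4 + 1) (RelEmbedding.refl _)
        - sdel (cup1S A B (rfl : 4 + 0 = 3 + 1)) (RelEmbedding.refl _ : Emb 4 4) := by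
  have hA := unc_code A
  have hB := unc_code B
  simp only [cupS, cup1S, sdel, hA, hB]
  generalize unc A = A'
  generalize unc B = B'
  simp [-fc_apply, code, Fin.sum_univ_succ, fc_val, c1a_val, c1b_val]
  ring

/-- symmetry of the cup product on the standard simplex, total degree 4 -/
theorem steenS {R : Type} [CommRing R] {p q m : ℕ} (A : Emb p m → R) (B : Emb q m → R)
    (h : p + q = 4) (f : Emb 4 m) :
    cupS A B h f - (-1) ^ (p * q) * cupS B A (show q + p = 4 by omega) f
      = cup1S (sdel A) B (show (p + 1) + q = 4 + 1 by omega) f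
        + (-1) ^ p * cup1S A (sdel B) (show p + (q + 1) = 4 + 1 by omega) f
        - sdel (cup1S A B (show p + q = 3 + 1 by omega)) f := by
  have hp : p ≤ 4 := by omega
  have hq : q = 4 - p := by omega
  subst hq
  interval_cases p
  · exact steen04 (fun g => A (g.trans f)) (fun g => B (g.trans f))
  · exact steen13 (fun g => A (g.trans f)) (fun g => B (g.trans f))
  · exact steen22 (fun g => A (g.trans f)) (fun g => B (g.trans f))
  · exact steen31 (fun g => A (g.trans f)) (fun g => B (g.trans f))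
  · exact steen40 (fun g => A (g.trans f)) (fun g => B (g.trans f))

section cup

variable {X : DeltaCx} {A : Type} [AddCommGroup A] (κ : Kap X A) {R : Type} [CommRing R]

/-- the cup-one product of twisted cochains -/
def cup1 (χ χ' : Chr A R) {p q n : ℕ} (h : p + q = n + 1) (a : X.S p → R) (b : X.S q → R)
    (s : X.S n) : R :=
  cup1S (hat κ χ s a) (hat κ χ' s b) h (RelEmbedding.refl _)

theorem hat_cup1 (χ χ' : Chr A R) {p q n m : ℕ} (h : p + q = n + 1) (a : X.S p → R)
    (b : X.S q → R) (s : X.S m) (f : Emb n m) :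
    hat κ (χ * χ') s (cup1 κ χ χ' h a b) f = cup1S (hat κ χ s a) (hat κ χ' s b) h f := by
  rw [hat, cup1]
  unfold cup1S
  by_cases hq : 0 < q
  · rw [dif_pos hq, dif_pos hq, Finset.mul_sum]
    refine Finset.sum_congr rfl fun i _ => ?_
    rw [← hat_trans κ χ s a (c1a h hq i) f, ← hat_trans κ χ' s b (c1b h i) f, cv_mul]
    have e1 : (c1a h hq i).trans (RelEmbedding.refl _) = c1a h hq i := rfl
    have e2 : (c1b h i).trans (RelEmbedding.refl _) = c1b h i := rfl
    rw [e1, e2]
    ring
  · rw [dif_neg hq, dif_neg hq, mul_zero]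

/-- symmetry of the cup product of twisted cochains in total degree 4 -/
theorem cup_comm (χ χ' : Chr A R) {p q : ℕ} (h : p + q = 4) (a : X.S p → R)
    (b : X.S q → R) (s : X.S 4) :
    cup κ χ χ' h a b s - (-1) ^ (p * q) * cup κ χ' χ (show q + p = 4 by omega) b a s
      = cup1 κ χ χ' (show (p + 1) + q = 4 + 1 by omega) (del κ χ a) b s
        + (-1) ^ p * cup1 κ χ χ' (show p + (q + 1) = 4 + 1 by omega) a (del κ χ' b) s
        - del κ (χ * χ') (cup1 κ χ χ' (show p + q = 3 + 1 by omega) a b) s := by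
  have h1 : ∀ f, hat κ (χ * χ') s (cup1 κ χ χ' (show p + q = 3 + 1 by omega) a b) f
      = cup1S (hat κ χ s a) (hat κ χ' s b) (show p + q = 3 + 1 by omega) f :=
    fun f => hat_cup1 κ χ χ' _ a b s f
  have h2 : ∀ f, hat κ χ s (del κ χ a) f = sdel (hat κ χ s a) f := fun f => hat_del κ χ s a f
  have h3 : ∀ f, hat κ χ' s (del κ χ' b) f = sdel (hat κ χ' s b) f := fun f => hat_del κ χ' s b f
  rw [del_eq, funext h1]
  unfold cup1
  rw [funext h2, funext h3, ← steenS (hat κ χ s a) (hat κ χ' s b) h (RelEmbedding.refl _)]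
  rfl

end cup

end Pool.Agent.PD4.Top
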