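import Mathlib

/-!
# Finite Delta-complexes, cocycles of degree one, twisted cochains

A Delta-complex is a contravariant functor on the injective order preserving maps
`{0,...,m} → {0,...,n}`: `X.S n` is the set of `n`-simplices, `X.map f s` is the face of `s`
with the vertices `f 0 < ... < f m`.

`Kap X A` is an `A`-valued cocycle on the edges (a homomorphism from the fundamental group(oid)
to `A`).  For a character `χ` of `A` with values in a commutative ring `R` the twisted
coboundary of a cochain `a : X.S p → R` is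
`(del χ a) s = χ(κ(01)) a(d_0 s) + ∑_{i ≥ 1} (-1)^i a(d_i s)`.

Proof technique: on one simplex `s` the hatted cochain
`hat s a f = χ(κ_s(0, f 0)) * a (X.map f s)` makes everything untwisted.
-/

namespace Pool.Agent.PD4.Top

open Finset

/-- order embeddings between vertex sets of simplices of dimensions `m` and `n` -/
abbrev Emb (m n : ℕ) := Fin (m + 1) ↪o Fin (n + 1)

/-- a Delta-complex: simplices of dimension `n`, faces along order embeddings -/
structure DeltaCx where
  S : ℕ → Type
  map : ∀ {m n : ℕ}, Emb m n → S n → S m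
  map_id : ∀ {n : ℕ} (s : S n), map (RelEmbedding.refl _) s = s
  map_comp : ∀ {l m n : ℕ} (f : Emb l m) (g : Emb m n) (s : S n),
    map (f.trans g) s = map f (map g s)

/-- the edge from the vertex `i` to the vertex `j` -/
def ed {n : ℕ} (i j : Fin (n + 1)) (h : i < j) : Emb 1 n :=
  OrderEmbedding.ofStrictMono (fun x : Fin 2 => if x = 0 then i else j) (by
    intro x y hxy
    fin_cases x <;> fin_cases y <;> simp_all)

@[simp] theorem ed_zero {n : ℕ} (i j : Fin (n + 1)) (h : i < j) : ed i j h 0 = i := by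
  simp [ed]

@[simp] theorem ed_one {n : ℕ} (i j : Fin (n + 1)) (h : i < j) : ed i j h 1 = j := by
  simp [ed]

/-- the triangle with the vertices `i`, `j`, `k` -/
def tri {n : ℕ} (i j k : Fin (n + 1)) (h : i < j) (h' : j < k) : Emb 2 n :=
  OrderEmbedding.ofStrictMono
    (fun x : Fin 3 => if x = 0 then i else if x = 1 then j else k) (by
    intro x y hxy
    have h2 : i < k := h.trans h'
    fin_cases x <;> fin_cases y <;> simp_all)

@[simp] theorem tri_zero {n : ℕ} (i j k : Fin (n + 1)) (h : i < j) (h' : j < k) :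
    tri i j k h h' 0 = i := by simp [tri]

@[simp] theorem tri_one {n : ℕ} (i j k : Fin (n + 1)) (h : i < j) (h' : j < k) :
    tri i j k h h' 1 = j := by simp [tri]

@[simp] theorem tri_two {n : ℕ} (i j k : Fin (n + 1)) (h : i < j) (h' : j < k) :
    tri i j k h h' 2 = k := by simp [tri]

/-- an `A`-valued cocycle on the edges of `X` -/
structure Kap (X : DeltaCx) (A : Type) [AddCommGroup A] where
  k : X.S 1 → A
  coc : ∀ s : X.S 2, k (X.map (ed 0 2 (by decide)) s)
    = k (X.map (ed 0 1 (by decide)) s) + k (X.map (ed 1 2 (by decide)) s)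

variable {X : DeltaCx} {A : Type} [AddCommGroup A] (κ : Kap X A)

/-- the value of the cocycle on the edge from `i` to `j` of the simplex `s` (for `i ≤ j`) -/
def Kap.kk {n : ℕ} (s : X.S n) (i j : Fin (n + 1)) : A :=
  if h : i < j then κ.k (X.map (ed i j h) s) else 0

theorem Kap.kk_self {n : ℕ} (s : X.S n) (i : Fin (n + 1)) : κ.kk s i i = 0 := by
  simp [Kap.kk]

theorem ed_trans {m n : ℕ} (f : Emb m n) (i j : Fin (m + 1)) (h : i < j) :
    (ed i j h).trans f = ed (f i) (f j) (f.lt_iff_lt.2 h) := by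
  ext x
  fin_cases x <;> simp

theorem Kap.kk_map {m n : ℕ} (f : Emb m n) (s : X.S n) (i j : Fin (m + 1)) :
    κ.kk (X.map f s) i j = κ.kk s (f i) (f j) := by
  unfold Kap.kk
  by_cases h : i < j
  · have h' : f i < f j := f.lt_iff_lt.2 h
    rw [dif_pos h, dif_pos h', ← X.map_comp, ed_trans]
  · have h' : ¬ f i < f j := fun h1 => h (f.lt_iff_lt.1 h1)
    rw [dif_neg h, dif_neg h']

theorem Kap.kk_add {n : ℕ} (s : X.S n) {i j k : Fin (n + 1)} (h : i ≤ j) (h' : j ≤ k) :
    κ.kk s i k = κ.kk s i j + κ.kk s j k := by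
  rcases h.eq_or_lt with rfl | h1
  · rw [κ.kk_self, zero_add]
  rcases h'.eq_or_lt with rfl | h2
  · rw [κ.kk_self, add_zero]
  have e := κ.coc (X.map (tri i j k h1 h2) s)
  have e1 : ∀ (a b : Fin 3) (hab : a < b), κ.k (X.map (ed a b hab) (X.map (tri i j k h1 h2) s))
      = κ.kk s (tri i j k h1 h2 a) (tri i j k h1 h2 b) := by
    intro a b hab
    rw [← κ.kk_map, Kap.kk, dif_pos hab]
  rw [e1, e1, e1] at e
  simpa using e

/-- characters of `A` with values in the ring `R` -/
abbrev Chr (A R : Type) [AddCommGroup A] [CommRing R] := Multiplicative A →* R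

variable {R : Type} [CommRing R]

/-- value of a character -/
def cv (χ : Chr A R) (a : A) : R := χ (Multiplicative.ofAdd a)

@[simp] theorem cv_zero (χ : Chr A R) : cv χ (0 : A) = 1 := by
  simp [cv]

theorem cv_add (χ : Chr A R) (a b : A) : cv χ (a + b) = cv χ a * cv χ b := by
  simp [cv]

theorem cv_one (a : A) : cv (1 : Chr A R) a = 1 := by
  simp [cv]

theorem cv_mul (χ χ' : Chr A R) (a : A) : cv (χ * χ') a = cv χ a * cv χ' a := by
  simp [cv]

/-- the face opposite to the vertex `i` -/
def fc {n : ℕ} (i : Fin (n + 2)) : Emb n (n + 1) := Fin.succAboveOrderEmb i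

@[simp] theorem fc_apply {n : ℕ} (i : Fin (n + 2)) (j : Fin (n + 1)) :
    fc i j = i.succAbove j := rfl

/-- the twisted coboundary -/
def del (χ : Chr A R) {p : ℕ} (a : X.S p → R) (s : X.S (p + 1)) : R :=
  ∑ i : Fin (p + 2), (-1) ^ (i : ℕ) * (cv χ (κ.kk s 0 (fc i 0)) * a (X.map (fc i) s))

/-- the cochain on the standard simplex defined by a twisted cochain and a simplex -/
def hat (χ : Chr A R) {n : ℕ} (s : X.S n) {m : ℕ} (a : X.S m → R) (f : Emb m n) : R :=
  cv χ (κ.kk s 0 (f 0)) * a (X.map f s)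

/-- the coboundary of cochains on the standard simplex -/
def sdel {n p : ℕ} (c : Emb p n → R) (f : Emb (p + 1) n) : R :=
  ∑ i : Fin (p + 2), (-1) ^ (i : ℕ) * c ((fc i).trans f)

theorem hat_refl (χ : Chr A R) {n : ℕ} (s : X.S n) (a : X.S n → R) :
    hat κ χ s a (RelEmbedding.refl _) = a s := by
  simp [hat, X.map_id, κ.kk_self]

theorem hat_del (χ : Chr A R) {n : ℕ} (s : X.S n) {p : ℕ} (a : X.S p → R) (f : Emb (p + 1) n) :
    hat κ χ s (del κ χ a) f = sdel (hat κ χ s a) f := by
  unfold hat del sdel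
  rw [Finset.mul_sum]
  refine Finset.sum_congr rfl fun i _ => ?_
  have h1 : κ.kk s 0 (((fc i).trans f) 0) = κ.kk s 0 (f 0) + κ.kk (X.map f s) 0 (fc i 0) := by
    rw [κ.kk_map]
    exact κ.kk_add s (Fin.zero_le _) (f.monotone (Fin.zero_le _))
  beta_reduce
  rw [h1, cv_add, X.map_comp]
  ring

theorem del_eq (χ : Chr A R) {p : ℕ} (a : X.S p → R) (s : X.S (p + 1)) :
    del κ χ a s = sdel (hat κ χ s a) (RelEmbedding.refl _) := by
  rw [← hat_del, hat_refl]

end Pool.Agent.PD4.Top
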