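import Pool.Agent.PD4.Top.Model

/-!
# A finite Delta-complex is its own finite model
-/

namespace Pool.Agent.PD4.Top

open Matrix

section

variable {X : DeltaCx} {n : ℕ}

/-- the simplices of dimension `≤ N` -/
abbrev FI (X : DeltaCx) (N : ℕ) := Σ k : Fin (N + 1), X.S k

/-- chains of degree `k` as functions on all simplices -/
noncomputable def fh (N k : ℕ) : (X.S k →₀ Lam n) →ₗ[Lam n] (FI X N → Lam n) where
  toFun x i := if h : (i.1 : ℕ) = k then x (h ▸ i.2) else 0
  map_add' x y := by
    funext i
    by_cases h : (i.1 : ℕ) = k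
    · simp only [dif_pos h, Pi.add_apply, Finsupp.add_apply]
    · simp only [dif_neg h, Pi.add_apply, add_zero]
  map_smul' r x := by
    funext i
    by_cases h : (i.1 : ℕ) = k
    · simp only [dif_pos h, Pi.smul_apply, Finsupp.smul_apply, RingHom.id_apply]
    · simp only [dif_neg h, Pi.smul_apply, smul_zero, RingHom.id_apply]

/-- the component of degree `k` of a function on all simplices -/
noncomputable def fg (N k : ℕ) [Finite (X.S k)] : (FI X N → Lam n) →ₗ[Lam n] (X.S k →₀ Lam n) where
  toFun y := if hk : k < N + 1 then Finsupp.equivFunOnFinite.symm (fun s => y ⟨⟨k, hk⟩, s⟩) else 0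
  map_add' x y := by
    by_cases h : k < N + 1
    · simp only [dif_pos h]
      ext s
      rfl
    · simp only [dif_neg h, add_zero]
  map_smul' r x := by
    by_cases h : k < N + 1
    · simp only [dif_pos h]
      ext s
      rfl
    · simp only [dif_neg h, smul_zero]

theorem fh_apply (N k : ℕ) (x : X.S k →₀ Lam n) (hk : k < N + 1) (s : X.S k) :
    fh N k x ⟨⟨k, hk⟩, s⟩ = x s := by
  simp [fh]

theorem fh_ne (N k : ℕ) (x : X.S k →₀ Lam n) (i : FI X N) (h : (i.1 : ℕ) ≠ k) :
    fh N k x i = 0 := by
  simp [fh, h]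

theorem fg_apply (N k : ℕ) [Finite (X.S k)] (y : FI X N → Lam n) (hk : k < N + 1) (s : X.S k) :
    fg N k y s = y ⟨⟨k, hk⟩, s⟩ := by
  simp [fg, hk]

theorem fg_fh (N k : ℕ) [Finite (X.S k)] (hN : N < k → IsEmpty (X.S k)) (x : X.S k →₀ Lam n) :
    fg N k (fh N k x) = x := by
  ext1 s
  by_cases hk : k < N + 1
  · rw [fg_apply N k _ hk, fh_apply]
  · exact ((hN (by omega)).false s).elim

theorem fg_fh_ne (N : ℕ) {k j : ℕ} [Finite (X.S k)] (h : j ≠ k) (x : X.S j →₀ Lam n) :
    fg N k (fh N j x) = 0 := by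
  ext1 s
  by_cases hk : k < N + 1
  · rw [fg_apply N k _ hk, fh_ne N j x _ (fun e => h e.symm)]
    rfl
  · simp [fg, hk]

theorem fh_fg (N k : ℕ) [Finite (X.S k)] (y : FI X N → Lam n) (i : FI X N) :
    fh N k (fg N k y) i = if (i.1 : ℕ) = k then y i else 0 := by
  by_cases h : (i.1 : ℕ) = k
  · rw [if_pos h]
    obtain ⟨⟨j, hj⟩, s⟩ := i
    simp only at h
    subst h
    rw [fh_apply, fg_apply N j y hj]
  · rw [if_neg h, fh_ne N k _ i h]

end

section

variable {X : DeltaCx} {n : ℕ} (κ : Kap X (Fin n → ℤ)) (N : ℕ) [∀ k, Finite (X.S k)]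

/-- the boundary as an endomorphism of the functions on all simplices -/
noncomputable def fD : (FI X N → Lam n) →ₗ[Lam n] (FI X N → Lam n) :=
  ∑ k ∈ Finset.range (N + 1), fh N k ∘ₗ bd κ tau k ∘ₗ fg N (k + 1)

theorem fg_fD (hN : ∀ k, N < k → IsEmpty (X.S k)) (k : ℕ) (y : FI X N → Lam n) :
    fg N k (fD κ N y) = bd κ tau k (fg N (k + 1) y) := by
  by_cases hk : k < N + 1
  · rw [fD, LinearMap.sum_apply, map_sum, Finset.sum_eq_single k]
    · simp only [LinearMap.comp_apply]
      rw [fg_fh N k (hN k)]
    · intro j _ hj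
      simp only [LinearMap.comp_apply]
      rw [fg_fh_ne N hj]
    · intro h
      exact absurd (Finset.mem_range.2 hk) h
  · ext s
    exact ((hN k (by omega)).false s).elim

theorem fD_fh (hN : ∀ k, N < k → IsEmpty (X.S k)) (k : ℕ) (x : X.S (k + 1) →₀ Lam n) :
    fD κ N (fh N (k + 1) x) = fh N k (bd κ tau k x) := by
  rw [fD, LinearMap.sum_apply]
  by_cases hk : k < N + 1
  · rw [Finset.sum_eq_single k]
    · simp only [LinearMap.comp_apply]
      rw [fg_fh N (k + 1) (hN (k + 1))]
    · intro j _ hj
      simp only [LinearMap.comp_apply]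
      rw [fg_fh_ne N (by omega), map_zero, map_zero]
    · intro h
      exact absurd (Finset.mem_range.2 hk) h
  · have hx : x = 0 := by
      ext s
      exact ((hN (k + 1) (by omega)).false s).elim
    subst hx
    simp only [map_zero, Finset.sum_const_zero]

end

section square

variable {R : Type} [CommRing R]

theorem sdel_sdel {n p : ℕ} (c : Emb p n → R) (f : Emb (p + 2) n) :
    sdel (sdel c) f = 0 := by
  unfold sdel
  simp only [Finset.mul_sum]
  rw [← Finset.sum_product', Finset.univ_product_univ]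
  refine Finset.sum_involution
    (fun (a : Fin (p + 1 + 2) × Fin (p + 2)) _ => (a.1.succAbove a.2, a.2.predAbove a.1))
    ?_ ?_ (fun _ _ => Finset.mem_univ _) ?_
  · rintro ⟨i, j⟩ _
    simp only
    have e : (fc (j.predAbove i)).trans ((fc (i.succAbove j)).trans f) =
        (fc j).trans ((fc i).trans f) := by
      ext x
      change ((f ((i.succAbove j).succAbove ((j.predAbove i).succAbove x)) : Fin (n + 1)) : ℕ) =
        (f (i.succAbove (j.succAbove x)) : Fin (n + 1))
      rw [Fin.succAbove_succAbove_succAbove_predAbove]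
    rw [e, ← mul_assoc, ← mul_assoc, ← pow_add, ← pow_add,
      Fin.neg_one_pow_succAbove_add_predAbove, ← add_mul]
    ring
  · rintro ⟨i, j⟩ _ _ h
    have h1 := congrArg Prod.fst h
    exact Fin.succAbove_ne i j h1
  · rintro ⟨i, j⟩ _
    simp only [Fin.succAbove_succAbove_predAbove, Fin.predAbove_predAbove_succAbove]

variable {X : DeltaCx} {A : Type} [AddCommGroup A] (κ : Kap X A)

theorem del_del (χ : Chr A R) {p : ℕ} (a : X.S p → R) : del κ χ (del κ χ a) = 0 := by
  funext s
  rw [del_eq]
  have h : hat κ χ s (del κ χ a) = sdel (hat κ χ s a) := by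
    funext f
    exact hat_del κ χ s a f
  rw [h]
  exact sdel_sdel _ _

theorem bd_bd (χ : Chr A R) (k : ℕ) (x : X.S (k + 2) →₀ R) :
    bd κ χ k (bd κ χ (k + 1) x) = 0 := by
  apply pair_ext
  intro b
  rw [pair_bd, pair_bd, del_del, map_zero]
  have h : pair (L := R) (0 : X.S (k + 2) → R) = 0 := by
    ext s
    simp [pair_single]
  rw [h, LinearMap.zero_apply]

end square

section model

variable {X : DeltaCx} {n : ℕ}

theorem fD_entry (κ : Kap X (Fin n → ℤ)) (N : ℕ) [∀ k, Finite (X.S k)] (y : FI X N → Lam n)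
    (j i : FI X N) (hy : ∀ a, a ≠ j → y a = 0) (h : fD κ N y i ≠ 0) :
    (j.1 : ℕ) = (i.1 : ℕ) + 1 := by
  classical
  rw [fD, LinearMap.sum_apply, Finset.sum_apply] at h
  obtain ⟨k, _, hk⟩ := Finset.exists_ne_zero_of_sum_ne_zero h
  simp only [LinearMap.comp_apply] at hk
  have h1 : (i.1 : ℕ) = k := by
    by_contra hne
    exact hk (fh_ne N k _ i hne)
  have h2 : fg N (k + 1) y ≠ 0 := by
    intro h0
    rw [h0, map_zero, map_zero] at hk
    exact hk rfl
  obtain ⟨s, hs⟩ := Finsupp.ne_iff.1 h2
  by_cases hk1 : k + 1 < N + 1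
  · rw [fg_apply N (k + 1) y hk1] at hs
    have h3 : (⟨⟨k + 1, hk1⟩, s⟩ : FI X N) = j := by
      by_contra hne
      exact hs (hy _ hne)
    rw [← h3, h1]
  · simp [fg, hk1] at hs

/-- **a finite Delta-complex is its own finite model** -/
noncomputable def finModel (κ : Kap X (Fin n → ℤ)) (N : ℕ) [fS : ∀ k, Fintype (X.S k)]
    (hN : ∀ k, N < k → IsEmpty (X.S k)) : FinModel κ :=
  letI : DecidableEq (FI X N) := Classical.decEq _
  { I := FI X N
    fI := inferInstance
    dI := inferInstance
    deg := fun i => i.1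
    d := LinearMap.toMatrix' (fD κ N)
    hd := by
      intro i j h
      rw [LinearMap.toMatrix'_apply] at h
      exact fD_entry κ N _ j i (fun a ha => Pi.single_eq_of_ne ha _) h
    dd := by
      rw [← LinearMap.toMatrix'_comp]
      have h : fD κ N ∘ₗ fD κ N = 0 := by
        apply LinearMap.ext
        intro y
        have e : ∀ w, fD κ N w =
            ∑ k ∈ Finset.range (N + 1), fh N k (bd κ tau k (fg N (k + 1) w)) := by
          intro w
          rw [fD, LinearMap.sum_apply]
          rfl
        rw [LinearMap.comp_apply, LinearMap.zero_apply, e (fD κ N y)]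
        refine Finset.sum_eq_zero fun k _ => ?_
        rw [fg_fD κ N hN, bd_bd, map_zero]
      rw [h, map_zero]
    h := fun k => fh N k
    h_supp := by
      intro k x i h
      by_contra hne
      exact h (fh_ne N k x i hne)
    h_bd := by
      intro k x
      rw [← Matrix.toLin'_apply, Matrix.toLin'_toMatrix', fD_fh κ N hN]
    g := fun k => fg N k
    g_supp := by
      intro k y h
      ext1 s
      by_cases hk : k < N + 1
      · rw [fg_apply N k y hk, Finsupp.zero_apply]
        exact h _ rfl
      · exact ((hN k (by omega)).false s).elim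
    g_bd := by
      intro k y
      rw [← Matrix.toLin'_apply, Matrix.toLin'_toMatrix', fg_fD κ N hN]
    P := fun _ => 0
    P_zero := by
      intro x
      rw [fg_fh N 0 (hN 0), sub_self, LinearMap.zero_apply, map_zero]
    P_succ := by
      intro k x
      rw [fg_fh N (k + 1) (hN (k + 1)), sub_self, LinearMap.zero_apply, map_zero,
        LinearMap.zero_apply, add_zero]
    Q := 0
    hQ := fun i j h => absurd rfl h
    Q_eq := by
      intro k y hy
      rw [Matrix.zero_mulVec, Matrix.zero_mulVec, Matrix.mulVec_zero, add_zero]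
      funext i
      rw [Pi.sub_apply, fh_fg, Pi.zero_apply]
      by_cases h : (i.1 : ℕ) = k
      · rw [if_pos h, sub_self]
      · rw [if_neg h, zero_sub, neg_eq_zero]
        by_contra hne
        exact h (hy i hne) }

end model

end Pool.Agent.PD4.Top
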