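import Pool.Agent.PD4.Top.Chain

/-!
# The twisted chain complex over `ℤ[ℤⁿ]`: `H₀ = ℤ` and `H₁ = 0`

`Lam n = ℤ[ℤⁿ]`, `tau : ℤⁿ → (ℤ[ℤⁿ])ˣ` the tautological character.  For a cocycle
`κ : Kap X (Fin n → ℤ)` the complex `(X.S k →₀ Lam n, bd κ tau k)` is the chain complex of the
covering of `X` defined by `κ`, as a complex of `ℤ[ℤⁿ]`-modules.
-/

namespace Pool.Agent.PD4.Top

/-- the group ring `ℤ[ℤⁿ]` -/
abbrev Lam (n : ℕ) := AddMonoidAlgebra ℤ (Fin n → ℤ)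

/-- the tautological character `m ↦ t^m` -/
noncomputable def tau {n : ℕ} : Chr (Fin n → ℤ) (Lam n) := AddMonoidAlgebra.of ℤ (Fin n → ℤ)

theorem cv_tau {n : ℕ} (m : Fin n → ℤ) : cv (tau (n := n)) m = AddMonoidAlgebra.single m 1 := rfl

/-- the augmentation `ℤ[ℤⁿ] → ℤ`, `t^m ↦ 1` -/
noncomputable def epsL {n : ℕ} : Lam n →+* ℤ :=
  ((AddMonoidAlgebra.lift ℤ ℤ (Fin n → ℤ)) 1).toRingHom

/-- the augmentation of the complex: `t^m e_v ↦ 1` for every vertex `v` -/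
noncomputable def aug {X : DeltaCx} {n : ℕ} (x : X.S 0 →₀ Lam n) : ℤ := x.sum fun _ a => epsL a

/-- `H₀ = ℤ` (via the augmentation) and `H₁ = 0` for the covering defined by `κ` -/
structure LowExact {X : DeltaCx} {n : ℕ} (κ : Kap X (Fin n → ℤ)) : Prop where
  ne : Nonempty (X.S 0)
  ex0 : ∀ x : X.S 0 →₀ Lam n, aug x = 0 → ∃ y, bd κ tau 0 y = x
  ex1 : ∀ x : X.S 1 →₀ Lam n, bd κ tau 0 x = 0 → ∃ y, bd κ tau 1 y = x

end Pool.Agent.PD4.Top
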