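import Pool.Agent.PD4.Top.Low

/-!
# Low exactness from two properties of the 2-skeleton

(P1) every two vertices are joined by an edge with any prescribed value of `κ`;
(P2) a triangle of edges on which `κ` is additive is the boundary of a 2-simplex.
Then the twisted complex over `ℤ[ℤⁿ]` has `H₀ = ℤ` and `H₁ = 0`.
-/

namespace Pool.Agent.PD4.Top

open Finset

variable {X : DeltaCx} {n : ℕ} (κ : Kap X (Fin n → ℤ))

theorem kk_one_eq {A : Type} [AddCommGroup A] (κ : Kap X A) (e : X.S 1) :
    κ.kk e 0 1 = κ.k e := by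
  have h : ed (0 : Fin 2) 1 (by decide) = RelEmbedding.refl _ := by
    ext x
    fin_cases x <;> simp
  rw [Kap.kk, dif_pos (by decide), h, X.map_id]

theorem kk_two_eq {A : Type} [AddCommGroup A] (κ : Kap X A) (s : X.S 2) :
    κ.kk s 0 1 = κ.k (X.map (fc 2) s) := by
  have h : ed (0 : Fin 3) 1 (by decide) = fc 2 := by
    ext x
    fin_cases x <;> simp [Fin.succAbove]
  rw [Kap.kk, dif_pos (by decide), h]

/-- boundary of an edge -/
theorem bd_edge (e : X.S 1) (r : Lam n) :
    bd κ tau 0 (Finsupp.single e r)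
      = Finsupp.single (X.map (fc 0) e) (r * cv tau (κ.k e))
        - Finsupp.single (X.map (fc 1) e) r := by
  rw [bd_single, Fin.sum_univ_two]
  have h0 : κ.kk e 0 (fc (0 : Fin 2) 0) = κ.k e := by
    have : fc (0 : Fin 2) (0 : Fin 1) = 1 := by simp
    rw [this, kk_one_eq]
  have h1 : κ.kk e 0 (fc (1 : Fin 2) 0) = 0 := by
    have : fc (1 : Fin 2) (0 : Fin 1) = 0 := by simp
    rw [this, κ.kk_self]
  rw [h0, h1, cv_zero]
  simp [sub_eq_add_neg]

/-- boundary of a triangle -/
theorem bd_tri (s : X.S 2) (r : Lam n) :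
    bd κ tau 1 (Finsupp.single s r)
      = Finsupp.single (X.map (fc 0) s) (r * cv tau (κ.k (X.map (fc 2) s)))
        - Finsupp.single (X.map (fc 1) s) r + Finsupp.single (X.map (fc 2) s) r := by
  rw [bd_single, Fin.sum_univ_three]
  have h0 : κ.kk s 0 (fc (0 : Fin 3) 0) = κ.k (X.map (fc 2) s) := by
    have : fc (0 : Fin 3) (0 : Fin 2) = 1 := by simp
    rw [this, kk_two_eq]
  have h1 : κ.kk s 0 (fc (1 : Fin 3) 0) = 0 := by
    have : fc (1 : Fin 3) (0 : Fin 2) = 0 := by simp [Fin.succAbove]
    rw [this, κ.kk_self]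
  have h2 : κ.kk s 0 (fc (2 : Fin 3) 0) = 0 := by
    have : fc (2 : Fin 3) (0 : Fin 2) = 0 := by simp [Fin.succAbove]
    rw [this, κ.kk_self]
  rw [h0, h1, h2, cv_zero]
  simp [sub_eq_add_neg]

theorem epsL_single (a : Fin n → ℤ) (m : ℤ) : epsL (AddMonoidAlgebra.single a m) = m := by
  simp [epsL]

theorem aug_zero : aug (0 : X.S 0 →₀ Lam n) = 0 := by
  simp [aug]

theorem aug_add (x y : X.S 0 →₀ Lam n) : aug (x + y) = aug x + aug y := by
  classical
  exact Finsupp.sum_add_index' (by simp) (by simp)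

theorem aug_single (v : X.S 0) (r : Lam n) : aug (Finsupp.single v r) = epsL r := by
  simp [aug]

/-- induction on chains with coefficients in `ℤ[ℤⁿ]` -/
theorem chain_ind {S : Type} {motive : (S →₀ Lam n) → Prop} (x : S →₀ Lam n)
    (zero : motive 0) (add : ∀ x y, motive x → motive y → motive (x + y))
    (single : ∀ s a m, motive (Finsupp.single s (AddMonoidAlgebra.single a m))) : motive x := by
  induction x using Finsupp.induction_linear with
  | zero => exact zero
  | add f g hf hg => exact add f g hf hg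
  | single s r =>
    induction r using AddMonoidAlgebra.induction_linear with
    | zero => simpa using zero
    | add f g hf hg =>
      rw [Finsupp.single_add]
      exact add _ _ hf hg
    | single a m => exact single s a m

/-- the cone on `0`-chains -/
noncomputable def coneH (E : X.S 0 → (Fin n → ℤ) → X.S 1) :
    (X.S 0 →₀ Lam n) →+ (X.S 1 →₀ Lam n) :=
  Finsupp.liftAddHom fun v =>
    (Finsupp.liftAddHom fun a => (Finsupp.singleAddHom (E v a)).comp
      (AddMonoidAlgebra.singleAddHom (0 : Fin n → ℤ))).comp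
      AddMonoidAlgebra.coeffAddEquiv.toAddMonoidHom

theorem coneH_single (E : X.S 0 → (Fin n → ℤ) → X.S 1) (v : X.S 0) (a : Fin n → ℤ) (m : ℤ) :
    coneH E (Finsupp.single v (AddMonoidAlgebra.single a m))
      = Finsupp.single (E v a) (AddMonoidAlgebra.single 0 m) := by
  simp [coneH]

theorem lowExact_of (hne : Nonempty (X.S 0))
    (P1 : ∀ (v w : X.S 0) (a : Fin n → ℤ),
      ∃ e : X.S 1, X.map (fc 1) e = v ∧ X.map (fc 0) e = w ∧ κ.k e = a)
    (P2 : ∀ p q r : X.S 1, X.map (fc 1) p = X.map (fc 1) r → X.map (fc 0) p = X.map (fc 1) q →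
      X.map (fc 0) q = X.map (fc 0) r → κ.k r = κ.k p + κ.k q →
      ∃ s : X.S 2, X.map (fc 0) s = q ∧ X.map (fc 1) s = r ∧ X.map (fc 2) s = p) :
    LowExact κ := by
  classical
  obtain ⟨v0⟩ := hne
  choose E hE1 hE0 hEk using P1 v0
  refine ⟨⟨v0⟩, ?_, ?_⟩
  · intro x hx
    have key : ∀ x : X.S 0 →₀ Lam n,
        ∃ y, bd κ tau 0 y = x - Finsupp.single v0 (AddMonoidAlgebra.single 0 (aug x)) := by
      intro x
      induction x using chain_ind with
      | zero => exact ⟨0, by simp [aug_zero]⟩
      | add x y hx hy =>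
        obtain ⟨a, ha⟩ := hx
        obtain ⟨b, hb⟩ := hy
        refine ⟨a + b, ?_⟩
        rw [map_add, ha, hb, aug_add, AddMonoidAlgebra.single_add, Finsupp.single_add]
        abel
      | single v a m =>
        refine ⟨Finsupp.single (E v a) (AddMonoidAlgebra.single 0 m), ?_⟩
        rw [bd_edge, hE0, hE1, hEk, cv_tau, AddMonoidAlgebra.single_mul_single, zero_add, mul_one,
          aug_single, epsL_single]
    obtain ⟨y, hy⟩ := key x
    rw [hx, AddMonoidAlgebra.single_zero, Finsupp.single_zero, sub_zero] at hy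
    exact ⟨y, hy⟩
  · intro x hx
    have key : ∀ x : X.S 1 →₀ Lam n, ∃ y, bd κ tau 1 y = x - coneH E (bd κ tau 0 x) := by
      intro x
      induction x using chain_ind with
      | zero => exact ⟨0, by simp⟩
      | add x y hx hy =>
        obtain ⟨a, ha⟩ := hx
        obtain ⟨b, hb⟩ := hy
        refine ⟨a + b, ?_⟩
        rw [map_add, ha, hb, map_add, map_add]
        abel
      | single e a m =>
        obtain ⟨s, hs0, hs1, hs2⟩ := P2 (E (X.map (fc 1) e) a) e
          (E (X.map (fc 0) e) (a + κ.k e)) (by rw [hE1, hE1]) (by rw [hE0]) (by rw [hE0])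
          (by rw [hEk, hEk])
        refine ⟨Finsupp.single s (AddMonoidAlgebra.single 0 m), ?_⟩
        rw [bd_tri, hs0, hs1, hs2, hEk, bd_edge, cv_tau, cv_tau,
          AddMonoidAlgebra.single_mul_single, AddMonoidAlgebra.single_mul_single, zero_add,
          mul_one, map_sub, coneH_single, coneH_single]
        abel
    obtain ⟨y, hy⟩ := key x
    rw [hx, map_zero, sub_zero] at hy
    exact ⟨y, hy⟩

end Pool.Agent.PD4.Top
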