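import Pool.Agent.PD4.Top.Delta

/-!
# The Delta-complex of the singular simplices of a space

`singCx X` has the `n`-simplices `C(Sx n, X)`, `Sx n` the standard simplex with `n + 1` vertices.
`toI`, `ofI` identify `Sx 1` with the unit interval (the vertex `0` with `0`, the vertex `1`
with `1`).
-/

namespace Pool.Agent.PD4.Top

open scoped unitInterval

/-- the standard simplex of dimension `n` -/
abbrev Sx (n : ℕ) : Type := stdSimplex ℝ (Fin (n + 1))

/-- the face inclusion of standard simplices -/
noncomputable def sxMap {m n : ℕ} (f : Emb m n) : C(Sx m, Sx n) :=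
  ⟨stdSimplex.map f, stdSimplex.continuous_map f⟩

theorem sxMap_apply {m n : ℕ} (f : Emb m n) (y : Sx m) (i : Fin (m + 1)) :
    sxMap f y (f i) = y i := by
  change FunOnFinite.linearMap ℝ ℝ f y (f i) = y i
  rw [FunOnFinite.linearMap_apply_apply]
  have h : (Finset.univ.filter fun x : Fin (m + 1) => f x = f i) = {i} := by
    ext x
    simp
  rw [h, Finset.sum_singleton]

theorem sxMap_apply_zero {m n : ℕ} (f : Emb m n) (y : Sx m) (k : Fin (n + 1))
    (h : ∀ i, f i ≠ k) : sxMap f y k = 0 := by
  change FunOnFinite.linearMap ℝ ℝ f y k = 0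
  rw [FunOnFinite.linearMap_apply_apply]
  have h : (Finset.univ.filter fun x : Fin (m + 1) => f x = k) = ∅ := by
    ext x
    simp [h x]
  rw [h, Finset.sum_empty]

/-- the Delta-complex of the singular simplices of a space -/
noncomputable def singCx (X : Type) [TopologicalSpace X] : DeltaCx where
  S n := C(Sx n, X)
  map f s := s.comp (sxMap f)
  map_id s := by
    ext x
    exact congrArg s (stdSimplex.map_id_apply x)
  map_comp f g s := by
    ext x
    exact congrArg s (stdSimplex.map_comp_apply f g x).symm

/-- a singular simplex as a continuous map -/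
abbrev fn {X : Type} [TopologicalSpace X] {n : ℕ} (s : (singCx X).S n) : C(Sx n, X) := s

/-- a continuous map as a singular simplex -/
abbrev sg {X : Type} [TopologicalSpace X] {n : ℕ} (s : C(Sx n, X)) : (singCx X).S n := s

section

variable {X : Type} [TopologicalSpace X]

theorem singCx_map_apply {m n : ℕ} (f : Emb m n) (s : (singCx X).S n) (x : Sx m) :
    fn ((singCx X).map f s) x = fn s (sxMap f x) := rfl

theorem sing_ext {n : ℕ} {s t : (singCx X).S n} (h : ∀ x, fn s x = fn t x) : s = t :=
  ContinuousMap.ext h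

end

/-- the vertex `i` of the standard simplex -/
abbrev vx {n : ℕ} (i : Fin (n + 1)) : Sx n := stdSimplex.vertex i

theorem sxMap_vx {m n : ℕ} (f : Emb m n) (i : Fin (m + 1)) : sxMap f (vx i) = vx (f i) :=
  stdSimplex.map_vertex f i

/-- the coordinate of a point of the segment -/
noncomputable def toI : C(Sx 1, I) :=
  ⟨fun t => ⟨t 1, stdSimplex.zero_le t 1, stdSimplex.le_one t 1⟩,
    Continuous.subtype_mk ((continuous_apply 1).comp continuous_subtype_val) _⟩

theorem ofI_mem (t : I) : ![1 - (t : ℝ), t] ∈ stdSimplex ℝ (Fin (1 + 1)) := by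
  refine ⟨fun i => ?_, ?_⟩
  · fin_cases i
    · simpa using t.2.2
    · simpa using t.2.1
  · simp [Fin.sum_univ_two]

/-- the point of the segment with a given coordinate -/
noncomputable def ofI : C(I, Sx 1) :=
  ⟨fun t => ⟨![1 - (t : ℝ), t], ofI_mem t⟩,
    Continuous.subtype_mk (continuous_pi fun i => by
      fin_cases i
      · exact continuous_const.sub continuous_subtype_val
      · exact continuous_subtype_val) _⟩

theorem ofI_apply_zero (t : I) : ofI t 0 = 1 - t := rfl

theorem ofI_apply_one (t : I) : ofI t 1 = t := rfl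

theorem toI_coe (t : Sx 1) : (toI t : ℝ) = t 1 := rfl

theorem sx1_ext {s t : Sx 1} (h : s 1 = t 1) : s = t := by
  have h1 := stdSimplex.sum_eq_one s
  have h2 := stdSimplex.sum_eq_one t
  rw [Fin.sum_univ_two] at h1 h2
  refine stdSimplex.ext (funext fun i => ?_)
  fin_cases i
  · change s 0 = t 0
    linarith
  · exact h

theorem ofI_zero : ofI 0 = vx 0 := by
  refine sx1_ext ?_
  rw [ofI_apply_one]
  simp

theorem ofI_one : ofI 1 = vx 1 := by
  refine sx1_ext ?_
  rw [ofI_apply_one]
  simp

theorem toI_ofI (t : I) : toI (ofI t) = t := by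
  ext
  rfl

theorem ofI_toI (t : Sx 1) : ofI (toI t) = t := by
  refine sx1_ext ?_
  rw [ofI_apply_one, toI_coe]

theorem toI_vx_zero : toI (vx 0) = 0 := by
  rw [← ofI_zero, toI_ofI]

theorem toI_vx_one : toI (vx 1) = 1 := by
  rw [← ofI_one, toI_ofI]

end Pool.Agent.PD4.Top
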