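import Mathlib

/-!
# Four dimensional Poincaré complexes with fundamental group `ℤⁿ` and the classes they realise

All definitions of the final statement.  Everything is literal: a path connected space `X`, an
isomorphism `f : π₁(X, x0) ≃ ℤⁿ`, singular simplices, singular chains and cochains of `X` with
coefficients in `Λ = ℤ[π₁(X)] = ℤ[ℤⁿ]` (that is, the singular chain complex of the universal
covering of `X` as a complex of `Λ`-modules), cup and cap products.

* `Spc n`: a space `X` with base point, base paths and an isomorphism `π₁(X) ≃ ℤⁿ`.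
* `Spc.bd`, `Spc.cobd`: the complexes `C_*(X; Λ)` and `C^*(X; Λ) = Hom_Λ(C_*(X; Λ), Λ)`.
* `Spc.FinType`: `C_*(X; Λ)` is chain homotopy equivalent to a bounded complex of finitely
  generated free `Λ`-modules.
* `Spc.Duality z`: `z` is a 4-cycle and `z ∩ - : H^p(X; Λ) → H_{4-p}(X; Λ)` is bijective for all `p`.
* `PCx n`: four dimensional Poincaré complexes with fundamental group `ℤⁿ`.
* `PCx.Realizes`: `f_*[X] = ω ∩ [T]`, and the form of `X` on `H²(X; ℤ)` modulo torsion is
  isomorphic to `φ_ω`.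
-/

namespace Pool.Agent.PD4.Stmt

/-! ### The group ring `Λ = ℤ[ℤⁿ]` -/

/-- the group ring `Λ = ℤ[ℤⁿ]` -/
abbrev Lam (n : ℕ) := AddMonoidAlgebra ℤ (Fin n → ℤ)

/-- the unit `t^m` of `Λ`, for `m ∈ ℤⁿ` -/
noncomputable def tm {n : ℕ} (m : Fin n → ℤ) : Lam n := AddMonoidAlgebra.single m 1

/-- the involution `t^m ↦ t^{-m}` of `Λ` -/
noncomputable def conj {n : ℕ} : Lam n →+* Lam n :=
  AddMonoidAlgebra.mapDomainRingHom ℤ (-AddMonoidHom.id (Fin n → ℤ))

/-! ### Singular simplices -/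

/-- singular `k`-simplices of `X` -/
abbrev Simp (X : Type) [TopologicalSpace X] (k : ℕ) : Type := C(stdSimplex ℝ (Fin (k + 1)), X)

section faces

variable {X : Type} [TopologicalSpace X]

/-- the face of the singular simplex `s` with the vertices `g 0 < g 1 < ... < g j` -/
noncomputable def face {j k : ℕ} (g : Fin (j + 1) ↪o Fin (k + 1)) (s : Simp X k) : Simp X j :=
  s.comp ⟨stdSimplex.map g, stdSimplex.continuous_map g⟩

/-- the face of `s` opposite to the vertex `i` -/
noncomputable def fce {k : ℕ} (i : Fin (k + 2)) (s : Simp X (k + 1)) : Simp X k :=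
  face (Fin.succAboveOrderEmb i) s

/-- the edge of `s` from the vertex `i` to the vertex `j` -/
noncomputable def edge {k : ℕ} (i j : Fin (k + 1)) (h : i < j) (s : Simp X k) : Simp X 1 :=
  face (OrderEmbedding.ofStrictMono (fun x : Fin 2 => if x = 0 then i else j) (by
    intro x y hxy
    fin_cases x <;> fin_cases y <;> simp_all)) s

/-- the front face of dimension `p` of a simplex of dimension `p + q` -/
noncomputable def front {p q k : ℕ} (h : p + q = k) (s : Simp X k) : Simp X p :=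
  face (OrderEmbedding.ofStrictMono (fun x : Fin (p + 1) => (⟨x, by omega⟩ : Fin (k + 1)))
    (fun _ _ hxy => hxy)) s

/-- the back face of dimension `q` of a simplex of dimension `p + q` -/
noncomputable def back {p q k : ℕ} (h : p + q = k) (s : Simp X k) : Simp X q :=
  face (OrderEmbedding.ofStrictMono (fun x : Fin (q + 1) => (⟨p + x, by omega⟩ : Fin (k + 1)))
    (fun _ _ hxy => Nat.add_lt_add_left hxy p)) s

end faces

theorem seg_mem (t : unitInterval) : ![1 - (t : ℝ), t] ∈ stdSimplex ℝ (Fin (1 + 1)) := by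
  refine ⟨fun i => ?_, ?_⟩
  · fin_cases i
    · simpa using t.2.2
    · simpa using t.2.1
  · simp [Fin.sum_univ_two]

/-- the path `t ↦ (1 - t, t)` from the vertex `0` to the vertex `1` of the standard simplex of
dimension one -/
noncomputable def seg : C(unitInterval, stdSimplex ℝ (Fin (1 + 1))) :=
  ⟨fun t => ⟨![1 - (t : ℝ), t], seg_mem t⟩,
    Continuous.subtype_mk (continuous_pi fun i => by
      fin_cases i
      · exact continuous_const.sub continuous_subtype_val
      · exact continuous_subtype_val) _⟩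

/-- a singular simplex of dimension one as a path -/
noncomputable def epath {X : Type} [TopologicalSpace X] (e : Simp X 1) :
    Path (e (seg 0)) (e (seg 1)) where
  toFun t := e (seg t)
  continuous_toFun := e.continuous.comp seg.continuous
  source' := rfl
  target' := rfl

/-! ### Spaces with fundamental group `ℤⁿ` -/

/-- a space `X` with a base point `x0`, a path `τ x` from `x0` to every point `x` (so `X` is path
connected) and an isomorphism `f` of its fundamental group with `ℤⁿ` -/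
structure Spc (n : ℕ) where
  X : Type
  [top : TopologicalSpace X]
  x0 : X
  τ : ∀ x : X, Path x0 x
  f : FundamentalGroup X x0 ≃* Multiplicative (Fin n → ℤ)

attribute [instance] Spc.top

namespace Spc

variable {n : ℕ} (M : Spc n)

/-- the element `f [τ(e₀) · e · τ(e₁)⁻¹]` of `ℤⁿ` defined by a singular edge `e` with the vertices
`e₀`, `e₁` -/
noncomputable def hol1 (e : Simp M.X 1) : Fin n → ℤ :=
  Multiplicative.toAdd (M.f (FundamentalGroup.fromPath
    (((Path.Homotopic.Quotient.mk (M.τ (e (seg 0)))).trans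
      (Path.Homotopic.Quotient.mk (epath e))).trans
        (Path.Homotopic.Quotient.mk (M.τ (e (seg 1)))).symm)))

/-- the element of `ℤⁿ` defined by the edge from the vertex `i` to the vertex `j` of a singular
simplex (`0` if `i = j`) -/
noncomputable def hol {k : ℕ} (s : Simp M.X k) (i j : Fin (k + 1)) : Fin n → ℤ :=
  if h : i < j then M.hol1 (edge i j h s) else 0

/-- the first vertex of the face opposite to the vertex `i` -/
def fv {k : ℕ} (i : Fin (k + 2)) : Fin (k + 2) := i.succAbove 0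

/-- the boundary of `C_*(X; Λ)`: `∂ s = t^{hol(0,1)} d_0 s + ∑_{i > 0} (-1)^i d_i s`.  The basis
element `s` of `C_k(X; Λ)` is the lift of `s` to the universal covering which starts at the lift of
the first vertex of `s` given by the path `τ`. -/
noncomputable def bd (k : ℕ) : (Simp M.X (k + 1) →₀ Lam n) →ₗ[Lam n] (Simp M.X k →₀ Lam n) :=
  Finsupp.linearCombination (Lam n) fun s => ∑ i : Fin (k + 2),
    Finsupp.single (fce i s) ((-1) ^ (i : ℕ) * tm (M.hol s 0 (fv i)))

/-- the coboundary of `C^*(X; Λ) = Hom_Λ(C_*(X; Λ), Λ)`; a cochain is given by its values on the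
basis elements of `C_k(X; Λ)` -/
noncomputable def cobd {k : ℕ} (c : Simp M.X k → Lam n) (s : Simp M.X (k + 1)) : Lam n :=
  ∑ i : Fin (k + 2), (-1) ^ (i : ℕ) * (tm (M.hol s 0 (fv i)) * c (fce i s))

/-- the cochain `c` is a coboundary -/
def IsCobd : (k : ℕ) → (Simp M.X k → Lam n) → Prop
  | 0, c => c = 0
  | _ + 1, c => ∃ b, M.cobd b = c

/-- the chain `x` is a cycle -/
def IsCyc : (k : ℕ) → (Simp M.X k →₀ Lam n) → Prop
  | 0, _ => True
  | k + 1, x => M.bd k x = 0

/-- The complex `C_*(X; Λ)` is chain homotopy equivalent to a bounded complex `D` of finitely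
generated free `Λ`-modules: `I` is a finite basis of `D = ⊕ D_k`, with degrees `deg`; `d` is the
matrix of the differential of `D`; `h : C_*(X; Λ) → D` and `g : D → C_*(X; Λ)` are chain maps,
`P` is a chain homotopy from `g h` to `1` and `Q` is a chain homotopy from `h g` to `1`. -/
structure FinType where
  I : Type
  fI : Fintype I
  dI : DecidableEq I
  deg : I → ℕ
  d : Matrix I I (Lam n)
  hd : ∀ i j, d i j ≠ 0 → deg j = deg i + 1
  dd : d * d = 0
  h : ∀ k, (Simp M.X k →₀ Lam n) →ₗ[Lam n] (I → Lam n)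
  h_supp : ∀ k x i, h k x i ≠ 0 → deg i = k
  h_bd : ∀ k x, h k (M.bd k x) = d.mulVec (h (k + 1) x)
  g : ∀ k, (I → Lam n) →ₗ[Lam n] (Simp M.X k →₀ Lam n)
  g_supp : ∀ k y, (∀ i, deg i = k → y i = 0) → g k y = 0
  g_bd : ∀ k y, M.bd k (g (k + 1) y) = g k (d.mulVec y)
  P : ∀ k, (Simp M.X k →₀ Lam n) →ₗ[Lam n] (Simp M.X (k + 1) →₀ Lam n)
  P_zero : ∀ x, g 0 (h 0 x) - x = M.bd 0 (P 0 x)
  P_succ : ∀ k x, g (k + 1) (h (k + 1) x) - x = M.bd (k + 1) (P (k + 1) x) + P k (M.bd k x)
  Q : Matrix I I (Lam n)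
  hQ : ∀ i j, Q i j ≠ 0 → deg i = deg j + 1
  Q_eq : ∀ k y, (∀ i, y i ≠ 0 → deg i = k) →
    h k (g k y) - y = d.mulVec (Q.mulVec y) + Q.mulVec (d.mulVec y)

/-- the boundary of the singular complex with coefficients in `ℤ` -/
noncomputable def bdZ (k : ℕ) : (Simp M.X (k + 1) →₀ ℤ) →ₗ[ℤ] (Simp M.X k →₀ ℤ) :=
  Finsupp.linearCombination ℤ fun s => ∑ i : Fin (k + 2),
    Finsupp.single (fce i s) ((-1) ^ (i : ℕ))

/-- the cap product of `c ∈ C^p(X; Λ)` with an integral 4-chain: `c ∩ s` is the element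
`conj c(front face) · t^{hol(0,p)} · (back face)` of `C_q(X; Λ)`, `p + q = 4` -/
noncomputable def cap (z : Simp M.X 4 →₀ ℤ) {p q : ℕ} (h : p + q = 4) (c : Simp M.X p → Lam n) :
    Simp M.X q →₀ Lam n :=
  z.sum fun s m => Finsupp.single (back h s)
    ((m : Lam n) * (conj (c (front h s)) * tm (M.hol s 0 ⟨p, by omega⟩)))

/-- Poincaré duality: `z` is a 4-cycle and the cap product with `z` induces a bijection
`H^p(X; Λ) → H_{4-p}(X; Λ)` for all integers `p` (one side is `0` if `p < 0` or `p > 4`) -/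
structure Duality (z : Simp M.X 4 →₀ ℤ) : Prop where
  cyc : M.bdZ 3 z = 0
  inj : ∀ (p q : ℕ) (h : p + q = 4) (c : Simp M.X p → Lam n), M.cobd c = 0 →
    (∃ x, M.bd q x = M.cap z h c) → M.IsCobd p c
  surj : ∀ (p q : ℕ) (h : p + q = 4) (y : Simp M.X q →₀ Lam n), M.IsCyc q y →
    ∃ (c : Simp M.X p → Lam n) (x : Simp M.X (q + 1) →₀ Lam n), M.cobd c = 0 ∧
      y = M.cap z h c + M.bd q x
  coh_hi : ∀ p, 4 < p → ∀ c : Simp M.X p → Lam n, M.cobd c = 0 → M.IsCobd p c
  hom_hi : ∀ q, 4 < q → ∀ y : Simp M.X q →₀ Lam n, M.IsCyc q y → ∃ x, M.bd q x = y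

/-- the coboundary of the singular cochain complex with coefficients in `ℤ` -/
noncomputable def cobdZ (k : ℕ) : (Simp M.X k → ℤ) →ₗ[ℤ] (Simp M.X (k + 1) → ℤ) where
  toFun a s := ∑ i : Fin (k + 2), (-1) ^ (i : ℕ) * a (fce i s)
  map_add' a b := by
    funext s
    simp only [Pi.add_apply, mul_add, Finset.sum_add_distrib]
  map_smul' r a := by
    funext s
    simp only [Pi.smul_apply, smul_eq_mul, RingHom.id_apply, Finset.mul_sum]
    exact Finset.sum_congr rfl fun i _ => by ring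

/-- the singular 2-cocycles with coefficients in `ℤ` -/
abbrev Z2 : Type := LinearMap.ker (M.cobdZ 2)

/-- the singular cohomology group `H²(X; ℤ)` -/
abbrev H2 : Type := M.Z2 ⧸ (LinearMap.range (M.cobdZ 1)).comap (LinearMap.ker (M.cobdZ 2)).subtype

/-- `H²(X; ℤ)` modulo torsion -/
abbrev H2T : Type := M.H2 ⧸ Submodule.torsion ℤ M.H2

/-- the class of a cocycle in `H²(X; ℤ)` modulo torsion -/
noncomputable def cls (a : M.Z2) : M.H2T := Submodule.Quotient.mk (Submodule.Quotient.mk a)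

/-- the value of the cup product of two 2-cochains on a 4-chain -/
noncomputable def cup22 (z : Simp M.X 4 →₀ ℤ) (a b : Simp M.X 2 → ℤ) : ℤ :=
  z.sum fun s m => m * (a (front (rfl : 2 + 2 = 4) s) * b (back (rfl : 2 + 2 = 4) s))

/-- For `a₁, ..., a₄ ∈ H¹(ℤⁿ) = Hom(ℤⁿ, ℤ)` the pull-back `f^* aᵢ ∈ H¹(X; ℤ)` is the class of the
cocycle `e ↦ aᵢ(hol1 e)`; this is the value of the cup product of the four cocycles on a
4-chain. -/
noncomputable def cup4 (z : Simp M.X 4 →₀ ℤ) (a : Fin 4 → Module.Dual ℤ (Fin n → ℤ)) : ℤ :=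
  z.sum fun s m => m * (a 0 (M.hol s 0 1) * a 1 (M.hol s 1 2) * a 2 (M.hol s 2 3) *
    a 3 (M.hol s 3 4))

end Spc

/-! ### Poincaré complexes -/

/-- A four dimensional (oriented) Poincaré complex with fundamental group `ℤⁿ` in the sense of
Wall: a space `X` with `π₁(X) ≃ ℤⁿ` of finite type over `Λ`, with a fundamental cycle `z`. -/
structure PCx (n : ℕ) extends Spc n where
  finType : Nonempty toSpc.FinType
  z : Simp toSpc.X 4 →₀ ℤ
  dual : toSpc.Duality z

/-! ### The cohomology of `ℤⁿ` -/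

/-- `H¹(ℤⁿ) = Hom(ℤⁿ, ℤ)`.  The cohomology ring `H^*(ℤⁿ)` is the exterior algebra of this
module, and `H^k(ℤⁿ)` is its submodule `⋀[ℤ]^k (H1 n)`. -/
abbrev H1 (n : ℕ) := Module.Dual ℤ (Fin n → ℤ)

/-- the coordinate functions `x₁, ..., xₙ` -/
noncomputable def xx (n : ℕ) (i : Fin n) : H1 n := LinearMap.proj i

/-- the generator `[T] = x₁ x₂ ⋯ xₙ` of `Hⁿ(ℤⁿ)` -/
noncomputable def topClass (n : ℕ) : ExteriorAlgebra ℤ (H1 n) :=
  (List.ofFn fun i => ExteriorAlgebra.ι ℤ (xx n i)).prod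

/-- `φ` is the form `φ_ω` on `H²(ℤⁿ)`: `a b ω = φ(a, b) [T]` -/
def IsFormOf {n : ℕ} (ω : ExteriorAlgebra ℤ (H1 n))
    (φ : LinearMap.BilinForm ℤ (⋀[ℤ]^2 (H1 n))) : Prop :=
  ∀ a b : ⋀[ℤ]^2 (H1 n), (a : ExteriorAlgebra ℤ (H1 n)) * (b : ExteriorAlgebra ℤ (H1 n)) * ω =
    φ a b • topClass n

/-- unimodular forms: the adjoint `v ↦ φ(v, ·)` is bijective -/
def IsUnimodular {V : Type} [AddCommGroup V] (φ : LinearMap.BilinForm ℤ V) : Prop :=
  Function.Bijective fun v : V => φ v

/-- The Poincaré complex `M` realises `ω` (with `φ = φ_ω`):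
* `f_*[M] = ω ∩ [T]`, i.e. `a ω = ⟨f^* a, [M]⟩ [T]` for all `a = a₁ a₂ a₃ a₄ ∈ H⁴(ℤⁿ)`;
* the form `(a, b) ↦ ⟨a ∪ b, [M]⟩` on `H²(M; ℤ)` modulo torsion is isomorphic to `φ_ω`. -/
structure PCx.Realizes {n : ℕ} (M : PCx n) (ω : ExteriorAlgebra ℤ (H1 n))
    (φ : LinearMap.BilinForm ℤ (⋀[ℤ]^2 (H1 n))) : Prop where
  push : ∀ a : Fin 4 → H1 n, ExteriorAlgebra.ι ℤ (a 0) * ExteriorAlgebra.ι ℤ (a 1) *
    ExteriorAlgebra.ι ℤ (a 2) * ExteriorAlgebra.ι ℤ (a 3) * ω = M.cup4 M.z a • topClass n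
  form : ∃ e : M.H2T ≃ₗ[ℤ] ⋀[ℤ]^2 (H1 n), ∀ a b : M.Z2,
    φ (e (M.cls a)) (e (M.cls b)) = M.cup22 M.z a b

end Pool.Agent.PD4.Stmt
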