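import Pool.Agent.PD4.Top.TrLow
import Pool.Agent.PD4.Top.Tr0

/-!
# Assembly of the algebraic input `PDData` from its low part and its duality part
-/

namespace Pool.Agent.PD4.Top

open Matrix LauR Alg

variable {X : DeltaCx} {n : ℕ} {κ : Kap X (Fin n → ℤ)}

/-- the duality part of the algebraic input -/
def DualPart (F : FinModel κ) (S : Matrix F.I F.I (Lam n)) : Prop :=
  ∃ (D : Dual (Lam n) F.I) (U : Matrix F.I F.I (Lam n)), D.d = F.d ∧ D.S = S ∧
    D.Graded F.dg ∧ Hg F.dg (fun i => 5 - F.dg i) 0 U ∧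
    D.S - D.Sᴴ = D.d * U + U * D.dᴴ

/-- low part and duality part give the algebraic input -/
theorem exists_pdData (F : FinModel κ) (hL : LowExact κ) (v0 : X.S 0)
    (S : Matrix F.I F.I (Lam n)) (hS : DualPart F S) :
    ∃ E : PDData ℤ n F.I, E.D.d = F.d ∧ E.D.S = S ∧ E.deg = F.dg ∧
      (∀ a, E.g a (Sum.inl ()) = F.h 0 (Finsupp.single v0 1) a) ∧
      (∀ i, E.η i = aug (F.g 0 (Pi.single i 1))) := by
  obtain ⟨⟨d, S, h, m, S', k, dd, dS, c1, c2, c3, c4⟩, U, rfl, rfl, hgr, hU, hSU⟩ := hS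
  obtain ⟨W⟩ := exists_lowData F hL v0
  exact ⟨{
    D := ⟨F.d, S, h, m, S', k, dd, dS, c1, c2, c3, c4⟩
    deg := F.dg
    gr := hgr
    U := U
    hU := hU
    hSU := hSU
    g := W.g
    hg := W.hg
    dg := W.dg
    τ := W.τ
    hτ := W.hτ
    τlow := W.τlow
    Y := W.Y
    hY := W.hY
    η := W.η
    hη0 := W.hη0
    hη := W.hη
    hη1 := W.hη1 }, rfl, rfl, rfl, W.hg0, W.hηa⟩

end Pool.Agent.PD4.Top
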