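import Pool.Agent.PD4.Top.Tr0

/-!
# Injectivity of the duality of the finite model
-/

namespace Pool.Agent.PD4.Top

open Matrix Pool.Agent.PD4.Alg

variable {X : DeltaCx} {n : ℕ} {κ : Kap X (Fin n → ℤ)} (M : FinModel κ)

namespace FinModel

/-- the homogeneous part of degree `k` -/
noncomputable def hpt (k : ℕ) (a : M.I → Lam n) (i : M.I) : Lam n := if M.deg i = k then a i else 0

theorem hpt_supp (k : ℕ) (a : M.I → Lam n) (i : M.I) (h : M.hpt k a i ≠ 0) : M.deg i = k := by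
  by_contra hne
  exact h (if_neg hne)

theorem hpt_self {k : ℕ} {a : M.I → Lam n} (h : ∀ i, a i ≠ 0 → M.deg i = k) : M.hpt k a = a := by
  funext i
  unfold hpt
  by_cases hi : M.deg i = k
  · rw [if_pos hi]
  · rw [if_neg hi]
    by_contra hne
    exact hi (h i (Ne.symm hne))

theorem hpt_ne {k j : ℕ} (hkj : k ≠ j) {a : M.I → Lam n} (h : ∀ i, a i ≠ 0 → M.deg i = j) :
    M.hpt k a = 0 := by
  funext i
  unfold hpt
  by_cases hi : M.deg i = k
  · rw [if_pos hi]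
    by_contra hne
    exact hkj (hi.symm.trans (h i hne))
  · rw [if_neg hi]; rfl

theorem hpt_add (k : ℕ) (a b : M.I → Lam n) : M.hpt k (a + b) = M.hpt k a + M.hpt k b := by
  funext i
  simp only [hpt, Pi.add_apply]
  split_ifs <;> simp

theorem hpt_sub (k : ℕ) (a b : M.I → Lam n) : M.hpt k (a - b) = M.hpt k a - M.hpt k b := by
  funext i
  simp only [hpt, Pi.sub_apply]
  split_ifs <;> simp

theorem hpt_neg (k : ℕ) (a : M.I → Lam n) : M.hpt k (-a) = -M.hpt k a := by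
  funext i
  simp only [hpt, Pi.neg_apply]
  split_ifs <;> simp

theorem hpt_star (k : ℕ) (a : M.I → Lam n) : M.hpt k (star a) = star (M.hpt k a) := by
  funext i
  simp only [hpt, Pi.star_apply]
  split_ifs <;> simp

theorem hpt_dT (k : ℕ) (a : M.I → Lam n) :
    M.dᵀ *ᵥ M.hpt k a = M.hpt (k + 1) (M.dᵀ *ᵥ a) := by
  funext j
  simp only [hpt, Matrix.mulVec, dotProduct, Matrix.transpose_apply]
  by_cases hj : M.deg j = k + 1
  · rw [if_pos hj]
    refine Finset.sum_congr rfl fun i _ => ?_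
    by_cases hi : M.deg i = k
    · rw [if_pos hi]
    · rw [if_neg hi, M.hd_zero (i := i) (j := j) (by omega), zero_mul, zero_mul]
  · rw [if_neg hj]
    refine Finset.sum_eq_zero fun i _ => ?_
    by_cases hi : M.deg i = k
    · rw [M.hd_zero (i := i) (j := j) (by omega), zero_mul]
    · rw [if_neg hi, mul_zero]

theorem hpt_d (k : ℕ) (a : M.I → Lam n) :
    M.d *ᵥ M.hpt (k + 1) a = M.hpt k (M.d *ᵥ a) := by
  funext j
  simp only [hpt, Matrix.mulVec, dotProduct]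
  by_cases hj : M.deg j = k
  · rw [if_pos hj]
    refine Finset.sum_congr rfl fun i _ => ?_
    by_cases hi : M.deg i = k + 1
    · rw [if_pos hi]
    · rw [if_neg hi, M.hd_zero (i := j) (j := i) (by omega), zero_mul, zero_mul]
  · rw [if_neg hj]
    refine Finset.sum_eq_zero fun i _ => ?_
    by_cases hi : M.deg i = k + 1
    · rw [M.hd_zero (i := j) (j := i) (by omega), zero_mul]
    · rw [if_neg hi, mul_zero]

/-- a bound of the degrees -/
def topDeg : ℕ := Finset.univ.sup M.deg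

theorem sum_hpt (a : M.I → Lam n) : a = ∑ k ∈ Finset.range (M.topDeg + 1), M.hpt k a := by
  funext i
  rw [Finset.sum_apply]
  simp only [hpt]
  rw [Finset.sum_ite_eq, if_pos]
  rw [Finset.mem_range]
  exact Nat.lt_succ_of_le (Finset.le_sup (Finset.mem_univ i))

theorem pb_hpt (k : ℕ) (a : M.I → Lam n) : M.pb k (M.hpt k a) = M.pb k a := by
  funext s
  unfold pb hpt
  refine Finset.sum_congr rfl fun i _ => ?_
  by_cases hi : M.deg i = k
  · rw [if_pos hi]
  · rw [M.hc_zero hi, mul_zero, mul_zero]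

theorem pair_g_pf (k : ℕ) (c : X.S k → Lam n) (y : M.I → Lam n) :
    pair c (M.g k y) = M.pf k c ⬝ᵥ y := by
  have h1 : y = ∑ i, y i • (Pi.single i 1 : M.I → Lam n) := by
    funext j
    simp [Finset.sum_apply, Pi.single_apply]
  conv_lhs => rw [h1]
  rw [map_sum, map_sum, dotProduct]
  refine Finset.sum_congr rfl fun i _ => ?_
  rw [map_smul, map_smul, smul_eq_mul, mul_comm]
  rfl

/-- duality of the homotopy `Q` -/
theorem dot_Q_inj (k : ℕ) (a : M.I → Lam n) (ha : M.dᵀ *ᵥ a = 0) (y : M.I → Lam n)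
    (hy : ∀ i, y i ≠ 0 → M.deg i = k) :
    a ⬝ᵥ y = a ⬝ᵥ M.h k (M.g k y) - (M.Qᵀ *ᵥ a) ⬝ᵥ (M.d *ᵥ y) := by
  have h1 := congrArg (fun v => a ⬝ᵥ v) (M.Q_eq k y hy)
  simp only [dotProduct_sub, dotProduct_add] at h1
  have h2 : a ⬝ᵥ (M.d *ᵥ (M.Q *ᵥ y)) = 0 := by
    rw [Matrix.dotProduct_mulVec, ← Matrix.mulVec_transpose, ha, zero_dotProduct]
  have h3 : a ⬝ᵥ (M.Q *ᵥ (M.d *ᵥ y)) = (M.Qᵀ *ᵥ a) ⬝ᵥ (M.d *ᵥ y) := by
    rw [Matrix.dotProduct_mulVec, ← Matrix.mulVec_transpose]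
  rw [h2, h3, zero_add] at h1
  rw [← h1]
  ring

theorem hpt_dot (k : ℕ) (a y : M.I → Lam n) : M.hpt k a ⬝ᵥ y = M.hpt k a ⬝ᵥ M.hpt k y := by
  unfold dotProduct hpt
  refine Finset.sum_congr rfl fun i _ => ?_
  by_cases hi : M.deg i = k
  · rw [if_pos hi, if_pos hi]
  · rw [if_neg hi, zero_mul, zero_mul]

theorem hpt_dot' (k : ℕ) (a y : M.I → Lam n) : M.hpt k a ⬝ᵥ y = a ⬝ᵥ M.hpt k y := by
  unfold dotProduct hpt
  refine Finset.sum_congr rfl fun i _ => ?_
  by_cases hi : M.deg i = k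
  · rw [if_pos hi, if_pos hi]
  · rw [if_neg hi, if_neg hi, zero_mul, mul_zero]

/-- coboundaries on `X` lift to coboundaries of the finite model -/
theorem cobd_lift_inj (k : ℕ) (a : M.I → Lam n) (ha : M.dᵀ *ᵥ a = 0)
    (hcob : IsCobd κ tau k (M.pb k a)) : ∃ b, M.hpt k a = M.dᵀ *ᵥ b := by
  have hda : M.dᵀ *ᵥ M.hpt k a = 0 := by
    rw [hpt_dT, ha]
    funext i
    simp [hpt]
  rcases k with _ | k
  · refine ⟨0, ?_⟩
    rw [Matrix.mulVec_zero]
    refine dotProduct_eq _ _ fun y => ?_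
    rw [zero_dotProduct, hpt_dot, M.dot_Q_inj 0 _ hda _ (M.hpt_supp 0 y)]
    have h1 : M.hpt 0 a ⬝ᵥ M.h 0 (M.g 0 (M.hpt 0 y)) = 0 := by
      rw [← pair_pb, pb_hpt]
      have h2 : M.pb 0 a = 0 := hcob
      rw [h2]
      have h3 := pair_smul_left (0 : Lam n) (0 : X.S 0 → Lam n) (M.g 0 (M.hpt 0 y))
      rwa [zero_smul, zero_mul] at h3
    have h2 : M.d *ᵥ M.hpt 0 y = 0 := by
      funext j
      rw [Matrix.mulVec, dotProduct, Pi.zero_apply]
      refine Finset.sum_eq_zero fun i _ => ?_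
      unfold hpt
      by_cases hi : M.deg i = 0
      · rw [M.hd_zero (by omega), zero_mul]
      · rw [if_neg hi, mul_zero]
    rw [h1, h2, dotProduct_zero, sub_zero]
  · obtain ⟨β, hβ⟩ := hcob
    refine ⟨M.hpt k (M.pf k β - M.Qᵀ *ᵥ M.hpt (k + 1) a), ?_⟩
    refine dotProduct_eq _ _ fun y => ?_
    have e1 : (M.dᵀ *ᵥ M.hpt k (M.pf k β - M.Qᵀ *ᵥ M.hpt (k + 1) a)) ⬝ᵥ y
        = (M.pf k β - M.Qᵀ *ᵥ M.hpt (k + 1) a) ⬝ᵥ (M.d *ᵥ M.hpt (k + 1) y) := by
      rw [hpt_dT, hpt_dot', Matrix.mulVec_transpose, ← Matrix.dotProduct_mulVec]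
    rw [e1, hpt_dot, M.dot_Q_inj (k + 1) _ hda _ (M.hpt_supp (k + 1) y), sub_dotProduct]
    congr 1
    rw [← pair_pb, pb_hpt, ← hβ, ← pair_bd, M.g_bd, pair_g_pf]

end FinModel

theorem pair_zero_left_inj {k : ℕ} (x : X.S k →₀ Lam n) : pair (0 : X.S k → Lam n) x = 0 := by
  have h3 := pair_smul_left (0 : Lam n) (0 : X.S k → Lam n) x
  rwa [zero_smul, zero_mul] at h3

theorem tau_unitary_inj : Unitary (tau (n := n)) := by
  intro a
  rw [cv_tau]
  change star (AddMonoidAlgebra.single a (1 : ℤ) : LauR ℤ n) * AddMonoidAlgebra.single a 1 = 1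
  rw [LauR.star_single, AddMonoidAlgebra.single_mul_single, neg_add_cancel, one_mul]
  rfl

/-- the key step in degrees `p ≤ 4` -/
theorem cobd_of_cap_inj (z : X.S 4 →₀ ℤ) (hz : PDual κ z) {p q : ℕ} (h : p + q = 4)
    (γ : X.S p → Lam n) (hγ : del κ tau γ = 0) (x : M.I → Lam n)
    (hx : M.h q (cap κ tau z h γ) = M.d *ᵥ M.hpt (q + 1) x) : IsCobd κ tau p γ := by
  refine hz.inj p q h γ hγ ?_
  have hg : M.g q (M.h q (cap κ tau z h γ)) = bd κ tau q (M.g (q + 1) (M.hpt (q + 1) x)) := by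
    rw [hx, M.g_bd]
  rcases q with _ | q
  · have h1 := M.P_zero (cap κ tau z h γ)
    refine ⟨M.g 1 (M.hpt 1 x) - M.P 0 (cap κ tau z h γ), ?_⟩
    rw [map_sub, ← h1, ← hg]
    abel
  · have h1 := M.P_succ q (cap κ tau z h γ)
    have h2 : bd κ tau q (cap κ tau z h γ) = 0 := by
      have h3 := bd_cap κ tau tau_unitary_inj z hz.cyc (show p + q = 3 by omega) γ
      have h4 : cap κ tau z (show (p + 1) + q = 4 by omega) (del κ tau γ) = 0 := by
        rw [hγ]
        apply pair_ext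
        intro b
        rw [map_zero, pair_cap]
        have h5 : cup κ (chb tau) tau (show (p + 1) + q = 4 by omega)
            (cj (0 : X.S (p + 1) → Lam n)) b = fun _ => 0 := by
          funext s
          simp [cup, hat, cj]
        rw [h5, ev_zero]
      rw [h4, smul_zero] at h3
      exact h3
    refine ⟨M.g (q + 1 + 1) (M.hpt (q + 1 + 1) x) - M.P (q + 1) (cap κ tau z h γ), ?_⟩
    rw [h2, map_zero, add_zero] at h1
    rw [map_sub, ← h1, ← hg]
    abel

theorem hpt_h (q j : ℕ) (y : X.S j →₀ Lam n) : M.hpt q (M.h j y) = if q = j then M.h j y else 0 := by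
  by_cases hqj : q = j
  · subst hqj
    rw [if_pos rfl, M.hpt_self (M.h_supp q y)]
  · rw [if_neg hqj, M.hpt_ne hqj (M.h_supp j y)]

theorem star_dH_inj (c : M.I → Lam n) : star (M.dᴴ *ᵥ c) = M.dᵀ *ᵥ star c := by
  funext k
  simp only [Pi.star_apply, Matrix.mulVec, dotProduct, star_sum, star_mul',
    Matrix.conjTranspose_apply, star_star, Matrix.transpose_apply]

theorem SM_inj_aux (z : X.S 4 →₀ ℤ) (hz : PDual κ z) (c x : M.I → Lam n) (hc : M.dᴴ *ᵥ c = 0)
    (h : SM M z *ᵥ c = M.d *ᵥ x) (p : ℕ) : IsCobd κ tau p (M.pb p (star c)) := by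
  have hda : M.dᵀ *ᵥ star c = 0 := by
    rw [← star_dH_inj, hc, star_zero]
  have hdel : ∀ p, del κ tau (M.pb p (star c)) = 0 := by
    intro p
    rw [M.del_pb, hda]
    funext s
    simp [FinModel.pb]
  rw [SM_mulVec] at h
  by_cases hp : 4 < p
  · exact hz.coh_hi p hp _ (hdel p)
  · have hq : ∀ q, M.hpt q (M.d *ᵥ x) = M.d *ᵥ M.hpt (q + 1) x := fun q => (M.hpt_d q x).symm
    have key := fun q => congrArg (M.hpt q) h
    simp only [M.hpt_add, M.hpt_sub, M.hpt_neg, hpt_h, hq] at key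
    have hcases : p = 0 ∨ p = 1 ∨ p = 2 ∨ p = 3 ∨ p = 4 := by omega
    rcases hcases with rfl | rfl | rfl | rfl | rfl
    · refine cobd_of_cap_inj M z hz (rfl : 0 + 4 = 4) _ (hdel 0) (-x) ?_
      have k := key 4
      norm_num at k
      rw [M.hpt_neg, Matrix.mulVec_neg, ← k, neg_neg]
    · refine cobd_of_cap_inj M z hz (rfl : 1 + 3 = 4) _ (hdel 1) x ?_
      have k := key 3
      norm_num at k
      exact k
    · refine cobd_of_cap_inj M z hz (rfl : 2 + 2 = 4) _ (hdel 2) x ?_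
      have k := key 2
      norm_num at k
      exact k
    · refine cobd_of_cap_inj M z hz (rfl : 3 + 1 = 4) _ (hdel 3) (-x) ?_
      have k := key 1
      norm_num at k
      rw [M.hpt_neg, Matrix.mulVec_neg, ← k, neg_neg]
    · refine cobd_of_cap_inj M z hz (rfl : 4 + 0 = 4) _ (hdel 4) (-x) ?_
      have k := key 0
      norm_num at k
      rw [M.hpt_neg, Matrix.mulVec_neg, ← k, neg_neg]

theorem SM_inj (z : X.S 4 →₀ ℤ) (hz : PDual κ z) (c x : M.I → Lam n) (hc : M.dᴴ *ᵥ c = 0)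
    (h : SM M z *ᵥ c = M.d *ᵥ x) : ∃ b : M.I → Lam n, c = M.dᴴ *ᵥ b := by
  have hda : M.dᵀ *ᵥ star c = 0 := by
    rw [← star_dH_inj, hc, star_zero]
  have hex : ∀ p, ∃ b, M.hpt p (star c) = M.dᵀ *ᵥ b := fun p =>
    M.cobd_lift_inj p (star c) hda (SM_inj_aux M z hz c x hc h p)
  choose b hb using hex
  refine ⟨star (∑ k ∈ Finset.range (M.topDeg + 1), b k), ?_⟩
  have h1 : star c = M.dᵀ *ᵥ ∑ k ∈ Finset.range (M.topDeg + 1), b k := by
    rw [M.sum_hpt (star c), Matrix.mulVec_sum]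
    exact Finset.sum_congr rfl fun k _ => hb k
  have h2 := congrArg star h1
  rw [star_star] at h2
  rw [h2]
  have h3 := star_dH_inj M (star (∑ k ∈ Finset.range (M.topDeg + 1), b k))
  rw [star_star] at h3
  rw [← h3, star_star]

end Pool.Agent.PD4.Top
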