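import Pool.Agent.PD4.Top.TrD1
import Pool.Agent.PD4.Top.TrD2

/-!
# Poincare duality of the finite model

`SM_surj` is in `TrD1` (helper5), `SM_inj` in `TrD2` (helper75).
-/
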