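import Pool.Agent.PD4.Top.TrS

/-!
# Poincare duality of the finite model, surjectivity (owner: helper5)
-/

namespace Pool.Agent.PD4.Top

open Matrix Pool.Agent.PD4.Alg

variable {X : DeltaCx} {n : ℕ} {κ : Kap X (Fin n → ℤ)} (M : FinModel κ)

/-- the part of degree `q` of a vector -/
noncomputable def dpart (q : ℕ) (y : M.I → Lam n) (i : M.I) : Lam n := if M.deg i = q then y i else 0

theorem dpart_supp (q : ℕ) (y : M.I → Lam n) (i : M.I) (h : dpart M q y i ≠ 0) :
    M.deg i = q := by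
  by_contra h1
  exact h (if_neg h1)

theorem d_dpart (q : ℕ) (y : M.I → Lam n) (hy : M.d *ᵥ y = 0) : M.d *ᵥ dpart M q y = 0 := by
  funext i
  by_cases hi : q = M.deg i + 1
  · have h1 : (M.d *ᵥ dpart M q y) i = (M.d *ᵥ y) i := by
      change ∑ j, M.d i j * dpart M q y j = ∑ j, M.d i j * y j
      refine Finset.sum_congr rfl fun j _ => ?_
      by_cases hj : M.deg j = q
      · rw [dpart, if_pos hj]
      · rw [M.hd_zero (by omega), zero_mul, zero_mul]
    rw [h1, hy]
  · change ∑ j, M.d i j * dpart M q y j = 0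
    refine Finset.sum_eq_zero fun j _ => ?_
    by_cases hj : M.deg j = q
    · rw [M.hd_zero (by omega), zero_mul]
    · rw [dpart, if_neg hj, mul_zero]

theorem sum_dpart (y : M.I → Lam n) :
    y = ∑ q ∈ Finset.univ.image M.deg, dpart M q y := by
  funext i
  rw [Finset.sum_apply]
  rw [Finset.sum_eq_single (M.deg i)]
  · rw [dpart, if_pos rfl]
  · intro q _ hq
    rw [dpart, if_neg (Ne.symm hq)]
  · intro h
    exact absurd (Finset.mem_image_of_mem _ (Finset.mem_univ i)) h

theorem pf_zero {p : ℕ} {i : M.I} (h : M.deg i ≠ p) (c : X.S p → Lam n) : M.pf p c i = 0 := by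
  unfold FinModel.pf
  rw [M.g_supp p _ (fun j hj => by
    rw [Pi.single_apply, if_neg]
    rintro rfl
    exact h hj), map_zero]

/-- the push forward of a cocycle is a cocycle -/
theorem pf_cocycle {p : ℕ} (c : X.S p → Lam n) (hc : del κ tau c = 0) :
    M.dᵀ *ᵥ M.pf p c = 0 := by
  funext j
  change ∑ i, M.dᵀ j i * pair c (M.g p (Pi.single i 1)) = 0
  have h1 : ∑ i, M.dᵀ j i * pair c (M.g p (Pi.single i 1))
      = pair c (M.g p (M.d *ᵥ Pi.single j 1)) := by
    have h2 : M.d *ᵥ Pi.single j (1 : Lam n) = ∑ i, M.d i j • Pi.single i (1 : Lam n) := by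
      funext k
      rw [Matrix.mulVec_single_one, Finset.sum_apply]
      simp [Pi.single_apply]
    rw [h2, map_sum, map_sum]
    refine Finset.sum_congr rfl fun i _ => ?_
    rw [map_smul, map_smul, smul_eq_mul, Matrix.transpose_apply]
  rw [h1, ← M.g_bd, pair_bd, hc]
  exact pair_zero_left _

/-- the cochain `c ∘ P` -/
noncomputable def pP (k : ℕ) (c : X.S (k + 1) → Lam n) (s : X.S k) : Lam n :=
  pair c (M.P k (Finsupp.single s 1))

theorem pair_pP (k : ℕ) (c : X.S (k + 1) → Lam n) (x : X.S k →₀ Lam n) :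
    pair (pP M k c) x = pair c (M.P k x) := by
  induction x using Finsupp.induction_linear with
  | zero => simp
  | add f g hf hg => rw [map_add, map_add, map_add, hf, hg]
  | single s r =>
    have h1 : (Finsupp.single s r : X.S k →₀ Lam n) = r • Finsupp.single s 1 := by
      rw [Finsupp.smul_single, smul_eq_mul, mul_one]
    rw [pair_single, h1, map_smul, map_smul, smul_eq_mul]
    rfl

theorem pair_pf {p : ℕ} (c : X.S p → Lam n) (y : M.I → Lam n) :
    M.pf p c ⬝ᵥ y = pair c (M.g p y) := by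
  have h2 : y = ∑ i, y i • Pi.single i (1 : Lam n) := by
    funext k
    rw [Finset.sum_apply]
    simp [Pi.single_apply]
  conv_rhs => rw [h2]
  rw [map_sum, map_sum, dotProduct]
  refine Finset.sum_congr rfl fun i _ => ?_
  rw [map_smul, map_smul, smul_eq_mul, mul_comm]
  rfl

/-- `pb (pf c) = c` in degree `0` -/
theorem pb_pf_zero (c : X.S 0 → Lam n) (hc : del κ tau c = 0) : M.pb 0 (M.pf 0 c) = c := by
  funext s
  have h1 : pair (M.pb 0 (M.pf 0 c)) (Finsupp.single s 1) = pair c (Finsupp.single s 1) := by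
    rw [M.pair_pb, pair_pf]
    have h2 := congrArg (pair c) (M.P_zero (Finsupp.single s 1))
    rw [map_sub, pair_bd, hc] at h2
    rw [← sub_eq_zero, h2]
    exact pair_zero_left _
  rwa [pair_single, pair_single, one_mul, one_mul] at h1

/-- `pb (pf c) = c + δ(c P)` in positive degrees -/
theorem pb_pf_succ (k : ℕ) (c : X.S (k + 1) → Lam n) (hc : del κ tau c = 0) :
    M.pb (k + 1) (M.pf (k + 1) c) = c + del κ tau (pP M k c) := by
  funext s
  have h1 : pair (M.pb (k + 1) (M.pf (k + 1) c)) (Finsupp.single s 1)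
      = pair c (Finsupp.single s 1) + pair (del κ tau (pP M k c)) (Finsupp.single s 1) := by
    rw [M.pair_pb, pair_pf]
    have h2 := congrArg (pair c) (M.P_succ k (Finsupp.single s 1))
    have h3 : pair c (bd κ tau (k + 1) (M.P (k + 1) (Finsupp.single s 1))) = 0 := by
      rw [pair_bd, hc]
      exact pair_zero_left _
    have h4 : pair c (M.P k (bd κ tau k (Finsupp.single s 1)))
        = pair (del κ tau (pP M k c)) (Finsupp.single s 1) := by
      rw [← pair_pP, pair_bd]
    rw [map_sub, map_add, h3, h4, zero_add] at h2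
    rw [← h2]
    ring
  rw [pair_single, pair_single, pair_single, one_mul, one_mul, one_mul] at h1
  exact h1

/-- the sign of `SM` in cochain degree `p` -/
def sg5 : ℕ → ℤ
  | 0 => -1
  | 1 => 1
  | 2 => 1
  | 3 => -1
  | _ => -1

theorem sg5_sq (p : ℕ) : ((sg5 p : ℤ) : Lam n) * (sg5 p : ℤ) = 1 := by
  rw [← Int.cast_mul]
  have : sg5 p * sg5 p = 1 := by
    unfold sg5
    split <;> norm_num
  rw [this, Int.cast_one]

/-- `SM` on a vector supported in degree `p` -/
theorem SM_homog (z : X.S 4 →₀ ℤ) {p q : ℕ} (h : p + q = 4) (a : M.I → Lam n)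
    (ha : ∀ i, a i ≠ 0 → M.deg i = p) :
    SM M z *ᵥ (star a) = ((sg5 p : ℤ) : Lam n) • M.h q (cap κ tau z h (M.pb p a)) := by
  have h0 : ∀ p' : ℕ, p' ≠ p → M.pb p' a = fun _ => 0 := by
    intro p' hp'
    funext s
    unfold FinModel.pb
    refine Finset.sum_eq_zero fun i _ => ?_
    by_cases hi : M.deg i = p'
    · have : a i = 0 := by
        by_contra h1
        exact hp' (by rw [← hi, ha i h1])
      rw [this, zero_mul]
    · rw [M.hc_zero hi, mul_zero]
  rw [SM_mulVec, star_star]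
  have hp : p ≤ 4 := by omega
  interval_cases p
  · obtain rfl : q = 4 := by omega
    rw [h0 1 (by norm_num), h0 2 (by norm_num), h0 3 (by norm_num), h0 4 (by norm_num)]
    simp only [cap_zero, map_zero]
    simp [sg5]
  · obtain rfl : q = 3 := by omega
    rw [h0 0 (by norm_num), h0 2 (by norm_num), h0 3 (by norm_num), h0 4 (by norm_num)]
    simp only [cap_zero, map_zero]
    simp [sg5]
  · obtain rfl : q = 2 := by omega
    rw [h0 0 (by norm_num), h0 1 (by norm_num), h0 3 (by norm_num), h0 4 (by norm_num)]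
    simp only [cap_zero, map_zero]
    simp [sg5]
  · obtain rfl : q = 1 := by omega
    rw [h0 0 (by norm_num), h0 1 (by norm_num), h0 2 (by norm_num), h0 4 (by norm_num)]
    simp only [cap_zero, map_zero]
    simp [sg5]
  · obtain rfl : q = 0 := by omega
    rw [h0 0 (by norm_num), h0 1 (by norm_num), h0 2 (by norm_num), h0 3 (by norm_num)]
    simp only [cap_zero, map_zero]
    simp [sg5]

/-- the cap product of a cocycle `c` and of `pb (pf c)` differ by a boundary, after `h` -/
theorem h_cap_pf (z : X.S 4 →₀ ℤ) (hz : bdZ 3 z = 0) {p q : ℕ} (h : p + q = 4)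
    (c : X.S p → Lam n) (hc : del κ tau c = 0) :
    ∃ w : M.I → Lam n, M.h q (cap κ tau z h (M.pb p (M.pf p c)))
      = M.h q (cap κ tau z h c) + M.d *ᵥ w := by
  cases p with
  | zero =>
    refine ⟨0, ?_⟩
    rw [pb_pf_zero M c hc, Matrix.mulVec_zero, add_zero]
  | succ k =>
    have h3 : k + q = 3 := by omega
    refine ⟨((-1 : Lam n) ^ (k + 1)) • M.h (q + 1)
      (cap κ tau z (show k + (q + 1) = 4 by omega) (pP M k c)), ?_⟩
    rw [pb_pf_succ M k c hc, cap_add, map_add, Matrix.mulVec_smul, ← M.h_bd,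
      bd_cap κ tau tau_unitary z hz h3, map_smul, smul_smul, ← mul_pow]
    simp

theorem SM_surj_homog (z : X.S 4 →₀ ℤ) (hz : PDual κ z) (q : ℕ) (y : M.I → Lam n)
    (hq : ∀ i, y i ≠ 0 → M.deg i = q) (hy : M.d *ᵥ y = 0) :
    ∃ c x : M.I → Lam n, M.dᴴ *ᵥ c = 0 ∧ y = SM M z *ᵥ c + M.d *ᵥ x := by
  have hQ := M.Q_eq q y hq
  rw [hy, Matrix.mulVec_zero, add_zero] at hQ
  have hcyc : IsCyc κ tau q (M.g q y) := by
    cases q with
    | zero => trivial
    | succ r =>
      change bd κ tau r (M.g (r + 1) y) = 0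
      rw [M.g_bd, hy, map_zero]
  by_cases h4 : q ≤ 4
  · obtain ⟨p, hp⟩ : ∃ p, p + q = 4 := ⟨4 - q, by omega⟩
    obtain ⟨c, x, hc, hcx⟩ := hz.surj p q hp (M.g q y) hcyc
    obtain ⟨w, hw⟩ := h_cap_pf M z hz.cyc hp c hc
    have hS := SM_homog M z hp (M.pf p c) (fun i hi => by
      by_contra h1
      exact hi (pf_zero M h1 c))
    refine ⟨((sg5 p : ℤ) : Lam n) • star (M.pf p c), M.h (q + 1) x - w - M.Q *ᵥ y, ?_, ?_⟩
    · rw [Matrix.mulVec_smul]
      have h5 : star (M.dᴴ *ᵥ star (M.pf p c)) = 0 := by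
        rw [star_dH, star_star, pf_cocycle M c hc]
      have h6 : M.dᴴ *ᵥ star (M.pf p c) = 0 := by
        have := congrArg star h5
        rwa [star_star, star_zero] at this
      rw [h6, smul_zero]
    · rw [Matrix.mulVec_smul, hS, smul_smul, sg5_sq, one_smul, hw, Matrix.mulVec_sub,
        Matrix.mulVec_sub, ← M.h_bd]
      have h7 : M.h q (M.g q y) = M.h q (cap κ tau z hp c) + M.h q (bd κ tau q x) := by
        rw [hcx, map_add]
      rw [h7] at hQ
      rw [← hQ]
      abel
  · obtain ⟨x, hx⟩ := hz.hom_hi q (by omega) (M.g q y) hcyc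
    refine ⟨0, M.h (q + 1) x - M.Q *ᵥ y, Matrix.mulVec_zero _, ?_⟩
    rw [Matrix.mulVec_zero, zero_add, Matrix.mulVec_sub, ← M.h_bd, hx, ← hQ]
    abel

theorem SM_surj (z : X.S 4 →₀ ℤ) (hz : PDual κ z) (y : M.I → Lam n) (hy : M.d *ᵥ y = 0) :
    ∃ c x : M.I → Lam n, M.dᴴ *ᵥ c = 0 ∧ y = SM M z *ᵥ c + M.d *ᵥ x := by
  have key : ∀ T : Finset ℕ, ∃ c x : M.I → Lam n, M.dᴴ *ᵥ c = 0 ∧
      ∑ q ∈ T, dpart M q y = SM M z *ᵥ c + M.d *ᵥ x := by
    intro T
    classical
    induction T using Finset.induction_on with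
    | empty => exact ⟨0, 0, Matrix.mulVec_zero _, by simp⟩
    | insert q T hq ih =>
      obtain ⟨c, x, h1, h2⟩ := ih
      obtain ⟨c', x', h3, h4⟩ := SM_surj_homog M z hz q (dpart M q y) (dpart_supp M q y)
        (d_dpart M q y hy)
      refine ⟨c' + c, x' + x, by rw [Matrix.mulVec_add, h1, h3, add_zero], ?_⟩
      rw [Finset.sum_insert hq, h2, h4, Matrix.mulVec_add, Matrix.mulVec_add]
      abel
  obtain ⟨c, x, h1, h2⟩ := key (Finset.univ.image M.deg)
  exact ⟨c, x, h1, by rw [← h2]; exact sum_dpart M y⟩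

end Pool.Agent.PD4.Top
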