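import Pool.Agent.PD4.Top.TrZ
import Pool.Agent.PD4.Alg.AtOne

/-!
# Transfer to the finite model: the intersection form is the cup product form of `X`

At `t = 1`: the pull-backs of the classes `y_v`, `c_uv` of the model are cohomologous to
`κ_v`, `κ_u ∪ κ_v`, the form of the model is the cup product evaluated on `z`.
-/

namespace Pool.Agent.PD4.Top

open Matrix Finset

section untwisted

variable {X : DeltaCx}

/-- the zero cocycle -/
def kapZero (X : DeltaCx) : Kap X ℤ where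
  k _ := 0
  coc _ := rfl

theorem del_one {p : ℕ} (a : X.S p → ℤ) : del (kapZero X) 1 a = dZ X p a := by
  funext s
  change ∑ i : Fin (p + 2), (-1 : ℤ) ^ (i : ℕ) * (cv 1 ((kapZero X).kk s 0 (fc i 0)) *
    a (X.map (fc i) s)) = ∑ i : Fin (p + 2), (-1) ^ (i : ℕ) * a (X.map (fc i) s)
  refine Finset.sum_congr rfl fun i _ => ?_
  rw [cv_one, one_mul]

/-- the untwisted cup product -/
def cupZ {p q n : ℕ} (h : p + q = n) (a : X.S p → ℤ) (b : X.S q → ℤ) (s : X.S n) : ℤ :=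
  a (X.map (front h) s) * b (X.map (back h) s)

theorem cup_one {p q n : ℕ} (h : p + q = n) (a : X.S p → ℤ) (b : X.S q → ℤ) :
    cup (kapZero X) 1 1 h a b = cupZ h a b := by
  funext s
  rw [cup, hat, hat, cv_one, cv_one, one_mul, one_mul]
  rfl

theorem ev_dZ (z : X.S 4 →₀ ℤ) (hz : bdZ 3 z = 0) (c : X.S 3 → ℤ) : ev z (dZ X 3 c) = 0 := by
  rw [← del_one, ev_del (kapZero X) z hz]

theorem dZ_cupZ {p q n : ℕ} (h : p + q = n) (a : X.S p → ℤ) (b : X.S q → ℤ) (s : X.S (n + 1)) :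
    dZ X n (cupZ h a b) s = cupZ (show (p + 1) + q = n + 1 by omega) (dZ X p a) b s
      + (-1) ^ p * cupZ (show p + (q + 1) = n + 1 by omega) a (dZ X q b) s := by
  have h1 := del_cup (kapZero X) 1 1 h a b s
  rw [one_mul, cup_one, cup_one, cup_one, del_one, del_one, del_one] at h1
  exact h1

theorem sdel_sdel {R : Type} [CommRing R] (c : Emb 1 3 → R) (f : Emb 3 3) :
    sdel (sdel c) f = 0 := by
  have key : ∀ c : Emb 1 3 → R, sdel (sdel c) (RelEmbedding.refl _ : Emb 3 3) = 0 := by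
    intro A
    have hA := unc_code A
    simp only [sdel, hA]
    generalize unc A = A'
    simp [-fc_apply, code, Fin.sum_univ_succ, fc_val]
    ring
  exact key fun g => c (g.trans f)

theorem dZ_dZ (a : X.S 1 → ℤ) : dZ X 2 (dZ X 1 a) = 0 := by
  funext s
  rw [← del_one, ← del_one, del_eq]
  have h1 : hat (kapZero X) 1 s (del (kapZero X) 1 a) = sdel (hat (kapZero X) 1 s a) :=
    funext fun f => hat_del (kapZero X) 1 s a f
  rw [h1, sdel_sdel]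
  rfl

theorem cup22_eq (z : X.S 4 →₀ ℤ) (a b : X.S 2 → ℤ) :
    cup22 z a b = ev z (cupZ (rfl : 2 + 2 = 4) a b) := rfl

theorem cup22_left (z : X.S 4 →₀ ℤ) (hz : bdZ 3 z = 0) (θ : X.S 1 → ℤ) (b : X.S 2 → ℤ)
    (hb : dZ X 2 b = 0) : cup22 z (dZ X 1 θ) b = 0 := by
  have h1 : dZ X 3 (cupZ (rfl : 1 + 2 = 3) θ b) = cupZ (rfl : 2 + 2 = 4) (dZ X 1 θ) b := by
    funext s
    rw [dZ_cupZ (rfl : 1 + 2 = 3) θ b s, hb]
    simp [cupZ]
  rw [cup22_eq, ← h1, ev_dZ z hz]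

theorem cup22_right (z : X.S 4 →₀ ℤ) (hz : bdZ 3 z = 0) (a : X.S 2 → ℤ) (θ : X.S 1 → ℤ)
    (ha : dZ X 2 a = 0) : cup22 z a (dZ X 1 θ) = 0 := by
  have h1 : dZ X 3 (cupZ (rfl : 2 + 1 = 3) a θ) = cupZ (rfl : 2 + 2 = 4) a (dZ X 1 θ) := by
    funext s
    rw [dZ_cupZ (rfl : 2 + 1 = 3) a θ s, ha]
    simp [cupZ]
  rw [cup22_eq, ← h1, ev_dZ z hz]

theorem cup22_add_left (z : X.S 4 →₀ ℤ) (a a' b : X.S 2 → ℤ) :
    cup22 z (a + a') b = cup22 z a b + cup22 z a' b := by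
  rw [cup22_eq, cup22_eq, cup22_eq, ← ev_add]
  congr 1
  funext s
  simp [cupZ, add_mul]

theorem cup22_add_right (z : X.S 4 →₀ ℤ) (a b b' : X.S 2 → ℤ) :
    cup22 z a (b + b') = cup22 z a b + cup22 z a b' := by
  rw [cup22_eq, cup22_eq, cup22_eq, ← ev_add]
  congr 1
  funext s
  simp [cupZ, mul_add]

/-- the form depends only on the classes -/
theorem cup22_class (z : X.S 4 →₀ ℤ) (hz : bdZ 3 z = 0) (a b : X.S 2 → ℤ) (θ θ' : X.S 1 → ℤ)
    (ha : dZ X 2 a = 0) (hb : dZ X 2 b = 0) :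
    cup22 z (a + dZ X 1 θ) (b + dZ X 1 θ') = cup22 z a b := by
  rw [cup22_add_left, cup22_left z hz θ _ (by rw [map_add, hb, dZ_dZ, add_zero]), add_zero,
    cup22_add_right, cup22_right z hz a θ' ha, add_zero]

end untwisted

section kappa

variable {X : DeltaCx} {n : ℕ} (κ : Kap X (Fin n → ℤ))

/-- the integral cocycle `κ_u` -/
def kcoc (u : Fin n) (e : X.S 1) : ℤ := κ.k e u

/-- the cup product `κ_u ∪ κ_v` -/
def kcup (u v : Fin n) : X.S 2 → ℤ := cupZ (rfl : 1 + 1 = 2) (kcoc κ u) (kcoc κ v)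

theorem kcoc_map {p : ℕ} (u : Fin n) (s : X.S p) (f : Emb 1 p) :
    kcoc κ u (X.map f s) = κ.kk s (f 0) (f 1) u := by
  have h1 : κ.kk (X.map f s) 0 1 = κ.k (X.map f s) := by
    have h2 : (ed 0 1 (by decide) : Emb 1 1) = RelEmbedding.refl _ := by
      ext x
      fin_cases x <;> simp
    rw [Kap.kk, dif_pos (by decide), h2, X.map_id]
  rw [← κ.kk_map, h1]
  rfl

theorem kcup_apply (u v : Fin n) (s : X.S 2) :
    kcup κ u v s = κ.kk s 0 1 u * κ.kk s 1 2 v := by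
  rw [kcup, cupZ, kcoc_map, kcoc_map]
  rfl

theorem dZ_kcoc (u : Fin n) : dZ X 1 (kcoc κ u) = 0 := by
  funext s
  change ∑ i : Fin 3, (-1) ^ (i : ℕ) * kcoc κ u (X.map (fc i) s) = 0
  have h1 : κ.kk s 0 2 = κ.kk s 0 1 + κ.kk s 1 2 :=
    κ.kk_add s (by decide) (by decide)
  have h2 : κ.kk s 0 2 u = κ.kk s 0 1 u + κ.kk s 1 2 u := by
    rw [h1]
    rfl
  rw [Fin.sum_univ_three, kcoc_map, kcoc_map, kcoc_map]
  have e0 : (fc (0 : Fin 3) : Emb 1 2) 0 = 1 := rfl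
  have e1 : (fc (0 : Fin 3) : Emb 1 2) 1 = 2 := rfl
  have e2 : (fc (1 : Fin 3) : Emb 1 2) 0 = 0 := rfl
  have e3 : (fc (1 : Fin 3) : Emb 1 2) 1 = 2 := rfl
  have e4 : (fc (2 : Fin 3) : Emb 1 2) 0 = 0 := rfl
  have e5 : (fc (2 : Fin 3) : Emb 1 2) 1 = 1 := rfl
  rw [e0, e1, e2, e3, e4, e5, h2]
  norm_num

theorem dZ_kcup (u v : Fin n) : dZ X 2 (kcup κ u v) = 0 := by
  funext s
  rw [kcup, dZ_cupZ (rfl : 1 + 1 = 2), dZ_kcoc, dZ_kcoc]
  simp [cupZ]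

theorem cup22_kcup (z : X.S 4 →₀ ℤ) (i j k l : Fin n) :
    cup22 z (kcup κ i j) (kcup κ k l) = cup4 κ z i j k l := by
  unfold cup22 cup4 Finsupp.sum
  refine Finset.sum_congr rfl fun s _ => ?_
  have h1 : kcup κ i j (X.map (front (rfl : 2 + 2 = 4)) s) = κ.kk s 0 1 i * κ.kk s 1 2 j := by
    rw [kcup_apply, κ.kk_map, κ.kk_map]
    rfl
  have h2 : kcup κ k l (X.map (back (rfl : 2 + 2 = 4)) s) = κ.kk s 2 3 k * κ.kk s 3 4 l := by
    rw [kcup_apply, κ.kk_map, κ.kk_map]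
    rfl
  beta_reduce
  rw [h1, h2]
  ring

/-- the pairs of factors commute -/
theorem cup4_symm (z : X.S 4 →₀ ℤ) (hz : bdZ 3 z = 0) (i j k l : Fin n) :
    cup4 κ z k l i j = cup4 κ z i j k l := by
  have h0 : del (kapZero X) 1 (kcup κ i j) = 0 := by rw [del_one, dZ_kcup]
  have h0' : del (kapZero X) 1 (kcup κ k l) = 0 := by rw [del_one, dZ_kcup]
  have h1 := fun s => cup_comm (kapZero X) 1 1 (rfl : 2 + 2 = 4) (kcup κ k l) (kcup κ i j) s
  rw [h0, h0', one_mul] at h1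
  have h2 : ∀ s, cupZ (rfl : 2 + 2 = 4) (kcup κ k l) (kcup κ i j) s
      - cupZ (rfl : 2 + 2 = 4) (kcup κ i j) (kcup κ k l) s
      = - dZ X 3 (cup1 (kapZero X) 1 1 (rfl : 2 + 2 = 3 + 1) (kcup κ k l) (kcup κ i j)) s := by
    intro s
    have h3 := h1 s
    rw [cup_one, cup_one, del_one] at h3
    have h4 : cup1 (kapZero X) 1 1 (show (2 + 1) + 2 = 4 + 1 by omega) (0 : X.S (2 + 1) → ℤ)
        (kcup κ i j) s = 0 := by
      simp [cup1, cup1S, hat]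
    have h5 : cup1 (kapZero X) 1 1 (show 2 + (2 + 1) = 4 + 1 by omega) (kcup κ k l)
        (0 : X.S (2 + 1) → ℤ) s = 0 := by
      simp [cup1, cup1S, hat]
    rw [h4, h5] at h3
    linear_combination h3
  rw [← cup22_kcup, ← cup22_kcup, cup22_eq, cup22_eq, ← sub_eq_zero, ← ev_sub, funext h2]
  have h6 := ev_smul z (-1 : ℤ)
    (dZ X 3 (cup1 (kapZero X) 1 1 (rfl : 2 + 2 = 3 + 1) (kcup κ k l) (kcup κ i j)))
  simp only [neg_mul, one_mul] at h6
  rw [h6, ev_dZ z hz, neg_zero]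

end kappa

end Pool.Agent.PD4.Top
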