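import Pool.Agent.PD4.Top.Tr0

/-!
# The low part of the algebraic input: loops, commutators, augmentation cocycle, contraction

From `LowExact κ` (`H₀ = ℤ`, `H₁ = 0` over `ℤ[ℤⁿ]`) and a finite model: the fields
`g`, `τ`, `Y`, `η` of `PDData`.
-/

namespace Pool.Agent.PD4.Top

open Matrix LauR Alg

section aug

variable {X : DeltaCx} {n : ℕ}

theorem epsL_single (m : Fin n → ℤ) (r : ℤ) :
    epsL (AddMonoidAlgebra.single m r : Lam n) = r := laug_single m r

theorem aug_zero : aug (0 : X.S 0 →₀ Lam n) = 0 := by simp [aug]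

theorem aug_add (x y : X.S 0 →₀ Lam n) : aug (x + y) = aug x + aug y := by
  classical
  exact Finsupp.sum_add_index' (fun _ => map_zero _) (fun _ _ _ => map_add _ _ _)

theorem aug_single (v : X.S 0) (a : Lam n) : aug (Finsupp.single v a) = epsL a :=
  Finsupp.sum_single_index (map_zero _)

theorem aug_smul (r : Lam n) (x : X.S 0 →₀ Lam n) : aug (r • x) = epsL r * aug x := by
  induction x using Finsupp.induction_linear with
  | zero => simp [aug_zero]
  | add f g hf hg => rw [smul_add, aug_add, hf, hg, aug_add, mul_add]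
  | single v a => rw [Finsupp.smul_single, aug_single, aug_single, smul_eq_mul, map_mul]

/-- the augmentation as an additive map -/
noncomputable def augHom : (X.S 0 →₀ Lam n) →+ ℤ where
  toFun := aug
  map_zero' := aug_zero
  map_add' := aug_add

theorem aug_neg (x : X.S 0 →₀ Lam n) : aug (-x) = -aug x := map_neg augHom x

theorem aug_sub (x y : X.S 0 →₀ Lam n) : aug (x - y) = aug x - aug y := map_sub augHom x y

theorem aug_sum {ι : Type*} (s : Finset ι) (f : ι → X.S 0 →₀ Lam n) :
    aug (∑ i ∈ s, f i) = ∑ i ∈ s, aug (f i) := map_sum augHom f s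

theorem aug_bd (κ : Kap X (Fin n → ℤ)) (x : X.S 1 →₀ Lam n) : aug (bd κ tau 0 x) = 0 := by
  induction x using Finsupp.induction_linear with
  | zero => simp [aug_zero]
  | add f g hf hg => rw [map_add, aug_add, hf, hg, add_zero]
  | single s r =>
    rw [bd_single, Fin.sum_univ_two, aug_add, aug_single, aug_single, cv_tau, cv_tau, map_mul,
      map_mul, map_mul, map_mul, epsL_single, epsL_single]
    simp

/-- the augmentation ideal is generated by the `t_j - 1` -/
theorem exists_of_eps_zero (a : Lam n) (ha : epsL a = 0) :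
    ∃ b : Fin n → Lam n, ∑ j, b j * (T ℤ j - 1) = a := by
  set J : Ideal (Lam n) := Ideal.span (Set.range fun j : Fin n => (T ℤ j - 1 : Lam n)) with hJ
  have hT : ∀ j : Fin n, Ideal.Quotient.mk J (T ℤ j) = 1 := fun j => by
    have h1 : (T ℤ j - 1 : Lam n) ∈ J := Ideal.subset_span ⟨j, rfl⟩
    have h2 := Ideal.Quotient.eq_zero_iff_mem.2 h1
    rwa [map_sub, map_one, sub_eq_zero] at h2
  let H : AddSubgroup (Fin n → ℤ) :=
    { carrier := {m | Ideal.Quotient.mk J (AddMonoidAlgebra.single m 1) = 1}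
      zero_mem' := by
        change Ideal.Quotient.mk J (AddMonoidAlgebra.single 0 1) = 1
        rw [← AddMonoidAlgebra.one_def, map_one]
      add_mem' := by
        intro p q hp hq
        change Ideal.Quotient.mk J (AddMonoidAlgebra.single (p + q) 1) = 1
        have h1 : (AddMonoidAlgebra.single (p + q) 1 : Lam n)
            = AddMonoidAlgebra.single p 1 * AddMonoidAlgebra.single q 1 := by
          rw [AddMonoidAlgebra.single_mul_single, one_mul]
        rw [h1, map_mul, hp, hq, one_mul]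
      neg_mem' := by
        intro p hp
        change Ideal.Quotient.mk J (AddMonoidAlgebra.single (-p) 1) = 1
        have h1 : (AddMonoidAlgebra.single (-p) 1 * AddMonoidAlgebra.single p 1 : Lam n) = 1 := by
          rw [AddMonoidAlgebra.single_mul_single, neg_add_cancel, one_mul,
            ← AddMonoidAlgebra.one_def]
        have h2 := congrArg (Ideal.Quotient.mk J) h1
        rwa [map_mul, hp, mul_one, map_one] at h2 }
  have hm : ∀ m : Fin n → ℤ, Ideal.Quotient.mk J (AddMonoidAlgebra.single m 1) = 1 := by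
    intro m
    have h1 : m = ∑ j, m j • (Pi.single j (1 : ℤ) : Fin n → ℤ) := by
      funext i
      simp [Finset.sum_apply, Pi.single_apply]
    have h2 : m ∈ H := by
      rw [h1]
      exact H.sum_mem fun j _ => H.zsmul_mem (hT j) _
    exact h2
  have h3 : ∀ x : Lam n, Ideal.Quotient.mk J x = ((epsL x : ℤ) : Lam n ⧸ J) := by
    intro x
    induction x using AddMonoidAlgebra.induction_linear with
    | zero => simp
    | add f g hf hg => rw [map_add, hf, hg, map_add, Int.cast_add]
    | single m r =>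
      have h4 : (AddMonoidAlgebra.single m r : Lam n) = (r : ℤ) • AddMonoidAlgebra.single m 1 := by
        rw [AddMonoidAlgebra.smul_single, smul_eq_mul, mul_one]
      rw [epsL_single, h4, map_zsmul, hm, zsmul_one]
  have h5 : a ∈ J := by
    rw [← Ideal.Quotient.eq_zero_iff_mem, h3, ha, Int.cast_zero]
  exact (Ideal.mem_span_range_iff_exists_fun).1 h5

end aug

section low

variable {X : DeltaCx} {n : ℕ} {κ : Kap X (Fin n → ℤ)}

theorem FinModel.hg_d (F : FinModel κ) : Hg F.dg F.dg (-1) F.d := fun i j h => by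
  have := F.hd i j h
  simp only [FinModel.dg]
  omega

/-- the low part of the algebraic input -/
structure LowData (F : FinModel κ) (v0 : X.S 0) where
  g : Matrix F.I (KI n) (LauR ℤ n)
  hg0 : ∀ a, g a (Sum.inl ()) = F.h 0 (Finsupp.single v0 1) a
  hg : Hg F.dg (degK n) 0 g
  dg : F.d * g = g * kap ℤ n
  τ : Matrix (F.I ⊕ KI n) (F.I ⊕ KI n) (LauR ℤ n)
  hτ : Hg (degG F.dg n) (degG F.dg n) 1 τ
  τlow : (coneG F.d g * τ + τ * coneG F.d g) * pr _ (degG F.dg n) (· ≤ 1) =
    pr _ (degG F.dg n) (· ≤ 1)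
  Y : Fin n → Fin n → F.I → LauR ℤ n
  hY : ∀ i j, F.d *ᵥ (Y i j) =
    (T ℤ i - 1) • (fun a => g a (Sum.inr j)) - (T ℤ j - 1) • (fun a => g a (Sum.inr i))
  η : F.I → ℤ
  hηa : ∀ i, η i = aug (F.g 0 (Pi.single i 1))
  hη0 : ∀ i, η i ≠ 0 → F.dg i = 0
  hη : (F.d.map eps)ᵀ *ᵥ η = 0
  hη1 : η ⬝ᵥ (fun i => eps (g i (Sum.inl ()))) = 1

/-- the augmentation of `g₀ y` in terms of `η` -/
theorem FinModel.aug_g (F : FinModel κ) (y : F.I → Lam n) :
    aug (F.g 0 y) = ∑ i, epsL (y i) * aug (F.g 0 (Pi.single i 1)) := by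
  have h1 : y = ∑ i, y i • (Pi.single i (1 : Lam n) : F.I → Lam n) := by
    funext j
    simp [Finset.sum_apply, Pi.single_apply]
  conv_lhs => rw [h1]
  rw [map_sum, aug_sum]
  refine Finset.sum_congr rfl fun i _ => ?_
  rw [map_smul, aug_smul]

/-- a cycle of degree one in the finite model is a boundary -/
theorem FinModel.cycle_one (F : FinModel κ) (hL : LowExact κ) (c : F.I → Lam n)
    (hc : ∀ i, c i ≠ 0 → F.deg i = 1) (h0 : F.d *ᵥ c = 0) : ∃ y, F.d *ᵥ y = c := by
  obtain ⟨w, hw⟩ := hL.ex1 (F.g 1 c) (by rw [F.g_bd, h0, map_zero])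
  refine ⟨F.h 2 w - F.Q *ᵥ c, ?_⟩
  have h1 := F.Q_eq 1 c hc
  rw [h0, Matrix.mulVec_zero, add_zero] at h1
  rw [Matrix.mulVec_sub, ← h1, ← F.h_bd, hw]
  abel

/-- a vector of degree zero is a boundary plus a multiple of the base point -/
theorem FinModel.deg_zero (F : FinModel κ) (hL : LowExact κ) (v0 : X.S 0) (c : F.I → Lam n)
    (hc : ∀ i, c i ≠ 0 → F.deg i = 0) :
    ∃ y, F.d *ᵥ y + ((aug (F.g 0 c) : ℤ) : Lam n) • F.h 0 (Finsupp.single v0 1) = c := by
  have h0 : F.d *ᵥ c = 0 := by
    funext i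
    rw [Matrix.mulVec, dotProduct]
    refine Finset.sum_eq_zero fun j _ => ?_
    by_contra h
    have h1 := F.hd i j (left_ne_zero_of_mul h)
    have h2 := hc j (right_ne_zero_of_mul h)
    omega
  obtain ⟨w, hw⟩ := hL.ex0 (F.g 0 c - Finsupp.single v0 ((aug (F.g 0 c) : ℤ) : Lam n)) (by
    rw [aug_sub, aug_single, map_intCast, Int.cast_id, sub_self])
  refine ⟨F.h 1 w - F.Q *ᵥ c, ?_⟩
  have h1 := F.Q_eq 0 c hc
  rw [h0, Matrix.mulVec_zero, add_zero] at h1
  have h2 : F.h 0 (Finsupp.single v0 ((aug (F.g 0 c) : ℤ) : Lam n))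
      = ((aug (F.g 0 c) : ℤ) : Lam n) • F.h 0 (Finsupp.single v0 1) := by
    rw [← map_smul, Finsupp.smul_single, smul_eq_mul, mul_one]
  rw [Matrix.mulVec_sub, ← h1, ← F.h_bd, hw, map_sub, h2]
  abel

theorem exists_lowData (F : FinModel κ) (hL : LowExact κ) (v0 : X.S 0) :
    Nonempty (LowData F v0) := by
  classical
  set p0 : F.I → Lam n := F.h 0 (Finsupp.single v0 1) with hp0
  -- the loops
  have hx : ∀ j : Fin n, ∃ x : X.S 1 →₀ Lam n,
      bd κ tau 0 x = (T ℤ j - 1 : Lam n) • Finsupp.single v0 1 := by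
    intro j
    apply hL.ex0
    rw [aug_smul, aug_single, map_one, mul_one, map_sub, map_one]
    change epsL (AddMonoidAlgebra.single (Pi.single j 1) 1) - 1 = 0
    rw [epsL_single, sub_self]
  choose x hx using hx
  have hxd : ∀ j, F.d *ᵥ F.h 1 (x j) = (T ℤ j - 1 : Lam n) • p0 := by
    intro j
    rw [← F.h_bd, hx, map_smul]
  have hp0d : F.d *ᵥ p0 = 0 := by
    funext i
    rw [Matrix.mulVec, dotProduct]
    refine Finset.sum_eq_zero fun j _ => ?_
    by_contra h
    have h1 := F.hd i j (left_ne_zero_of_mul h)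
    have h2 := F.h_supp 0 _ j (right_ne_zero_of_mul h)
    omega
  set g : Matrix F.I (KI n) (LauR ℤ n) :=
    Matrix.of fun a k => Sum.elim (fun _ => p0 a) (fun j => F.h 1 (x j) a) k with hg
  have hgv : ∀ w : KI n → Lam n,
      g *ᵥ w = w (Sum.inl ()) • p0 + ∑ j, w (Sum.inr j) • F.h 1 (x j) := by
    intro w
    funext a
    rw [Matrix.mulVec, dotProduct, Fintype.sum_sum_type]
    simp only [Finset.univ_unique, Finset.sum_singleton, Pi.add_apply, Pi.smul_apply,
      Finset.sum_apply, smul_eq_mul]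
    congr 1
    · exact mul_comm _ _
    · exact Finset.sum_congr rfl fun j _ => mul_comm _ _
  have hgH : Hg F.dg (degK n) 0 g := by
    rintro i (k | k) h
    · have := F.h_supp 0 _ i h
      change (F.deg i : ℤ) = 0 + 0
      omega
    · have := F.h_supp 1 _ i h
      change (F.deg i : ℤ) = 1 + 0
      omega
  have hdg : F.d * g = g * kap ℤ n := by
    refine Matrix.ext fun i k => ?_
    rcases k with k | k
    · have h1 : (F.d * g) i (Sum.inl k) = (F.d *ᵥ p0) i := rfl
      rw [h1, hp0d, Matrix.mul_apply, Fintype.sum_sum_type]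
      have h2 : ∀ a : Unit, kap ℤ n (Sum.inl a) (Sum.inl k) = 0 := fun _ => rfl
      have h3 : ∀ a : Fin n, kap ℤ n (Sum.inr a) (Sum.inl k) = 0 := fun _ => rfl
      simp only [h2, h3, mul_zero, Finset.sum_const_zero, add_zero, Pi.zero_apply]
    · have h1 : (F.d * g) i (Sum.inr k) = (F.d *ᵥ F.h 1 (x k)) i := rfl
      rw [h1, hxd, Matrix.mul_apply, Fintype.sum_sum_type]
      have h2 : ∀ a : Unit, kap ℤ n (Sum.inl a) (Sum.inr k) = T ℤ k - 1 := fun _ => rfl
      have h3 : ∀ a : Fin n, kap ℤ n (Sum.inr a) (Sum.inr k) = 0 := fun _ => rfl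
      simp only [h2, h3, mul_zero, Finset.sum_const_zero, add_zero, Finset.univ_unique,
        Finset.sum_singleton, Pi.smul_apply, smul_eq_mul]
      exact mul_comm _ _
  -- exactness of the cone in degrees ≤ 1
  have hcone : ∀ (c : F.I → Lam n) (w : KI n → Lam n),
      coneG F.d g *ᵥ Sum.elim c w = Sum.elim (F.d *ᵥ c + g *ᵥ w) (-(kap ℤ n *ᵥ w)) := by
    intro c w
    rw [coneG, Matrix.fromBlocks_mulVec]
    simp [Matrix.neg_mulVec]
  have hkap : ∀ w : KI n → Lam n, kap ℤ n *ᵥ w =
      Sum.elim (fun _ => ∑ j, (T ℤ j - 1) * w (Sum.inr j)) 0 := by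
    intro w
    funext k
    rcases k with k | k
    · rw [Matrix.mulVec, dotProduct, Fintype.sum_sum_type]
      have h2 : ∀ a : Unit, kap ℤ n (Sum.inl k) (Sum.inl a) = 0 := fun _ => rfl
      have h3 : ∀ a : Fin n, kap ℤ n (Sum.inl k) (Sum.inr a) = T ℤ a - 1 := fun _ => rfl
      simp only [h2, h3, zero_mul, Finset.sum_const_zero, zero_add, Sum.elim_inl]
    · rw [Matrix.mulVec, dotProduct]
      refine Finset.sum_eq_zero fun a _ => ?_
      have h2 : kap ℤ n (Sum.inr k) a = 0 := by rcases a with a | a <;> rfl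
      rw [h2, zero_mul]
  have hconeH : Hg (degG F.dg n) (degG F.dg n) (-1) (coneG F.d g) := by
    rintro (i | i) (j | j) h
    · exact F.hg_d i j h
    · have := hgH i j h
      change F.dg i = degK n j + 1 + -1
      omega
    · exact absurd rfl h
    · have := (hg_kap ℤ n).neg i j h
      change degK n i + 1 = degK n j + 1 + -1
      omega
  have hcone2 : coneG F.d g * coneG F.d g = 0 := by
    rw [coneG, Matrix.fromBlocks_multiply, F.dd, hdg, ← Matrix.fromBlocks_zero]
    congr 1 <;> simp [kap_sq]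
  have haug1 : aug (F.g 0 p0) = 1 := by
    have h1 := F.P_zero (Finsupp.single v0 1)
    rw [sub_eq_iff_eq_add] at h1
    rw [hp0, h1, aug_add, aug_bd, aug_single, map_one, zero_add]
  have hex : ∀ m ≤ (1 : ℤ), ∀ z : F.I ⊕ KI n → Lam n,
      (∀ j, z j ≠ 0 → degG F.dg n j = m) → coneG F.d g *ᵥ z = 0 →
      ∃ y, coneG F.d g *ᵥ y = z := by
    intro m hm z hz hz0
    obtain ⟨c, w, rfl⟩ : ∃ (c : F.I → Lam n) (w : KI n → Lam n), z = Sum.elim c w :=
      ⟨z ∘ Sum.inl, z ∘ Sum.inr, (Sum.elim_comp_inl_inr z).symm⟩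
    have hc : ∀ i, c i ≠ 0 → (F.deg i : ℤ) = m := fun i h => hz (Sum.inl i) h
    have hw : ∀ k, w k ≠ 0 → degK n k + 1 = m := fun k h => hz (Sum.inr k) h
    have hwr : ∀ j, w (Sum.inr j) = 0 := by
      intro j
      by_contra h
      have h1 : (1 : ℤ) + 1 = m := hw _ h
      omega
    rw [hcone] at hz0
    have hz1 : F.d *ᵥ c + w (Sum.inl ()) • p0 = 0 := by
      have h1 : F.d *ᵥ c + g *ᵥ w = 0 := by
        funext i
        exact congrFun hz0 (Sum.inl i)
      rw [hgv] at h1
      simpa [hwr] using h1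
    rcases lt_or_eq_of_le hm with hm1 | hm1
    · -- degrees `≤ 0`
      have hw0 : w (Sum.inl ()) = 0 := by
        by_contra h
        have h1 : (0 : ℤ) + 1 = m := hw _ h
        omega
      have hc0 : ∀ i, c i ≠ 0 → F.deg i = 0 := by
        intro i h
        have := hc i h
        omega
      obtain ⟨y, hy⟩ := F.deg_zero hL v0 c hc0
      refine ⟨Sum.elim y (Sum.elim (fun _ => ((aug (F.g 0 c) : ℤ) : Lam n)) 0), ?_⟩
      rw [hcone, hgv, hkap]
      funext k
      rcases k with k | k
      · have := congrFun hy k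
        simpa using this
      · rcases k with k | k
        · simp [hw0]
        · simp [hwr]
    · subst hm1
      have hc1 : ∀ i, c i ≠ 0 → F.deg i = 1 := by
        intro i h
        have := hc i h
        omega
      have heps : epsL (w (Sum.inl ())) = 0 := by
        have h1 : F.g 0 (F.d *ᵥ c) + w (Sum.inl ()) • F.g 0 p0 = 0 := by
          rw [← map_smul, ← map_add, hz1, map_zero]
        have h2 := congrArg aug h1
        rw [aug_add, ← F.g_bd, aug_bd, aug_smul, haug1, mul_one, zero_add, aug_zero] at h2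
        exact h2
      obtain ⟨b, hb⟩ := exists_of_eps_zero _ heps
      have hs : F.d *ᵥ (∑ j, b j • F.h 1 (x j)) = w (Sum.inl ()) • p0 := by
        rw [← hb, Finset.sum_smul, Matrix.mulVec_sum]
        refine Finset.sum_congr rfl fun j _ => ?_
        rw [Matrix.mulVec_smul, hxd, smul_smul]
      obtain ⟨y, hy⟩ := F.cycle_one hL (c + ∑ j, b j • F.h 1 (x j)) (by
        intro i h
        by_cases h1 : c i = 0
        · rw [Pi.add_apply, h1, zero_add, Finset.sum_apply] at h
          obtain ⟨j, -, hj⟩ := Finset.exists_ne_zero_of_sum_ne_zero h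
          exact F.h_supp 1 _ i (right_ne_zero_of_mul (a := b j) hj)
        · exact hc1 i h1) (by rw [Matrix.mulVec_add, hs, hz1])
      refine ⟨Sum.elim y (Sum.elim 0 (-b)), ?_⟩
      rw [hcone, hgv, hkap, hy]
      funext k
      rcases k with k | k
      · simp [Finset.sum_apply]
      · rcases k with k | k
        · have h5 : ∑ j, (T ℤ j - 1) * b j = w (Sum.inl ()) := by
            rw [← hb]
            exact Finset.sum_congr rfl fun j _ => mul_comm _ _
          simp only [Sum.elim_inr, Pi.neg_apply, Sum.elim_inl, mul_neg, Finset.sum_neg_distrib,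
            neg_neg]
          exact h5
        · simp [hwr]
  obtain ⟨τ, hτ, hτlow⟩ := exists_contraction (degG F.dg n) (coneG F.d g) hconeH hcone2 1 hex
  -- commutators
  have hYe : ∀ i j : Fin n, ∃ y : F.I → Lam n, F.d *ᵥ y =
      (T ℤ i - 1 : Lam n) • F.h 1 (x j) - (T ℤ j - 1 : Lam n) • F.h 1 (x i) := by
    intro i j
    obtain ⟨y, hy⟩ := hL.ex1 ((T ℤ i - 1 : Lam n) • x j - (T ℤ j - 1 : Lam n) • x i) (by
      rw [map_sub, map_smul, map_smul, hx, hx, smul_smul, smul_smul, mul_comm, sub_self])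
    refine ⟨F.h 2 y, ?_⟩
    rw [← F.h_bd, hy, map_sub, map_smul, map_smul]
  choose Y hY using hYe
  refine ⟨{
    g := g
    hg0 := fun a => rfl
    hg := hgH
    dg := hdg
    τ := τ
    hτ := hτ
    τlow := hτlow
    Y := Y
    hY := hY
    η := fun i => aug (F.g 0 (Pi.single i 1))
    hηa := fun i => rfl
    hη0 := ?_
    hη := ?_
    hη1 := ?_ }⟩
  · intro i h
    by_contra h1
    apply h
    have h2 : F.g 0 (Pi.single i 1) = 0 := by
      apply F.g_supp
      intro j hj
      rw [Pi.single_apply, if_neg]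
      rintro rfl
      exact h1 (by
        change (F.deg j : ℤ) = 0
        omega)
    change aug (F.g 0 (Pi.single i 1)) = 0
    rw [h2, aug_zero]
  · funext j
    have h1 := F.aug_g (F.d *ᵥ (Pi.single j 1))
    rw [← F.g_bd, aug_bd] at h1
    rw [Pi.zero_apply, h1, Matrix.mulVec, dotProduct]
    refine Finset.sum_congr rfl fun i _ => ?_
    rw [Matrix.mulVec_single_one]
    rfl
  · have h1 := F.aug_g p0
    rw [haug1] at h1
    rw [h1, dotProduct]
    exact Finset.sum_congr rfl fun i _ => mul_comm _ _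

end low

end Pool.Agent.PD4.Top
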