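import Pool.Agent.PD4.Top.Tr0

/-!
# The duality matrix: chain map, symmetry up to homotopy, gradings
-/

namespace Pool.Agent.PD4.Top

open Matrix Pool.Agent.PD4.Alg

variable {X : DeltaCx} {n : ℕ} {κ : Kap X (Fin n → ℤ)} (M : FinModel κ)

theorem hg_d : Hg M.dg M.dg (-1) M.d := by
  intro i j hij
  have := M.hd i j hij
  unfold FinModel.dg
  omega

theorem tau_unitary : Unitary (tau (n := n)) := by
  intro a
  rw [cv_tau]
  change star (AddMonoidAlgebra.single a (1 : ℤ) : LauR ℤ n) * AddMonoidAlgebra.single a 1 = 1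
  rw [LauR.star_single, AddMonoidAlgebra.single_mul_single, neg_add_cancel, one_mul]
  rfl

theorem pair_zero_left {k : ℕ} (x : X.S k →₀ Lam n) : pair (fun _ => (0 : Lam n)) x = 0 := by
  have h := pair_smul_left (0 : Lam n) (fun _ : X.S k => (0 : Lam n)) x
  have h2 : ((0 : Lam n) • fun _ : X.S k => (0 : Lam n)) = fun _ => (0 : Lam n) := by
    funext s
    simp
  rw [zero_mul, h2] at h
  exact h

theorem cap_zero (z : X.S 4 →₀ ℤ) {p q : ℕ} (h : p + q = 4) :
    cap κ tau z h (fun _ => (0 : Lam n)) = 0 := by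
  have h1 := cap_smul κ tau z h (0 : Lam n) (fun _ => (0 : Lam n))
  have h2 : ((0 : Lam n) • fun _ : X.S p => (0 : Lam n)) = fun _ => (0 : Lam n) := by
    funext s
    simp
  rw [h2, star_zero] at h1
  rw [h1]
  exact zero_smul _ _

theorem term_zero (z : X.S 4 →₀ ℤ) {p q : ℕ} (h : p + q = 4) (l k : M.I)
    (hne : ¬ (M.deg l + M.deg k = 4)) :
    pair (M.hc q l) (cap κ tau z h (M.hc p k)) = 0 := by
  by_cases hk : M.deg k = p
  · have hl : M.deg l ≠ q := by omega
    have h1 : M.hc q l = fun _ => 0 := funext fun s => M.hc_zero hl s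
    rw [h1, pair_zero_left]
  · have h1 : M.hc p k = fun _ => 0 := funext fun s => M.hc_zero hk s
    rw [h1, cap_zero, map_zero]

theorem hg_SM (z : X.S 4 →₀ ℤ) : Hg M.dg (fun i => 4 - M.dg i) 0 (SM M z) := by
  intro l k hlk
  by_contra hne
  have h1 : ¬ (M.deg l + M.deg k = 4) := by
    intro h2
    apply hne
    change (M.deg l : ℤ) = 4 - (M.deg k : ℤ) + 0
    omega
  apply hlk
  unfold SM
  rw [term_zero M z _ l k h1, term_zero M z _ l k h1, term_zero M z _ l k h1,
    term_zero M z _ l k h1, term_zero M z _ l k h1]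
  ring

theorem pb_zero_of_d (a : M.I → Lam n) : M.pb 0 (M.dᵀ *ᵥ a) = fun _ => 0 := by
  funext s
  unfold FinModel.pb
  refine Finset.sum_eq_zero fun i _ => ?_
  by_cases h : M.deg i = 0
  · have h1 : (M.dᵀ *ᵥ a) i = 0 := by
      rw [Matrix.mulVec, dotProduct]
      refine Finset.sum_eq_zero fun j _ => ?_
      rw [Matrix.transpose_apply, M.hd_zero (by omega), zero_mul]
    rw [h1, zero_mul]
  · rw [M.hc_zero h, mul_zero]

theorem star_dH (c : M.I → Lam n) : star (M.dᴴ *ᵥ c) = M.dᵀ *ᵥ star c := by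
  funext k
  simp only [Pi.star_apply, Matrix.mulVec, dotProduct, star_sum, star_mul',
    Matrix.conjTranspose_apply, star_star, Matrix.transpose_apply]

theorem SM_comm (z : X.S 4 →₀ ℤ) (hz : bdZ 3 z = 0) : M.d * SM M z = SM M z * M.dᴴ := by
  have key : ∀ c : M.I → Lam n, M.d *ᵥ (SM M z *ᵥ c) = SM M z *ᵥ (M.dᴴ *ᵥ c) := by
    intro c
    rw [SM_mulVec, SM_mulVec, star_dH, pb_zero_of_d, cap_zero, map_zero]
    simp only [Matrix.mulVec_add, Matrix.mulVec_sub, Matrix.mulVec_neg, ← M.h_bd, M.d_h_zero]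
    rw [bd_cap κ tau tau_unitary z hz (rfl : 0 + 3 = 3), bd_cap κ tau tau_unitary z hz (rfl : 1 + 2 = 3),
      bd_cap κ tau tau_unitary z hz (rfl : 2 + 1 = 3), bd_cap κ tau tau_unitary z hz (rfl : 3 + 0 = 3)]
    rw [M.del_pb, M.del_pb, M.del_pb, M.del_pb]
    simp only [map_smul]
    norm_num
    rw [sub_eq_add_neg]
  have h2 : ∀ c : M.I → Lam n, (M.d * SM M z) *ᵥ c = (SM M z * M.dᴴ) *ᵥ c := by
    intro c
    rw [← Matrix.mulVec_mulVec, ← Matrix.mulVec_mulVec, key]
  refine Matrix.ext fun i j => ?_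
  have h3 := congrFun (h2 (Pi.single j 1)) i
  rwa [Matrix.mulVec_single_one, Matrix.mulVec_single_one] at h3

/-- the symmetry homotopy -/
noncomputable def VM (z : X.S 4 →₀ ℤ) (p q : ℕ) (h : p + q = 4 + 1) :
    Matrix M.I M.I (Lam n) := fun l k =>
  ev z (cup1 κ (chb tau) tau h (cj (M.hc p k)) (M.hc q l))

theorem cup1_sum_left {χ χ' : Chr (Fin n → ℤ) (Lam n)} {p q m : ℕ} (h : p + q = m + 1)
    (r : M.I → Lam n) (a : M.I → X.S p → Lam n) (b : X.S q → Lam n) (s : X.S m) :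
    cup1 κ χ χ' h (fun t => ∑ j, r j * a j t) b s = ∑ j, r j * cup1 κ χ χ' h (a j) b s := by
  unfold cup1 cup1S
  by_cases hq : 0 < q
  · simp only [dif_pos hq]
    simp only [hat, Finset.mul_sum, Finset.sum_mul]
    rw [Finset.sum_comm]
    refine Finset.sum_congr rfl fun j _ => Finset.sum_congr rfl fun i _ => ?_
    ring
  · simp only [dif_neg hq, mul_zero, Finset.sum_const_zero]

theorem cup1_sum_right {χ χ' : Chr (Fin n → ℤ) (Lam n)} {p q m : ℕ} (h : p + q = m + 1)
    (r : M.I → Lam n) (a : X.S p → Lam n) (b : M.I → X.S q → Lam n) (s : X.S m) :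
    cup1 κ χ χ' h a (fun t => ∑ j, r j * b j t) s = ∑ j, r j * cup1 κ χ χ' h a (b j) s := by
  unfold cup1 cup1S
  by_cases hq : 0 < q
  · simp only [dif_pos hq]
    simp only [hat, Finset.mul_sum]
    rw [Finset.sum_comm]
    refine Finset.sum_congr rfl fun j _ => Finset.sum_congr rfl fun i _ => ?_
    ring
  · simp only [dif_neg hq, mul_zero, Finset.sum_const_zero]

theorem symm_key (z : X.S 4 →₀ ℤ) (hz : bdZ 3 z = 0) {p q : ℕ} (h : p + q = 4) (l k : M.I) :
    pair (M.hc q l) (cap κ tau z h (M.hc p k))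
      - (-1) ^ (p * q) * star (pair (M.hc p k) (cap κ tau z (show q + p = 4 by omega) (M.hc q l)))
      = (VM M z (p + 1) q (by omega) * M.dᴴ) l k
        + (-1) ^ p * (M.d * VM M z p (q + 1) (by omega)) l k := by
  rw [pair_cap, pair_cap]
  have e1 : star (ev z (cup κ (chb tau) tau (show q + p = 4 by omega) (cj (M.hc q l)) (M.hc p k)))
      = ev z (cup κ tau (chb tau) (show q + p = 4 by omega) (M.hc q l) (cj (M.hc p k))) := by
    rw [← starRingEnd_apply, ← ev_map]
    congr 1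
    funext s
    simp only [cup, hat, cj, starRingEnd_apply, star_mul', star_star, cv_chb]
  rw [e1, ← ev_smul, ← ev_sub]
  have e2 : (fun s => cup κ (chb tau) tau h (cj (M.hc p k)) (M.hc q l) s
      - (-1) ^ (p * q) * cup κ tau (chb tau) (show q + p = 4 by omega) (M.hc q l) (cj (M.hc p k)) s)
      = fun s => (cup1 κ (chb tau) tau (show (p + 1) + q = 4 + 1 by omega)
          (del κ (chb tau) (cj (M.hc p k))) (M.hc q l) s
        + (-1) ^ p * cup1 κ (chb tau) tau (show p + (q + 1) = 4 + 1 by omega) (cj (M.hc p k))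
          (del κ tau (M.hc q l)) s)
        - del κ 1 (cup1 κ (chb tau) tau (show p + q = 3 + 1 by omega) (cj (M.hc p k)) (M.hc q l)) s := by
    funext s
    rw [cup_comm, tau_unitary.mul]
  rw [e2, ev_sub, ev_add, ev_smul, ev_del κ z hz, sub_zero, del_cj, M.del_hc, M.del_hc]
  have e3 : (cj fun s => ∑ j, M.d k j * M.hc (p + 1) j s)
      = fun s => ∑ j, star (M.d k j) * cj (M.hc (p + 1) j) s := by
    funext s
    simp only [cj, star_sum, star_mul']
  rw [e3]
  congr 1
  · rw [Matrix.mul_apply]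
    have e4 : cup1 κ (chb tau) tau (show (p + 1) + q = 4 + 1 by omega)
        (fun s => ∑ j, star (M.d k j) * cj (M.hc (p + 1) j) s) (M.hc q l)
        = fun s => ∑ j, star (M.d k j) * cup1 κ (chb tau) tau (show (p + 1) + q = 4 + 1 by omega)
          (cj (M.hc (p + 1) j)) (M.hc q l) s :=
      funext fun s => cup1_sum_left M _ _ _ _ s
    rw [e4, ev_sum]
    refine Finset.sum_congr rfl fun j _ => ?_
    rw [ev_smul, Matrix.conjTranspose_apply, mul_comm]
    rfl
  · rw [Matrix.mul_apply]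
    have e4 : cup1 κ (chb tau) tau (show p + (q + 1) = 4 + 1 by omega)
        (cj (M.hc p k)) (fun s => ∑ j, M.d l j * M.hc (q + 1) j s)
        = fun s => ∑ j, M.d l j * cup1 κ (chb tau) tau (show p + (q + 1) = 4 + 1 by omega)
          (cj (M.hc p k)) (M.hc (q + 1) j) s :=
      funext fun s => cup1_sum_right M _ _ _ _ s
    rw [e4, ev_sum]
    congr 1
    refine Finset.sum_congr rfl fun j _ => ?_
    rw [ev_smul]
    rfl

theorem hg_VM (z : X.S 4 →₀ ℤ) (p q : ℕ) (h : p + q = 4 + 1) :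
    Hg M.dg (fun i => 5 - M.dg i) 0 (VM M z p q h) := by
  intro l k hlk
  by_contra hne
  apply hlk
  have h1 : M.deg k ≠ p ∨ M.deg l ≠ q := by
    by_contra h2
    push Not at h2
    apply hne
    change (M.deg l : ℤ) = 5 - (M.deg k : ℤ) + 0
    omega
  change ev z (cup1 κ (chb tau) tau h (cj (M.hc p k)) (M.hc q l)) = 0
  have h3 : cup1 κ (chb tau) tau h (cj (M.hc p k)) (M.hc q l) = fun _ => 0 := by
    funext s
    unfold cup1 cup1S
    by_cases hq : 0 < q
    · rw [dif_pos hq]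
      refine Finset.sum_eq_zero fun i _ => ?_
      unfold hat cj
      rcases h1 with h1 | h1
      · rw [M.hc_zero h1, star_zero]; ring
      · rw [M.hc_zero h1]; ring
    · rw [dif_neg hq]
  rw [h3, ev_zero]

theorem VM_zero_dH (z : X.S 4 →₀ ℤ) : VM M z 0 5 rfl * M.dᴴ = 0 := by
  refine Matrix.ext fun l k => ?_
  rw [Matrix.mul_apply, Matrix.zero_apply]
  refine Finset.sum_eq_zero fun j _ => ?_
  by_cases h : M.deg j = 0
  · rw [Matrix.conjTranspose_apply, M.hd_zero (by omega), star_zero, mul_zero]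
  · have h1 : VM M z 0 5 rfl l j = 0 := by
      have h3 : cup1 κ (chb tau) tau (rfl : 0 + 5 = 4 + 1) (cj (M.hc 0 j)) (M.hc 5 l)
          = fun _ => 0 := by
        funext s
        unfold cup1 cup1S
        rw [dif_pos (by norm_num : 0 < 5), Finset.univ_eq_empty, Finset.sum_empty]
      change ev z (cup1 κ (chb tau) tau (rfl : 0 + 5 = 4 + 1) (cj (M.hc 0 j)) (M.hc 5 l)) = 0
      rw [h3, ev_zero]
    rw [h1, zero_mul]

theorem d_VM_five (z : X.S 4 →₀ ℤ) : M.d * VM M z 5 0 rfl = 0 := by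
  have h : VM M z 5 0 rfl = 0 := by
    refine Matrix.ext fun j k => ?_
    have h3 : cup1 κ (chb tau) tau (rfl : 5 + 0 = 4 + 1) (cj (M.hc 5 k)) (M.hc 0 j)
        = fun _ => 0 := by
      funext s
      unfold cup1 cup1S
      rw [dif_neg (by norm_num : ¬ 0 < 0)]
    change ev z (cup1 κ (chb tau) tau (rfl : 5 + 0 = 4 + 1) (cj (M.hc 5 k)) (M.hc 0 j)) = 0
    rw [h3, ev_zero]
  rw [h, mul_zero]

theorem SM_symm (z : X.S 4 →₀ ℤ) (hz : bdZ 3 z = 0) :
    ∃ U : Matrix M.I M.I (Lam n), Hg M.dg (fun i => 5 - M.dg i) 0 U ∧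
      SM M z - (SM M z)ᴴ = M.d * U + U * M.dᴴ := by
  refine ⟨-VM M z 0 5 rfl - VM M z 1 4 rfl + VM M z 2 3 rfl + VM M z 3 2 rfl - VM M z 4 1 rfl
    - VM M z 5 0 rfl, ?_, ?_⟩
  · exact (((((hg_VM M z 0 5 rfl).neg.sub (hg_VM M z 1 4 rfl)).add (hg_VM M z 2 3 rfl)).add
      (hg_VM M z 3 2 rfl)).sub (hg_VM M z 4 1 rfl)).sub (hg_VM M z 5 0 rfl)
  · refine Matrix.ext fun l k => ?_
    have k04 := symm_key M z hz (rfl : 0 + 4 = 4) l k
    have k13 := symm_key M z hz (rfl : 1 + 3 = 4) l k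
    have k22 := symm_key M z hz (rfl : 2 + 2 = 4) l k
    have k31 := symm_key M z hz (rfl : 3 + 1 = 4) l k
    have k40 := symm_key M z hz (rfl : 4 + 0 = 4) l k
    have z1 := congrFun (congrFun (VM_zero_dH M z) l) k
    have z2 := congrFun (congrFun (d_VM_five M z) l) k
    simp only [Matrix.sub_apply, Matrix.conjTranspose_apply, Matrix.add_apply, Matrix.mul_add,
      Matrix.mul_sub, Matrix.mul_neg, Matrix.add_mul, Matrix.sub_mul, Matrix.neg_mul,
      Matrix.neg_apply, SM, star_add, star_sub, star_neg]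
    rw [Matrix.zero_apply] at z1 z2
    norm_num at k04 k13 k22 k31 k40
    linear_combination -k04 + k13 + k22 - k31 - k40 + z1 + z2

end Pool.Agent.PD4.Top
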