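import Pool.Agent.PD4.Top.Tr0

/-!
# Untwisted pull-backs of cochains along `h` (`hp`) and `g` (`gp`) (owner: helper87)

Both are cochain maps for `dZ`, and `gp (hp y) - y` is a coboundary for every cocycle `y`.
-/

namespace Pool.Agent.PD4.Top

open Matrix LauR

namespace FinModel

variable {X : DeltaCx} {n : ℕ} {κ : Kap X (Fin n → ℤ)} (F : FinModel κ)

/-- evaluation of an untwisted cochain on a twisted chain through the augmentation -/
noncomputable def evE {p : ℕ} (c : X.S p → ℤ) (x : X.S p →₀ Lam n) : ℤ :=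
  x.sum fun s a => eps a * c s

theorem evE_add {p : ℕ} (c : X.S p → ℤ) (x y : X.S p →₀ Lam n) :
    evE c (x + y) = evE c x + evE c y := by
  unfold evE
  exact Finsupp.sum_add_index' (fun _ => by simp) (fun _ _ _ => by rw [map_add, add_mul])

theorem evE_zero {p : ℕ} (c : X.S p → ℤ) : evE (n := n) c 0 = 0 := by
  simp [evE]

theorem evE_single {p : ℕ} (c : X.S p → ℤ) (s : X.S p) (a : Lam n) :
    evE c (Finsupp.single s a) = eps a * c s := by
  unfold evE
  rw [Finsupp.sum_single_index]
  simp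

theorem evE_smul {p : ℕ} (c : X.S p → ℤ) (r : Lam n) (x : X.S p →₀ Lam n) :
    evE c (r • x) = eps r * evE c x := by
  induction x using Finsupp.induction_linear with
  | zero => simp [evE_zero]
  | add f g hf hg => rw [smul_add, evE_add, evE_add, hf, hg, mul_add]
  | single s a => rw [Finsupp.smul_single, evE_single, evE_single, smul_eq_mul, map_mul, mul_assoc]

theorem evE_sum {p : ℕ} (c : X.S p → ℤ) {ι : Type*} (s : Finset ι) (x : ι → X.S p →₀ Lam n) :
    evE c (∑ i ∈ s, x i) = ∑ i ∈ s, evE c (x i) := by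
  classical
  induction s using Finset.induction_on with
  | empty => simp [evE_zero]
  | insert a s ha ih => rw [Finset.sum_insert ha, Finset.sum_insert ha, evE_add, ih]

theorem evE_lin {p : ℕ} (r : ℤ) (c c' : X.S p → ℤ) (x : X.S p →₀ Lam n) :
    evE (r • c + c') x = r * evE c x + evE c' x := by
  induction x using Finsupp.induction_linear with
  | zero => simp [evE_zero]
  | add f g hf hg => rw [evE_add, evE_add, evE_add, hf, hg]; ring
  | single s a =>
    rw [evE_single, evE_single, evE_single, Pi.add_apply, Pi.smul_apply, smul_eq_mul]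
    ring

theorem eps_cv (m : Fin n → ℤ) : eps (cv (tau (n := n)) m) = 1 := by
  rw [cv_tau, eps_single]

/-- boundaries: evaluation of a coboundary -/
theorem evE_bd {p : ℕ} (c : X.S p → ℤ) (x : X.S (p + 1) →₀ Lam n) :
    evE c (bd κ tau p x) = evE (dZ X p c) x := by
  induction x using Finsupp.induction_linear with
  | zero => simp [evE_zero]
  | add f g hf hg => rw [map_add, evE_add, evE_add, hf, hg]
  | single s a =>
    rw [bd_single, evE_sum, evE_single]
    change _ = eps a * ∑ i : Fin (p + 2), (-1) ^ (i : ℕ) * c (X.map (fc i) s)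
    rw [Finset.mul_sum]
    refine Finset.sum_congr rfl fun i _ => ?_
    rw [evE_single, map_mul, map_mul, eps_cv, map_pow, map_neg, map_one, mul_one]
    ring

/-- untwisted pull-back of a cochain of the model along `h` -/
noncomputable def hp (y : F.I → ℤ) {p : ℕ} (s : X.S p) : ℤ :=
  y ⬝ᵥ fun i => eps (F.h p (Finsupp.single s 1) i)

theorem evE_hp (y : F.I → ℤ) {p : ℕ} (x : X.S p →₀ Lam n) :
    evE (F.hp y) x = y ⬝ᵥ fun i => eps (F.h p x i) := by
  induction x using Finsupp.induction_linear with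
  | zero =>
    rw [map_zero, evE_zero]
    simp
  | add f g hf hg =>
    rw [map_add, evE_add, hf, hg, ← dotProduct_add]
    congr 1
    funext i
    rw [Pi.add_apply, Pi.add_apply, map_add]
  | single s a =>
    have h1 : Finsupp.single s a = a • (Finsupp.single s 1 : X.S p →₀ Lam n) := by
      rw [Finsupp.smul_single, smul_eq_mul, mul_one]
    rw [evE_single, h1, map_smul, hp, ← smul_eq_mul, ← dotProduct_smul]
    congr 1
    funext i
    rw [Pi.smul_apply, Pi.smul_apply, smul_eq_mul, smul_eq_mul, map_mul]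

theorem eps_mulVec (M : Matrix F.I F.I (Lam n)) (w : F.I → Lam n) :
    (fun i => eps ((M *ᵥ w) i)) = M.map eps *ᵥ fun i => eps (w i) := by
  funext i
  simp only [Matrix.mulVec, dotProduct, map_sum, map_mul, Matrix.map_apply]

/-- `h^*` is a cochain map -/
theorem dZ_hp (y : F.I → ℤ) {p : ℕ} :
    dZ X p (F.hp y) = F.hp ((F.d.map eps)ᵀ *ᵥ y) := by
  funext s
  have h := evE_bd (κ := κ) (F.hp y (p := p)) (Finsupp.single s (1 : Lam n))
  rw [evE_single, map_one, one_mul, evE_hp, F.h_bd, eps_mulVec, Matrix.dotProduct_mulVec,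
    ← Matrix.mulVec_transpose] at h
  exact h.symm

theorem hp_add (y y' : F.I → ℤ) {p : ℕ} : F.hp (y + y') (p := p) = F.hp y + F.hp y' := by
  funext s
  exact add_dotProduct _ _ _

theorem hp_smul (r : ℤ) (y : F.I → ℤ) {p : ℕ} : F.hp (r • y) (p := p) = r • F.hp y := by
  funext s
  exact smul_dotProduct _ _ _

theorem hp_zero {p : ℕ} : F.hp 0 (p := p) = 0 := by
  funext s
  exact zero_dotProduct _

/-- untwisted pull-back of a cochain of `X` along `g` -/
noncomputable def gp {p : ℕ} (c : X.S p → ℤ) (i : F.I) : ℤ :=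
  evE c (F.g p (Pi.single i 1))

theorem g_eq {p : ℕ} (w : F.I → Lam n) : F.g p w = ∑ i, w i • F.g p (Pi.single i 1) := by
  conv_lhs => rw [pi_eq_sum_univ' w]
  rw [map_sum]
  refine Finset.sum_congr rfl fun i _ => ?_
  rw [← map_smul]

theorem evE_g {p : ℕ} (c : X.S p → ℤ) (w : F.I → Lam n) :
    evE c (F.g p w) = (fun i => eps (w i)) ⬝ᵥ F.gp c := by
  rw [g_eq, evE_sum]
  refine Finset.sum_congr rfl fun i _ => ?_
  rw [evE_smul]
  rfl

/-- `g^*` is a cochain map -/
theorem gp_dZ {p : ℕ} (c : X.S p → ℤ) :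
    F.gp (dZ X p c) = (F.d.map eps)ᵀ *ᵥ F.gp c := by
  funext j
  change evE (dZ X p c) (F.g (p + 1) (Pi.single j 1)) = _
  rw [← evE_bd (κ := κ), F.g_bd, evE_g]
  have h1 : (F.d *ᵥ Pi.single j (1 : Lam n)) = fun i => F.d i j := by
    funext i
    simp [Matrix.mulVec, dotProduct, Pi.single_apply]
  rw [h1]
  rfl

theorem gp_smul {p : ℕ} (r : ℤ) (c : X.S p → ℤ) : F.gp (r • c) = r • F.gp c := by
  funext i
  have h := evE_lin r c 0 (F.g p (Pi.single i 1))
  have h0 : evE (0 : X.S p → ℤ) (F.g p (Pi.single i 1)) = 0 := by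
    have := evE_lin (0 : ℤ) (0 : X.S p → ℤ) 0 (F.g p (Pi.single i 1))
    rw [zero_smul, zero_add, zero_mul, zero_add] at this
    have h2 := evE_lin (1 : ℤ) (0 : X.S p → ℤ) 0 (F.g p (Pi.single i 1))
    rw [one_smul, zero_add, one_mul] at h2
    omega
  rw [add_zero, h0, add_zero] at h
  exact h

/-- `g^* h^*` is the identity on cohomology -/
theorem gp_hp {p : ℕ} (y : F.I → ℤ) (hy : ∀ i, y i ≠ 0 → F.deg i = p)
    (hd : (F.d.map eps)ᵀ *ᵥ y = 0) :
    F.gp (F.hp y (p := p)) = y + (F.d.map eps)ᵀ *ᵥ ((F.Q.map eps)ᵀ *ᵥ y) := by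
  funext i
  change evE (F.hp y) (F.g p (Pi.single i 1)) = _
  rw [Pi.add_apply]
  by_cases hi : F.deg i = p
  · rw [evE_hp]
    have h1 := F.Q_eq p (Pi.single i 1) (by
      intro j hj
      by_cases hij : j = i
      · rw [hij, hi]
      · exact absurd (by simp [hij]) hj)
    have h2 : F.h p (F.g p (Pi.single i 1)) = Pi.single i 1 +
        (F.d *ᵥ (F.Q *ᵥ Pi.single i 1) + F.Q *ᵥ (F.d *ᵥ Pi.single i 1)) := by
      rw [← h1]
      abel
    rw [h2]
    have h3 : (fun j => eps ((Pi.single i (1 : Lam n) +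
        (F.d *ᵥ (F.Q *ᵥ Pi.single i 1) + F.Q *ᵥ (F.d *ᵥ Pi.single i 1)) : F.I → Lam n) j)) =
        Pi.single i 1 + (F.d.map eps *ᵥ (F.Q.map eps *ᵥ Pi.single i 1) +
          F.Q.map eps *ᵥ (F.d.map eps *ᵥ Pi.single i 1)) := by
      have h4 : (fun j => eps ((Pi.single i (1 : Lam n) : F.I → Lam n) j)) = Pi.single i 1 := by
        funext j
        by_cases hij : j = i
        · subst hij
          simp
        · simp [hij]
      funext j
      simp only [Pi.add_apply, map_add]
      congr 1
      · exact congrFun h4 j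
      · congr 1
        · have h5 := congrFun (F.eps_mulVec F.d (F.Q *ᵥ Pi.single i 1)) j
          rw [F.eps_mulVec, h4] at h5
          exact h5
        · have h5 := congrFun (F.eps_mulVec F.Q (F.d *ᵥ Pi.single i 1)) j
          rw [F.eps_mulVec, h4] at h5
          exact h5
    rw [h3, dotProduct_add, dotProduct_add]
    have h6 : y ⬝ᵥ (F.Q.map eps *ᵥ (F.d.map eps *ᵥ Pi.single i 1)) =
        ((F.d.map eps)ᵀ *ᵥ ((F.Q.map eps)ᵀ *ᵥ y)) i := by
      rw [Matrix.dotProduct_mulVec, Matrix.dotProduct_mulVec, ← Matrix.mulVec_transpose,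
        ← Matrix.mulVec_transpose, dotProduct_single, mul_one]
    have h7 : y ⬝ᵥ (F.d.map eps *ᵥ (F.Q.map eps *ᵥ Pi.single i 1)) = 0 := by
      rw [Matrix.dotProduct_mulVec, ← Matrix.mulVec_transpose, hd, zero_dotProduct]
    rw [h6, h7, zero_add, dotProduct_single, mul_one]
  · have h1 : F.g p (Pi.single i 1) = 0 := by
      refine F.g_supp p _ fun j hj => ?_
      have hij : j ≠ i := fun h => hi (h ▸ hj)
      simp [hij]
    rw [h1, evE_zero]
    have h2 : y i = 0 := by
      by_contra h
      exact hi (hy i h)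
    rw [h2, zero_add]
    symm
    simp only [Matrix.mulVec, dotProduct, Matrix.transpose_apply, Matrix.map_apply]
    refine Finset.sum_eq_zero fun j _ => ?_
    by_cases hd1 : F.d j i = 0
    · rw [hd1, map_zero, zero_mul]
    · have h3 : ∑ k, eps (F.Q k j) * y k = 0 := by
        refine Finset.sum_eq_zero fun k _ => ?_
        by_cases hq : F.Q k j = 0
        · rw [hq, map_zero, zero_mul]
        · by_cases hyk : y k = 0
          · rw [hyk, mul_zero]
          · exfalso
            have e1 := F.hd j i hd1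
            have e2 := F.hQ k j hq
            have e3 := hy k hyk
            omega
      rw [h3, mul_zero]

end FinModel

end Pool.Agent.PD4.Top
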