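import Pool.Agent.PD4.Top.Model

/-!
# Transfer to the finite model at `t = 1`: integral cochains

`pbZ y`: pull-back along `h` of the integral cochain `y` of the model, `gZ b`: pull-back along
`g` of an integral cochain of `X`, `gZ (pbZ y) - y` is a coboundary for a cocycle `y`.
-/

namespace Pool.Agent.PD4.Top

open Matrix Finset

theorem laug_sgn {n : ℕ} (i : ℕ) (m : Fin n → ℤ) (f : Lam n) :
    laug ((-1) ^ i * cv tau m * f) = (-1) ^ i * laug f := by
  rw [map_mul, map_mul, map_pow, map_neg, map_one, cv_tau, laug_single, mul_one]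

theorem lder_sgn {n : ℕ} (u : Fin n) (i : ℕ) (m : Fin n → ℤ) (f : Lam n) :
    lder u ((-1) ^ i * cv tau m * f) = (-1) ^ i * (m u * laug f + lder u f) := by
  have h1 : lder u ((-1 : Lam n) ^ i) = 0 := by
    rcases neg_one_pow_eq_or (Lam n) i with h | h
    · rw [h, lder_one]
    · rw [h, map_neg, lder_one, neg_zero]
  have h2 : laug ((-1 : Lam n) ^ i) = (-1) ^ i := by
    rw [map_pow, map_neg, map_one]
  rw [lder_mul, lder_mul, map_mul, h1, h2, cv_tau, laug_single, lder_single]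
  simp only [Int.cast_id]
  ring

section cval

variable {X : DeltaCx} {n : ℕ}

/-- the value at `1` of an integral cochain on a chain with coefficients in `ℤ[ℤⁿ]` -/
noncomputable def cval {p : ℕ} (b : X.S p → ℤ) (x : X.S p →₀ Lam n) : ℤ :=
  x.sum fun s r => laug r * b s

theorem cval_add {p : ℕ} (b : X.S p → ℤ) (x x' : X.S p →₀ Lam n) :
    cval b (x + x') = cval b x + cval b x' := by
  unfold cval
  rw [Finsupp.sum_add_index']
  · intro s
    rw [map_zero, zero_mul]
  · intro s r r'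
    rw [map_add, add_mul]

theorem cval_single {p : ℕ} (b : X.S p → ℤ) (s : X.S p) (r : Lam n) :
    cval b (Finsupp.single s r) = laug r * b s := by
  unfold cval
  rw [Finsupp.sum_single_index]
  rw [map_zero, zero_mul]

theorem cval_zero {p : ℕ} (b : X.S p → ℤ) : cval b (0 : X.S p →₀ Lam n) = 0 := by
  unfold cval
  rw [Finsupp.sum_zero_index]

theorem cval_smul {p : ℕ} (b : X.S p → ℤ) (r : Lam n) (x : X.S p →₀ Lam n) :
    cval b (r • x) = laug r * cval b x := by
  induction x using Finsupp.induction_linear with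
  | zero => rw [smul_zero, cval_zero, mul_zero]
  | add f g hf hg => rw [smul_add, cval_add, cval_add, hf, hg, mul_add]
  | single s a => rw [Finsupp.smul_single, cval_single, cval_single, smul_eq_mul, map_mul,
      mul_assoc]

theorem cval_sum {p : ℕ} (b : X.S p → ℤ) {ι : Type} (T : Finset ι)
    (x : ι → X.S p →₀ Lam n) : cval b (∑ i ∈ T, x i) = ∑ i ∈ T, cval b (x i) :=
  map_sum (AddMonoidHom.mk' (fun x : X.S p →₀ Lam n => cval b x) (cval_add b)) x T

theorem cval_add_left {p : ℕ} (b b' : X.S p → ℤ) (x : X.S p →₀ Lam n) :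
    cval (b + b') x = cval b x + cval b' x := by
  unfold cval Finsupp.sum
  rw [← Finset.sum_add_distrib]
  exact Finset.sum_congr rfl fun s _ => mul_add (laug (x s)) (b s) (b' s)

theorem cval_smul_left {p : ℕ} (m : ℤ) (b : X.S p → ℤ) (x : X.S p →₀ Lam n) :
    cval (m • b) x = m * cval b x := by
  unfold cval Finsupp.sum
  rw [Finset.mul_sum]
  exact Finset.sum_congr rfl fun s _ => mul_left_comm (laug (x s)) m (b s)

theorem cval_bd (κ : Kap X (Fin n → ℤ)) {p : ℕ} (b : X.S p → ℤ) (x : X.S (p + 1) →₀ Lam n) :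
    cval b (bd κ tau p x) = cval (dZ X p b) x := by
  induction x using Finsupp.induction_linear with
  | zero => rw [map_zero, cval_zero, cval_zero]
  | add f g hf hg => rw [map_add, cval_add, cval_add, hf, hg]
  | single s r =>
    rw [bd_single, cval_sum, cval_single]
    change _ = laug r * ∑ i : Fin (p + 2), (-1) ^ (i : ℕ) * b (X.map (fc i) s)
    rw [Finset.mul_sum]
    refine Finset.sum_congr rfl fun i _ => ?_
    have h4 := laug_sgn (i : ℕ) (κ.kk s 0 (fc i 0)) (1 : Lam n)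
    rw [mul_one, map_one, mul_one] at h4
    rw [cval_single, map_mul, h4, mul_assoc]

end cval

namespace FinModel

variable {X : DeltaCx} {n : ℕ} {κ : Kap X (Fin n → ℤ)} (F : FinModel κ)

/-- the value at `1` of a cochain of the model on the image of a chain of `X` -/
noncomputable def evZ (y : F.I → ℤ) {p : ℕ} (x : X.S p →₀ Lam n) : ℤ :=
  y ⬝ᵥ fun i => laug (F.h p x i)

theorem evZ_add (y : F.I → ℤ) {p : ℕ} (x x' : X.S p →₀ Lam n) :
    F.evZ y (x + x') = F.evZ y x + F.evZ y x' := by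
  rw [evZ, evZ, evZ, ← dotProduct_add]
  congr 1
  funext i
  rw [map_add, Pi.add_apply, map_add, Pi.add_apply]

theorem evZ_smul (y : F.I → ℤ) {p : ℕ} (r : Lam n) (x : X.S p →₀ Lam n) :
    F.evZ y (r • x) = laug r * F.evZ y x := by
  rw [evZ, evZ, ← smul_eq_mul, ← dotProduct_smul]
  congr 1
  funext i
  rw [map_smul, Pi.smul_apply, smul_eq_mul, map_mul, Pi.smul_apply, smul_eq_mul]

theorem evZ_zero (y : F.I → ℤ) {p : ℕ} : F.evZ y (0 : X.S p →₀ Lam n) = 0 := by
  rw [evZ, map_zero]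
  simp [dotProduct]

/-- pull-back along `h` of an integral cochain of the model -/
noncomputable def pbZ (y : F.I → ℤ) {p : ℕ} (s : X.S p) : ℤ := F.evZ y (Finsupp.single s 1)

theorem pbZ_def (y : F.I → ℤ) {p : ℕ} (s : X.S p) :
    F.pbZ y s = y ⬝ᵥ fun i => laug (F.h p (Finsupp.single s 1) i) := rfl

/-- the pull-back of the first order part -/
noncomputable def pbD (u : Fin n) (y : F.I → ℤ) {p : ℕ} (s : X.S p) : ℤ :=
  y ⬝ᵥ fun i => lder u (F.h p (Finsupp.single s 1) i)

theorem evZ_single (y : F.I → ℤ) {p : ℕ} (s : X.S p) (r : Lam n) :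
    F.evZ y (Finsupp.single s r) = laug r * F.pbZ y s := by
  have h1 : Finsupp.single s r = r • (Finsupp.single s 1 : X.S p →₀ Lam n) := by
    rw [Finsupp.smul_single, smul_eq_mul, mul_one]
  rw [h1, F.evZ_smul]
  rfl

theorem evZ_sum (y : F.I → ℤ) {p : ℕ} (x : X.S p →₀ Lam n) :
    F.evZ y x = x.sum fun s r => laug r * F.pbZ y s := by
  induction x using Finsupp.induction_linear with
  | zero => rw [F.evZ_zero, Finsupp.sum_zero_index]
  | add f g hf hg =>
    rw [F.evZ_add, hf, hg, Finsupp.sum_add_index']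
    · intro s
      rw [map_zero, zero_mul]
    · intro s a b
      rw [map_add, add_mul]
  | single s r =>
    rw [F.evZ_single, Finsupp.sum_single_index]
    rw [map_zero, zero_mul]

theorem evZ_bd (y : F.I → ℤ) {p : ℕ} (x : X.S (p + 1) →₀ Lam n) :
    F.evZ y (bd κ tau p x) = F.evZ ((F.d.map laug)ᵀ *ᵥ y) x := by
  rw [evZ, evZ, F.h_bd, Matrix.mulVec_transpose, ← Matrix.dotProduct_mulVec]
  congr 1
  funext i
  rw [Matrix.mulVec, dotProduct, map_sum]
  refine Finset.sum_congr rfl fun j _ => ?_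
  rw [map_mul]
  rfl

/-- the value of `h` on the boundary of a simplex -/
theorem h_bd_single {p : ℕ} (s : X.S (p + 1)) (a : F.I) :
    ∑ i : Fin (p + 2), (-1) ^ (i : ℕ) * cv tau (κ.kk s 0 (fc i 0)) *
      F.h p (Finsupp.single (X.map (fc i) s) 1) a
      = ∑ b, F.d a b * F.h (p + 1) (Finsupp.single s 1) b := by
  have h1 := congrFun (F.h_bd p (Finsupp.single s 1)) a
  rw [bd_single, map_sum, Finset.sum_apply] at h1
  refine Eq.trans (Finset.sum_congr rfl fun i _ => ?_) h1
  have h2 : (Finsupp.single (X.map (fc i) s) (1 * ((-1) ^ (i : ℕ) *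
      cv tau (κ.kk s 0 (fc i 0)))) : X.S p →₀ Lam n)
      = ((-1) ^ (i : ℕ) * cv tau (κ.kk s 0 (fc i 0))) • Finsupp.single (X.map (fc i) s) 1 := by
    rw [Finsupp.smul_single, smul_eq_mul, mul_one, one_mul]
  rw [h2, map_smul, Pi.smul_apply, smul_eq_mul]

/-- `pbZ` is a cochain map -/
theorem dZ_pbZ (y : F.I → ℤ) {p : ℕ} :
    dZ X p (F.pbZ y) = F.pbZ ((F.d.map laug)ᵀ *ᵥ y) (p := p + 1) := by
  funext s
  change ∑ i : Fin (p + 2), (-1) ^ (i : ℕ) * F.pbZ y (X.map (fc i) s) = _
  have h1 : F.pbZ ((F.d.map laug)ᵀ *ᵥ y) s = F.evZ y (bd κ tau p (Finsupp.single s 1)) :=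
    (F.evZ_bd y _).symm
  rw [h1, bd_single]
  have h2 : F.evZ y (∑ i : Fin (p + 2), Finsupp.single (X.map (fc i) s)
      (1 * ((-1) ^ (i : ℕ) * cv tau (κ.kk s 0 (fc i 0)))))
      = ∑ i : Fin (p + 2), F.evZ y (Finsupp.single (X.map (fc i) s)
      (1 * ((-1) ^ (i : ℕ) * cv tau (κ.kk s 0 (fc i 0))))) := by
    have h3 := map_sum (AddMonoidHom.mk' (fun x : X.S p →₀ Lam n => F.evZ y x) (F.evZ_add y))
      (fun i : Fin (p + 2) => Finsupp.single (X.map (fc i) s)
        (1 * ((-1 : Lam n) ^ (i : ℕ) * cv tau (κ.kk s 0 (fc i 0))))) Finset.univ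
    exact h3
  rw [h2]
  refine Finset.sum_congr rfl fun i _ => ?_
  rw [F.evZ_single, one_mul]
  have h4 := laug_sgn (i : ℕ) (κ.kk s 0 (fc i 0)) (1 : Lam n)
  rw [mul_one, map_one, mul_one] at h4
  rw [h4]

/-- first order part of the cochain map -/
theorem dZ_pbD (u : Fin n) (y : F.I → ℤ) {p : ℕ} (s : X.S (p + 1)) :
    κ.kk s 0 1 u * F.pbZ y (X.map (fc 0) s) + dZ X p (F.pbD u y) s
      = F.pbZ ((F.d.map (lder u))ᵀ *ᵥ y) s + F.pbD u ((F.d.map laug)ᵀ *ᵥ y) s := by
  have h1 : ∀ a, ∑ i : Fin (p + 2), (-1) ^ (i : ℕ) * ((κ.kk s 0 (fc i 0)) u *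
      laug (F.h p (Finsupp.single (X.map (fc i) s) 1) a) +
      lder u (F.h p (Finsupp.single (X.map (fc i) s) 1) a))
      = ∑ b, (lder u (F.d a b) * laug (F.h (p + 1) (Finsupp.single s 1) b)
        + laug (F.d a b) * lder u (F.h (p + 1) (Finsupp.single s 1) b)) := by
    intro a
    have h2 := congrArg (lder u) (F.h_bd_single s a)
    rw [map_sum, map_sum] at h2
    refine Eq.trans (Finset.sum_congr rfl fun i _ => (lder_sgn u _ _ _).symm) (h2.trans ?_)
    exact Finset.sum_congr rfl fun b _ => lder_mul u _ _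
  have e1 : κ.kk s 0 1 u * F.pbZ y (X.map (fc 0) s) + dZ X p (F.pbD u y) s
      = ∑ i : Fin (p + 2), (-1) ^ (i : ℕ) * ((κ.kk s 0 (fc i 0)) u *
        F.pbZ y (X.map (fc i) s) + F.pbD u y (X.map (fc i) s)) := by
    have h3 : dZ X p (F.pbD u y) s
        = ∑ i : Fin (p + 2), (-1) ^ (i : ℕ) * F.pbD u y (X.map (fc i) s) := rfl
    rw [h3]
    simp only [mul_add, Finset.sum_add_distrib]
    congr 1
    rw [Fin.sum_univ_succ, Finset.sum_eq_zero, add_zero]
    · rw [Fin.val_zero, pow_zero, one_mul]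
      rfl
    · intro i _
      have h4 : (fc i.succ : Emb p (p + 1)) 0 = 0 := by
        rw [fc_apply]
        exact Fin.succ_succAbove_zero i
      rw [h4, κ.kk_self]
      simp
  rw [e1]
  have e2 : ∀ i : Fin (p + 2), (-1) ^ (i : ℕ) * ((κ.kk s 0 (fc i 0)) u *
        F.pbZ y (X.map (fc i) s) + F.pbD u y (X.map (fc i) s))
      = ∑ a, y a * ((-1) ^ (i : ℕ) * ((κ.kk s 0 (fc i 0)) u *
      laug (F.h p (Finsupp.single (X.map (fc i) s) 1) a) +
      lder u (F.h p (Finsupp.single (X.map (fc i) s) 1) a))) := by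
    intro i
    rw [pbZ_def, pbD, dotProduct, dotProduct, Finset.mul_sum, ← Finset.sum_add_distrib,
      Finset.mul_sum]
    exact Finset.sum_congr rfl fun a _ => by ring
  rw [Finset.sum_congr rfl fun i _ => e2 i, Finset.sum_comm]
  have e3 : ∀ a, ∑ i : Fin (p + 2), y a * ((-1) ^ (i : ℕ) * ((κ.kk s 0 (fc i 0)) u *
      laug (F.h p (Finsupp.single (X.map (fc i) s) 1) a) +
      lder u (F.h p (Finsupp.single (X.map (fc i) s) 1) a)))
      = y a * (∑ b, (F.d.map (lder u)) a b * laug (F.h (p + 1) (Finsupp.single s 1) b))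
        + y a * (∑ b, (F.d.map laug) a b * lder u (F.h (p + 1) (Finsupp.single s 1) b)) := by
    intro a
    rw [← Finset.mul_sum, h1 a, ← mul_add, ← Finset.sum_add_distrib]
    rfl
  rw [Finset.sum_congr rfl fun a _ => e3 a, Finset.sum_add_distrib, pbZ_def, pbD,
    Matrix.mulVec_transpose, Matrix.mulVec_transpose, ← Matrix.dotProduct_mulVec,
    ← Matrix.dotProduct_mulVec]
  rfl

/-! ### pull-back along `g` -/

/-- pull-back along `g` of an integral cochain of `X` -/
noncomputable def gZ {p : ℕ} (b : X.S p → ℤ) (i : F.I) : ℤ := cval b (F.g p (Pi.single i 1))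

theorem gZ_add {p : ℕ} (b b' : X.S p → ℤ) : F.gZ (b + b') = F.gZ b + F.gZ b' :=
  funext fun _ => cval_add_left b b' _

theorem gZ_smul {p : ℕ} (m : ℤ) (b : X.S p → ℤ) : F.gZ (m • b) = m • F.gZ b :=
  funext fun _ => cval_smul_left m b _

theorem pbZ_add (y y' : F.I → ℤ) {p : ℕ} : F.pbZ (y + y') (p := p) = F.pbZ y + F.pbZ y' :=
  funext fun _ => add_dotProduct _ _ _

theorem pbZ_smul (m : ℤ) (y : F.I → ℤ) {p : ℕ} : F.pbZ (m • y) (p := p) = m • F.pbZ y :=
  funext fun _ => smul_dotProduct _ _ _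

theorem cval_g {p : ℕ} (b : X.S p → ℤ) (v : F.I → Lam n) :
    cval b (F.g p v) = ∑ j, laug (v j) * F.gZ b j := by
  have h1 : v = ∑ j, v j • (Pi.single j 1 : F.I → Lam n) := by
    funext i
    rw [Finset.sum_apply]
    simp [Pi.single_apply]
  conv_lhs => rw [h1]
  rw [map_sum, cval_sum]
  refine Finset.sum_congr rfl fun j _ => ?_
  rw [map_smul, cval_smul]
  rfl

/-- the pull-back along `g` is a cochain map -/
theorem gZ_dZ {p : ℕ} (b : X.S p → ℤ) :
    F.gZ (dZ X p b) = (F.d.map laug)ᵀ *ᵥ F.gZ b := by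
  funext i
  rw [gZ, ← cval_bd κ, F.g_bd, cval_g]
  refine Finset.sum_congr rfl fun j _ => ?_
  change laug ((F.d *ᵥ Pi.single i 1) j) * F.gZ b j = laug (F.d j i) * F.gZ b j
  rw [Matrix.mulVec_single, MulOpposite.op_one, one_smul]
  rfl

/-- a cocycle of the model comes back from `X` up to a coboundary -/
theorem gZ_pbZ {p : ℕ} (y : F.I → ℤ) (hy : ∀ i, y i ≠ 0 → F.deg i = p)
    (hc : (F.d.map laug)ᵀ *ᵥ y = 0) :
    F.gZ (F.pbZ y (p := p)) = y + (F.d.map laug)ᵀ *ᵥ ((F.Q.map laug)ᵀ *ᵥ y) := by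
  funext i
  have h1 : F.gZ (F.pbZ y (p := p)) i = F.evZ y (F.g p (Pi.single i 1)) :=
    (F.evZ_sum y _).symm
  by_cases hi : F.deg i = p
  · have h2 := F.Q_eq p (Pi.single i 1) (by
      intro j hj
      by_cases hji : j = i
      · rw [hji, hi]
      · exact absurd (Pi.single_eq_of_ne (M := fun _ : F.I => Lam n) hji 1) hj)
    have h3 : F.h p (F.g p (Pi.single i 1)) = Pi.single i 1 +
        (F.d *ᵥ (F.Q *ᵥ Pi.single i 1) + F.Q *ᵥ (F.d *ᵥ Pi.single i 1)) := by
      rw [← h2]
      abel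
    have h4 : (fun a => laug (F.h p (F.g p (Pi.single i 1)) a)) = Pi.single i 1 +
        ((F.d.map laug) *ᵥ ((F.Q.map laug) *ᵥ Pi.single i 1) +
          (F.Q.map laug) *ᵥ ((F.d.map laug) *ᵥ Pi.single i 1)) := by
      have e0 : ∀ a, laug ((Pi.single i 1 : F.I → Lam n) a) = (Pi.single i 1 : F.I → ℤ) a := by
        intro a
        by_cases ha : a = i
        · rw [ha, Pi.single_eq_same, Pi.single_eq_same, map_one]
        · rw [Pi.single_eq_of_ne ha, Pi.single_eq_of_ne ha, map_zero]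
      funext a
      rw [h3, Pi.add_apply, Pi.add_apply, map_add, map_add, Matrix.mulVec_mulVec,
        Matrix.mulVec_mulVec, Pi.add_apply, Pi.add_apply, e0, Matrix.mulVec_mulVec,
        Matrix.mulVec_mulVec, ← Matrix.map_mul, ← Matrix.map_mul, RingHom.map_mulVec,
        RingHom.map_mulVec]
      have e1 : (fun a => laug ((Pi.single i 1 : F.I → Lam n) a)) = Pi.single i 1 := funext e0
      change _ + (((F.d * F.Q).map laug *ᵥ (fun a => laug ((Pi.single i 1 : F.I → Lam n) a))) a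
        + ((F.Q * F.d).map laug *ᵥ (fun a => laug ((Pi.single i 1 : F.I → Lam n) a))) a) = _
      rw [e1]
    rw [h1, evZ, h4, dotProduct_add, dotProduct_add, Matrix.dotProduct_mulVec,
      ← Matrix.mulVec_transpose, hc, zero_dotProduct, zero_add, Matrix.dotProduct_mulVec,
      Matrix.dotProduct_mulVec, ← Matrix.mulVec_transpose, ← Matrix.mulVec_transpose,
      dotProduct_single, dotProduct_single, mul_one, mul_one, Pi.add_apply]
  · have h2 : F.g p (Pi.single i 1) = 0 := by
      refine F.g_supp p _ fun j hj => ?_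
      refine Pi.single_eq_of_ne (M := fun _ : F.I => Lam n) ?_ 1
      rintro rfl
      exact hi hj
    have h3 : y i = 0 := by
      by_contra h
      exact hi (hy i h)
    have h4 : ((F.d.map laug)ᵀ *ᵥ ((F.Q.map laug)ᵀ *ᵥ y)) i = 0 := by
      refine Finset.sum_eq_zero fun j _ => ?_
      by_contra h5
      have h6 : F.d j i ≠ 0 := by
        intro h0
        apply h5
        change laug (F.d j i) * _ = 0
        rw [h0, map_zero, zero_mul]
      obtain ⟨a, -, ha⟩ := Finset.exists_ne_zero_of_sum_ne_zero (right_ne_zero_of_mul h5)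
      have h7 : F.Q a j ≠ 0 := by
        intro h0
        apply ha
        change laug (F.Q a j) * _ = 0
        rw [h0, map_zero, zero_mul]
      have h8 := hy a (right_ne_zero_of_mul ha)
      have h9 := F.hd j i h6
      have h10 := F.hQ a j h7
      omega
    rw [h1, h2, F.evZ_zero, Pi.add_apply, h3, h4, add_zero]

end FinModel

end Pool.Agent.PD4.Top
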